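import Mathlib

namespace Pool.Agent.Lib.MP_574c26_nt

open Finset

/-- squared Euclidean norm of an integer vector -/
def nsq {d : ℕ} (x : Fin d → ℤ) : ℤ := ∑ i, x i ^ 2

/-- integer points of squared norm at most `q` -/
noncomputable def zball (d : ℕ) (q : ℤ) : Finset (Fin d → ℤ) :=
  (Fintype.piFinset fun _ => Icc (-q) q).filter (fun x => nsq x ≤ q)

theorem nsq_nonneg {d : ℕ} (x : Fin d → ℤ) : 0 ≤ nsq x :=
  Finset.sum_nonneg (fun _ _ => sq_nonneg _)

theorem mem_zball {d : ℕ} {q : ℤ} {x : Fin d → ℤ} : x ∈ zball d q ↔ nsq x ≤ q := by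
  unfold zball
  rw [mem_filter, Fintype.mem_piFinset]
  refine ⟨fun h => h.2, fun h => ⟨fun i => ?_, h⟩⟩
  have h1 : x i ^ 2 ≤ nsq x :=
    Finset.single_le_sum (f := fun i => x i ^ 2) (fun _ _ => sq_nonneg _) (mem_univ i)
  rw [mem_Icc]
  constructor <;> nlinarith [sq_nonneg (x i + 1), sq_nonneg (x i - 1), sq_nonneg (x i),
    sq_nonneg (2 * x i + 1), sq_nonneg (2 * x i - 1), Int.le_self_sq (x i), Int.le_self_sq (- x i)]

theorem theta_le (σ : ℝ) (hσ0 : 0 < σ) (hσ1 : σ ≤ 1) (q : ℕ) :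
    ∑ n ∈ Icc (-(q : ℤ)) q, Real.exp (-(σ ^ 2 * (n : ℝ) ^ 2)) ≤ 6 / σ := by
  set ρ : ℝ := Real.exp (-σ) with hρ
  have hρ0 : 0 < ρ := Real.exp_pos _
  have hρ1 : ρ ≤ 1 - σ / 2 := by
    have h1 : 1 + σ ≤ Real.exp σ := by have := Real.add_one_le_exp σ; linarith
    rw [hρ, Real.exp_neg, inv_le_comm₀ (Real.exp_pos _) (by linarith)]
    refine le_trans ?_ h1
    rw [inv_le_iff_one_le_mul₀ (by linarith)]
    nlinarith
  have hgeom : ∑ j ∈ range (q + 1), ρ ^ j ≤ 2 / σ := by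
    have h1 : ∑ j ∈ range (q + 1), ρ ^ j ≤ ∑' j, ρ ^ j :=
      (summable_geometric_of_lt_one hρ0.le (by linarith)).sum_le_tsum _
        (fun j _ => by positivity)
    rw [tsum_geometric_of_lt_one hρ0.le (by linarith)] at h1
    refine h1.trans ?_
    rw [inv_le_comm₀ (by linarith) (by positivity)]
    rw [inv_div]
    linarith
  have hterm : ∀ j : ℕ, Real.exp (-(σ ^ 2 * (j : ℝ) ^ 2)) ≤ 3 / 2 * ρ ^ j := by
    intro j
    have h1 : Real.exp (1 / 4) ≤ 3 / 2 := by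
      have h2 := Real.exp_bound_div_one_sub_of_interval (x := 1 / 4) (by norm_num) (by norm_num)
      linarith
    have h3 : ρ ^ j = Real.exp (-(σ * j)) := by
      rw [hρ, ← Real.exp_nat_mul]; ring_nf
    rw [h3]
    calc Real.exp (-(σ ^ 2 * (j : ℝ) ^ 2)) ≤ Real.exp (1 / 4 + -(σ * j)) := by
          apply Real.exp_le_exp.mpr
          nlinarith [sq_nonneg (σ * j - 1 / 2)]
      _ = Real.exp (1 / 4) * Real.exp (-(σ * j)) := Real.exp_add _ _
      _ ≤ _ := mul_le_mul_of_nonneg_right h1 (Real.exp_pos _).le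
  have hsub : Icc (-(q : ℤ)) q ⊆ (range (q + 1)).image (fun j : ℕ => (j : ℤ)) ∪
      (range (q + 1)).image (fun j : ℕ => -(j : ℤ)) := by
    intro n hn
    rw [mem_Icc] at hn
    rw [mem_union, mem_image, mem_image]
    rcases le_total 0 n with h | h
    · left; exact ⟨n.toNat, mem_range.mpr (by omega), by omega⟩
    · right; exact ⟨(-n).toNat, mem_range.mpr (by omega), by omega⟩
  have hA : ∑ n ∈ (range (q + 1)).image (fun j : ℕ => (j : ℤ)),
      Real.exp (-(σ ^ 2 * (n : ℝ) ^ 2)) ≤ 3 / σ := by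
    rw [sum_image (fun a _ b _ h => by exact_mod_cast h)]
    calc _ ≤ ∑ j ∈ range (q + 1), 3 / 2 * ρ ^ j :=
          Finset.sum_le_sum (fun j _ => by simpa using hterm j)
      _ = 3 / 2 * ∑ j ∈ range (q + 1), ρ ^ j := by rw [Finset.mul_sum]
      _ ≤ 3 / 2 * (2 / σ) := by gcongr
      _ = 3 / σ := by ring
  have hB : ∑ n ∈ (range (q + 1)).image (fun j : ℕ => -(j : ℤ)),
      Real.exp (-(σ ^ 2 * (n : ℝ) ^ 2)) ≤ 3 / σ := by
    rw [sum_image (fun a _ b _ h => by simpa using h)]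
    calc _ ≤ ∑ j ∈ range (q + 1), 3 / 2 * ρ ^ j :=
          Finset.sum_le_sum (fun j _ => by simpa using hterm j)
      _ = 3 / 2 * ∑ j ∈ range (q + 1), ρ ^ j := by rw [Finset.mul_sum]
      _ ≤ 3 / 2 * (2 / σ) := by gcongr
      _ = 3 / σ := by ring
  calc _ ≤ ∑ n ∈ (range (q + 1)).image (fun j : ℕ => (j : ℤ)) ∪
      (range (q + 1)).image (fun j : ℕ => -(j : ℤ)), Real.exp (-(σ ^ 2 * (n : ℝ) ^ 2)) :=
        Finset.sum_le_sum_of_subset_of_nonneg hsub (fun _ _ _ => (Real.exp_pos _).le)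
    _ ≤ _ := by
        rw [← Finset.union_sdiff_self_eq_union, sum_union disjoint_sdiff]
        have : ∑ n ∈ (range (q + 1)).image (fun j : ℕ => -(j : ℤ)) \
            (range (q + 1)).image (fun j : ℕ => (j : ℤ)), Real.exp (-(σ ^ 2 * (n : ℝ) ^ 2))
            ≤ ∑ n ∈ (range (q + 1)).image (fun j : ℕ => -(j : ℤ)),
              Real.exp (-(σ ^ 2 * (n : ℝ) ^ 2)) :=
          Finset.sum_le_sum_of_subset_of_nonneg sdiff_subset (fun _ _ _ => (Real.exp_pos _).le)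
        have h6 : 6 / σ = 3 / σ + 3 / σ := by ring
        linarith

theorem card_zball_le (d : ℕ) (σ : ℝ) (hσ0 : 0 < σ) (hσ1 : σ ≤ 1) (q : ℕ) :
    ((zball d q).card : ℝ) ≤ Real.exp (σ ^ 2 * q) * (6 / σ) ^ d := by
  have h1 : (∑ n ∈ Icc (-(q : ℤ)) q, Real.exp (-(σ ^ 2 * (n : ℝ) ^ 2))) ^ d
      = ∑ x ∈ Fintype.piFinset (fun _ : Fin d => Icc (-(q : ℤ)) q),
          ∏ i, Real.exp (-(σ ^ 2 * (x i : ℝ) ^ 2)) := by
    rw [Finset.sum_pow']
  have h2 := pow_le_pow_left₀ (Finset.sum_nonneg (fun _ _ => (Real.exp_pos _).le))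
    (theta_le σ hσ0 hσ1 q) d
  refine le_trans ?_ (mul_le_mul_of_nonneg_left h2 (Real.exp_pos _).le)
  rw [h1, Finset.mul_sum]
  unfold zball
  rw [card_filter]
  push_cast
  apply Finset.sum_le_sum
  intro x _
  rw [← Real.exp_sum, ← Real.exp_add]
  split_ifs with h
  · apply Real.one_le_exp
    rw [Finset.sum_neg_distrib, ← Finset.mul_sum]
    have h3 : ((nsq x : ℤ) : ℝ) ≤ q := by exact_mod_cast h
    unfold nsq at h3
    push_cast at h3
    nlinarith [sq_nonneg σ]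
  · exact (Real.exp_pos _).le

theorem le_card_zball (d w : ℕ) : (w + 1) ^ d ≤ (zball d ((d * w ^ 2 : ℕ) : ℤ)).card := by
  have h1 : (Fintype.piFinset (fun _ : Fin d => Icc (0 : ℤ) w)).card = (w + 1) ^ d := by
    rw [Fintype.card_piFinset]
    simp
  rw [← h1]
  apply card_le_card
  intro x hx
  rw [Fintype.mem_piFinset] at hx
  rw [mem_zball]
  unfold nsq
  calc ∑ i, x i ^ 2 ≤ ∑ _i : Fin d, (w : ℤ) ^ 2 := by
        apply Finset.sum_le_sum
        intro i _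
        have := mem_Icc.mp (hx i)
        exact pow_le_pow_left₀ this.1 this.2 2
    _ = _ := by simp

/-- Legendre-type choice of a radius at which the lattice point count grows at rate `σ ^ 2`. -/
theorem exists_radius (d : ℕ) (hd : 1 ≤ d) (σ : ℝ) (hσ0 : 0 < σ) (hσ1 : σ ≤ 1) :
    ∃ q : ℕ, σ ^ 2 * q ≤ 7 * d ∧ ∀ z : ℤ,
      ((zball d z).card : ℝ) ≤ Real.exp (σ ^ 2 * (z - q)) * ((zball d q).card : ℝ) := by
  let φ : ℕ → ℝ := fun q => ((zball d q).card : ℝ) * Real.exp (-(σ ^ 2 * q))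
  have hσ2 : 0 < σ ^ 2 := by positivity
  have hσ3 : σ ^ 2 ≤ 1 := pow_le_one₀ hσ0.le hσ1
  have hd' : (1 : ℝ) ≤ d := by exact_mod_cast hd
  set w : ℕ := ⌊1 / σ⌋₊ with hw
  have hw1 : (w : ℝ) ≤ 1 / σ := Nat.floor_le (by positivity)
  have hw2 : 1 / σ ≤ (w : ℝ) + 1 := (Nat.lt_floor_add_one _).le
  have hq0 : σ ^ 2 * ((d * w ^ 2 : ℕ) : ℝ) ≤ d := by
    push_cast
    have h1 : σ * w ≤ 1 := by rwa [le_div_iff₀ hσ0, mul_comm] at hw1
    have h2 : (σ * w) ^ 2 ≤ 1 := pow_le_one₀ (by positivity) h1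
    nlinarith
  have hφ0 : (1 / σ) ^ d * Real.exp (-(d : ℝ)) ≤ φ (d * w ^ 2) := by
    have h1 : (((w + 1) ^ d : ℕ) : ℝ) ≤ ((zball d ((d * w ^ 2 : ℕ) : ℤ)).card : ℝ) := by
      exact_mod_cast le_card_zball d w
    push_cast at h1
    have h2 : (1 / σ) ^ d ≤ ((w : ℝ) + 1) ^ d := pow_le_pow_left₀ (by positivity) hw2 d
    simp only [φ]
    apply mul_le_mul
    · push_cast; linarith
    · exact Real.exp_le_exp.mpr (by linarith)
    · exact (Real.exp_pos _).le
    · exact Nat.cast_nonneg _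
  have hφ1 : ∀ q : ℕ, 6 * d ≤ σ ^ 2 * q → φ q ≤ (1 / σ) ^ d * Real.exp (-(d : ℝ)) := by
    intro q hq
    have h1 := card_zball_le d (σ / 2) (by positivity) (by linarith) q
    have h2 : (6 / (σ / 2)) ^ d ≤ (1 / σ) ^ d * Real.exp (3 * d) := by
      have h3 : Real.exp (3 * d) = Real.exp 3 ^ d := by rw [← Real.exp_nat_mul]; ring_nf
      rw [h3, ← mul_pow]
      apply pow_le_pow_left₀ (by positivity)
      have f2 : (12 : ℝ) ≤ Real.exp 3 := by
        have := Real.exp_one_gt_d9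
        have f3 : Real.exp 3 = Real.exp 1 ^ 3 := by rw [← Real.exp_nat_mul]; norm_num
        rw [f3]
        calc (12 : ℝ) ≤ 2.7 ^ 3 := by norm_num
          _ ≤ _ := pow_le_pow_left₀ (by norm_num) (by linarith) 3
      have : 6 / (σ / 2) = 1 / σ * 12 := by field_simp; norm_num
      rw [this]
      exact mul_le_mul_of_nonneg_left f2 (by positivity)
    simp only [φ]
    calc ((zball d q).card : ℝ) * Real.exp (-(σ ^ 2 * q))
        ≤ (Real.exp ((σ / 2) ^ 2 * q) * ((1 / σ) ^ d * Real.exp (3 * d)))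
            * Real.exp (-(σ ^ 2 * q)) := by
          apply mul_le_mul_of_nonneg_right _ (Real.exp_pos _).le
          exact h1.trans (mul_le_mul_of_nonneg_left h2 (Real.exp_pos _).le)
      _ = (1 / σ) ^ d * Real.exp ((σ / 2) ^ 2 * q + 3 * d + -(σ ^ 2 * q)) := by
          rw [Real.exp_add, Real.exp_add]; ring
      _ ≤ _ := by
          apply mul_le_mul_of_nonneg_left _ (by positivity)
          apply Real.exp_le_exp.mpr
          nlinarith
  set Q : ℕ := ⌈6 * d / σ ^ 2⌉₊ with hQ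
  have hQ1 : 6 * d / σ ^ 2 ≤ Q := Nat.le_ceil _
  have hQ2 : (Q : ℝ) ≤ 6 * d / σ ^ 2 + 1 := (Nat.ceil_lt_add_one (by positivity)).le
  rw [div_le_iff₀ hσ2] at hQ1
  have hmem : d * w ^ 2 ∈ range (Q + 1) := by
    rw [mem_range, Nat.lt_add_one_iff]
    have : ((d * w ^ 2 : ℕ) : ℝ) ≤ Q := by
      by_contra h
      push Not at h
      nlinarith
    exact_mod_cast this
  obtain ⟨q, hq1, hq2⟩ := Finset.exists_max_image (range (Q + 1)) φ ⟨_, hmem⟩
  have hall : ∀ q' : ℕ, φ q' ≤ φ q := by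
    intro q'
    by_cases h : q' ∈ range (Q + 1)
    · exact hq2 q' h
    · rw [mem_range] at h
      have h1 : (Q : ℝ) ≤ q' := by exact_mod_cast (by omega : Q ≤ q')
      have h2 := hφ1 q' (by nlinarith)
      exact h2.trans (hφ0.trans (hq2 _ hmem))
  refine ⟨q, ?_, ?_⟩
  · rw [mem_range, Nat.lt_add_one_iff] at hq1
    have h1 : (q : ℝ) ≤ Q := by exact_mod_cast hq1
    have h2 : σ ^ 2 * q ≤ σ ^ 2 * (6 * d / σ ^ 2 + 1) :=
      mul_le_mul_of_nonneg_left (h1.trans hQ2) hσ2.le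
    have h3 : σ ^ 2 * (6 * d / σ ^ 2 + 1) = 6 * d + σ ^ 2 := by field_simp
    linarith
  · intro z
    rcases lt_or_ge z 0 with hz | hz
    · have : zball d z = ∅ := by
        rw [Finset.eq_empty_iff_forall_notMem]
        intro x hx
        have := mem_zball.mp hx
        have := nsq_nonneg x
        omega
      rw [this]
      simp only [card_empty, Nat.cast_zero]
      positivity
    · obtain ⟨q', rfl⟩ := Int.eq_ofNat_of_zero_le hz
      have h1 := hall q'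
      simp only [φ] at h1
      have h2 : ((zball d q').card : ℝ)
          = ((zball d q').card : ℝ) * Real.exp (-(σ ^ 2 * q')) * Real.exp (σ ^ 2 * q') := by
        rw [mul_assoc, ← Real.exp_add]; simp
      rw [h2]
      calc _ ≤ ((zball d q).card : ℝ) * Real.exp (-(σ ^ 2 * q)) * Real.exp (σ ^ 2 * q') :=
            mul_le_mul_of_nonneg_right h1 (Real.exp_pos _).le
        _ = _ := by
            rw [mul_assoc, ← Real.exp_add, mul_comm]; push_cast; ring_nf

end Pool.Agent.Lib.MP_574c26_nt
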