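import Mathlib

namespace Pool.Agent.Lib.MP_574c26_nt

open Finset

/-- Greedy covering with costs. -/
theorem greedy_cover {Ω : Type*} [Fintype Ω] [Nonempty Ω] [DecidableEq Ω] (X : Finset ℕ)
    (good : Ω → ℕ → Prop) [∀ ω a, Decidable (good ω a)]
    (cost : Ω → ℝ) (hcost : ∀ ω, 0 ≤ cost ω) (bad : Ω → ℕ) (π ρ : ℝ) (hρ : 0 < ρ)
    (hgood : ∀ a ∈ X, π * Fintype.card Ω ≤ ((univ.filter (fun ω => good ω a)).card : ℝ))
    (hsum : ∑ ω, (cost ω + bad ω) ≤ (π - ρ) * Fintype.card Ω) :
    ∀ (n : ℕ) (R : Finset ℕ), R.card = n → R ⊆ X → R.Nonempty →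
      ∃ l : Finset Ω, (∀ ω ∈ l, bad ω = 0) ∧ (∀ a ∈ R, ∃ ω ∈ l, good ω a) ∧
        ∑ ω ∈ l, (ρ + cost ω) ≤ Real.log R.card + 1 := by
  intro n
  induction n using Nat.strong_induction_on with
  | _ n ih =>
  intro R hRn hRX hRne
  have hRpos : (0 : ℝ) < R.card := by exact_mod_cast hRne.card_pos
  -- averaging
  have havg : ∃ ω, ρ + (cost ω + bad ω) ≤ ((R.filter (fun a => good ω a)).card : ℝ) / R.card := by
    by_contra hcon
    push Not at hcon
    have h1 : ∑ ω, ((R.filter (fun a => good ω a)).card : ℝ) / R.card
        < ∑ ω, (ρ + (cost ω + bad ω)) :=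
      Finset.sum_lt_sum_of_nonempty univ_nonempty (fun ω _ => hcon ω)
    have h2 : ∑ ω, ((R.filter (fun a => good ω a)).card : ℝ)
        = ∑ a ∈ R, ((univ.filter (fun ω => good ω a)).card : ℝ) := by
      simp only [card_filter]
      push_cast
      exact Finset.sum_comm
    have h3 : (R.card : ℝ) * (π * Fintype.card Ω)
        ≤ ∑ a ∈ R, ((univ.filter (fun ω => good ω a)).card : ℝ) := by
      have := Finset.card_nsmul_le_sum R
        (fun a => ((univ.filter (fun ω => good ω a)).card : ℝ)) (π * Fintype.card Ω)
        (fun a ha => hgood a (hRX ha))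
      simpa [nsmul_eq_mul] using this
    rw [← Finset.sum_div, h2, Finset.sum_add_distrib] at h1
    simp only [sum_const, card_univ, nsmul_eq_mul] at h1
    have h4 : π * Fintype.card Ω
        ≤ (∑ a ∈ R, ((univ.filter (fun ω => good ω a)).card : ℝ)) / R.card := by
      rw [le_div_iff₀ hRpos]; linarith
    nlinarith
  obtain ⟨ω, hω⟩ := havg
  have hle1 : ((R.filter (fun a => good ω a)).card : ℝ) / R.card ≤ 1 := by
    rw [div_le_one hRpos]; exact_mod_cast card_filter_le _ _
  have hbad : bad ω = 0 := by
    by_contra hb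
    have : (1 : ℝ) ≤ bad ω := by exact_mod_cast Nat.one_le_iff_ne_zero.mpr hb
    have := hcost ω
    linarith
  rw [hbad] at hω
  simp only [Nat.cast_zero, add_zero] at hω
  have hlog0 : 0 ≤ Real.log R.card := Real.log_nonneg (by exact_mod_cast hRne.card_pos)
  set R' := R.filter (fun a => ¬ good ω a) with hR'
  have hcard : (R'.card : ℝ) = R.card - (R.filter (fun a => good ω a)).card := by
    have := Finset.card_filter_add_card_filter_not (s := R) (fun a => good ω a)
    rw [← hR'] at this
    have h' : ((R.filter (fun a => good ω a)).card : ℝ) + R'.card = R.card := by exact_mod_cast this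
    linarith
  by_cases hR'ne : R'.Nonempty
  · have hR'pos : (0 : ℝ) < R'.card := by exact_mod_cast hR'ne.card_pos
    have hlt : R'.card < n := by
      have h5 : (0 : ℝ) < ((R.filter (fun a => good ω a)).card : ℝ) / R.card := by
        have := hcost ω; linarith
      have h6 : (0 : ℝ) < ((R.filter (fun a => good ω a)).card : ℝ) := by
        by_contra h; push Not at h
        have := div_nonpos_of_nonpos_of_nonneg h hRpos.le
        linarith
      have : (R'.card : ℝ) < R.card := by linarith
      rw [← hRn]; exact_mod_cast this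
    obtain ⟨l, hl1, hl2, hl3⟩ := ih R'.card hlt R' rfl ((filter_subset _ _).trans hRX) hR'ne
    refine ⟨insert ω l, ?_, ?_, ?_⟩
    · intro x hx
      rcases mem_insert.mp hx with rfl | hx
      · exact hbad
      · exact hl1 x hx
    · intro a ha
      by_cases hg : good ω a
      · exact ⟨ω, mem_insert_self _ _, hg⟩
      · obtain ⟨x, hx, hx'⟩ := hl2 a (mem_filter.mpr ⟨ha, hg⟩)
        exact ⟨x, mem_insert_of_mem hx, hx'⟩
    · have h7 : ∑ x ∈ insert ω l, (ρ + cost x) ≤ (ρ + cost ω) + ∑ x ∈ l, (ρ + cost x) := by
        by_cases hmem : ω ∈ l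
        · rw [insert_eq_of_mem hmem]; have := hcost ω; linarith
        · rw [sum_insert hmem]
      have h8 : Real.log R'.card ≤ Real.log R.card - (ρ + cost ω) := by
        have h9 : Real.log R'.card - Real.log R.card = Real.log (R'.card / R.card) := by
          rw [Real.log_div hR'pos.ne' hRpos.ne']
        have h10 : Real.log (R'.card / R.card) ≤ R'.card / R.card - 1 :=
          Real.log_le_sub_one_of_pos (by positivity)
        have h11 : (R'.card : ℝ) / R.card - 1
            = - (((R.filter (fun a => good ω a)).card : ℝ) / R.card) := by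
          rw [hcard]; field_simp; ring
        linarith
      linarith
  · refine ⟨{ω}, ?_, ?_, ?_⟩
    · intro x hx; rw [mem_singleton.mp hx]; exact hbad
    · intro a ha
      refine ⟨ω, mem_singleton_self _, ?_⟩
      by_contra hg
      exact hR'ne ⟨a, mem_filter.mpr ⟨ha, hg⟩⟩
    · rw [sum_singleton]; linarith

/-- From a colouring with at most `k` colours to a partition of `[1,N]` with exactly `k` parts
refining it. -/
theorem exists_partition_of_colouring {ι : Type*} [DecidableEq ι] (N k : ℕ) (c : ℕ → ι)
    (hk1 : ((Icc 1 N).image c).card ≤ k) (hk2 : k ≤ N) :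
    ∃ P : Finpartition (Icc 1 N), P.parts.card = k ∧
      ∀ A ∈ P.parts, ∀ a ∈ A, ∀ a' ∈ A, a ≠ a' → c a = c a' := by
  classical
  let col : ℕ → ℕ → ℕ ⊕ ι := fun j a => if a ≤ j then Sum.inl a else Sum.inr (c a)
  let m : ℕ → ℕ := fun j => ((Icc 1 N).image (col j)).card
  have hm0 : m 0 ≤ k := by
    have : (Icc 1 N).image (col 0) = ((Icc 1 N).image c).image Sum.inr := by
      rw [image_image]
      apply image_congr
      intro a ha
      have : ¬ a ≤ 0 := by have := (mem_Icc.mp (mem_coe.mp ha)).1; omega
      simp [col, this]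
    simp only [m]
    rw [this]
    exact card_image_le.trans hk1
  have hmN : m N = N := by
    simp only [m]
    rw [card_image_of_injOn]
    · simp
    · intro a ha b hb hab
      have ha' : a ≤ N := (mem_Icc.mp (mem_coe.mp ha)).2
      have hb' : b ≤ N := (mem_Icc.mp (mem_coe.mp hb)).2
      simpa [col, ha', hb'] using hab
  have hstep : ∀ j, m (j + 1) ≤ m j + 1 := by
    intro j
    have : (Icc 1 N).image (col (j + 1)) ⊆ insert (Sum.inl (j + 1)) ((Icc 1 N).image (col j)) := by
      intro x hx
      obtain ⟨a, ha, rfl⟩ := mem_image.mp hx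
      by_cases h : a = j + 1
      · subst h; simp [col]
      · apply mem_insert_of_mem
        refine mem_image.mpr ⟨a, ha, ?_⟩
        by_cases h' : a ≤ j
        · have : a ≤ j + 1 := by omega
          simp [col, h', this]
        · have : ¬ a ≤ j + 1 := by omega
          simp [col, h', this]
    exact (card_le_card this).trans (card_insert_le _ _)
  have hex : ∃ j, m j = k := by
    have hex' : ∃ j, k ≤ m j := ⟨N, by rw [hmN]; exact hk2⟩
    refine ⟨Nat.find hex', le_antisymm ?_ (Nat.find_spec hex')⟩
    rcases h : Nat.find hex' with _ | j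
    · exact hm0
    · have := Nat.find_min hex' (m := j) (by omega)
      have := hstep j
      omega
  obtain ⟨j, hj⟩ := hex
  let P : Finpartition (Icc 1 N) :=
    { parts := ((Icc 1 N).image (col j)).image (fun i => (Icc 1 N).filter (fun a => col j a = i))
      supIndep := by
        rw [Finset.supIndep_iff_pairwiseDisjoint]
        intro A hA B hB hAB
        obtain ⟨i, _, rfl⟩ := mem_image.mp (mem_coe.mp hA)
        obtain ⟨i', _, rfl⟩ := mem_image.mp (mem_coe.mp hB)
        simp only [Function.onFun, id]
        rw [Finset.disjoint_filter]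
        intro a _ h1 h2
        apply hAB
        rw [← h1, ← h2]
      sup_parts := by
        ext a
        simp only [mem_sup, mem_image, id]
        constructor
        · rintro ⟨A, ⟨i, _, rfl⟩, ha⟩
          exact (mem_filter.mp ha).1
        · intro ha
          exact ⟨_, ⟨col j a, ⟨a, ha, rfl⟩, rfl⟩, mem_filter.mpr ⟨ha, rfl⟩⟩
      bot_notMem := by
        intro h
        obtain ⟨i, hi, hi'⟩ := mem_image.mp h
        obtain ⟨a, ha, rfl⟩ := mem_image.mp hi
        have : a ∈ (Icc 1 N).filter (fun b => col j b = col j a) := mem_filter.mpr ⟨ha, rfl⟩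
        rw [hi'] at this
        simp at this }
  refine ⟨P, ?_, ?_⟩
  · simp only [P]
    rw [card_image_of_injOn]
    · exact hj
    · intro i hi i' hi' hii
      obtain ⟨a, ha, rfl⟩ := mem_image.mp (mem_coe.mp hi)
      have : a ∈ (Icc 1 N).filter (fun b => col j b = col j a) := mem_filter.mpr ⟨ha, rfl⟩
      simp only at hii
      rw [hii] at this
      exact (mem_filter.mp this).2
  · intro A hA a ha a' ha' hne
    obtain ⟨i, _, rfl⟩ := mem_image.mp hA
    have h1 := (mem_filter.mp ha).2
    have h2 := (mem_filter.mp ha').2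
    have h3 : col j a = col j a' := h1.trans h2.symm
    by_cases p1 : a ≤ j <;> by_cases p2 : a' ≤ j <;> simp [col, p1, p2] at h3
    · exact absurd h3 hne
    · exact h3

end Pool.Agent.Lib.MP_574c26_nt
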