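import Mathlib
import Pool.Agent.Lib.MP_574c26_nt.Greedy
import Pool.Agent.Lib.MP_574c26_nt.Ball

namespace Pool.Agent.Lib.MP_574c26_nt

open Finset

theorem card_zero_on {G : Type*} [Fintype G] [DecidableEq G] (Q : ℕ) [NeZero Q] (D : Finset G) :
    (univ.filter (fun ω : G → Fin Q => ∀ c ∈ D, ω c = 0)).card * Q ^ D.card
      = Fintype.card (G → Fin Q) := by
  have h1 : univ.filter (fun ω : G → Fin Q => ∀ c ∈ D, ω c = 0)
      = Fintype.piFinset (fun c => if c ∈ D then {0} else univ) := by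
    ext ω
    simp only [mem_filter, mem_univ, true_and, Fintype.mem_piFinset]
    constructor
    · intro h c
      split_ifs with hc
      · simp [h c hc]
      · simp
    · intro h c hc
      have := h c
      simpa [hc] using this
  rw [h1, Fintype.card_piFinset]
  have h2 : ∀ c : G, (if c ∈ D then ({0} : Finset (Fin Q)) else univ).card
      = if c ∈ D then 1 else Q := by
    intro c; split_ifs <;> simp
  simp only [h2]
  have h3 : Q ^ D.card = ∏ c : G, if c ∈ D then Q else 1 := by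
    rw [Finset.prod_ite]; simp
  rw [h3, ← Finset.prod_mul_distrib]
  have h4 : ∀ c : G, ((if c ∈ D then 1 else Q) * if c ∈ D then Q else 1) = Q := by
    intro c; split_ifs <;> simp
  simp [h4]

theorem card_zero_one {G : Type*} [Fintype G] [DecidableEq G] (Q : ℕ) [NeZero Q] (c : G) :
    ((univ.filter (fun ω : G → Fin Q => ω c = 0)).card : ℝ)
      = Fintype.card (G → Fin Q) / Q := by
  have h := card_zero_on Q ({c} : Finset G)
  simp only [mem_singleton, forall_eq, card_singleton, pow_one] at h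
  have hQ : (0 : ℝ) < Q := by exact_mod_cast Nat.pos_of_ne_zero (NeZero.ne Q)
  rw [eq_div_iff hQ.ne']
  exact_mod_cast h

theorem card_zero_two {G : Type*} [Fintype G] [DecidableEq G] (Q : ℕ) [NeZero Q] (c c' : G)
    (h : c ≠ c') :
    ((univ.filter (fun ω : G → Fin Q => ω c = 0 ∧ ω c' = 0)).card : ℝ)
      = Fintype.card (G → Fin Q) / Q ^ 2 := by
  have h1 := card_zero_on Q ({c, c'} : Finset G)
  simp only [mem_insert, mem_singleton, forall_eq_or_imp, forall_eq, card_pair h] at h1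
  have hQ : (0 : ℝ) < Q := by exact_mod_cast Nat.pos_of_ne_zero (NeZero.ne Q)
  rw [eq_div_iff (by positivity)]
  exact_mod_cast h1

/-- probability that some site of `B₁` is the only active site of `B₂`. -/
theorem card_isolated {G : Type*} [Fintype G] [DecidableEq G] (Q : ℕ) [NeZero Q]
    (B₁ B₂ : Finset G) (h12 : B₁ ⊆ B₂) (hQ : 2 * B₂.card ≤ Q) :
    (B₁.card : ℝ) / (2 * Q) * Fintype.card (G → Fin Q) ≤
      ((univ.filter (fun ω : G → Fin Q =>
        ∃ c ∈ B₁, ω c = 0 ∧ ∀ c' ∈ B₂, ω c' = 0 → c' = c)).card : ℝ) := by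
  have hQ0 : (0 : ℝ) < Q := by exact_mod_cast Nat.pos_of_ne_zero (NeZero.ne Q)
  set M : ℝ := (Fintype.card (G → Fin Q) : ℝ) with hM
  have hM0 : 0 ≤ M := Nat.cast_nonneg _
  let E : G → Finset (G → Fin Q) :=
    fun c => univ.filter (fun ω => ω c = 0 ∧ ∀ c' ∈ B₂, ω c' = 0 → c' = c)
  have h1 : univ.filter (fun ω : G → Fin Q =>
        ∃ c ∈ B₁, ω c = 0 ∧ ∀ c' ∈ B₂, ω c' = 0 → c' = c) = B₁.biUnion E := by
    ext ω; simp [E]
  have h2 : (B₁.biUnion E).card = ∑ c ∈ B₁, (E c).card := by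
    apply card_biUnion
    intro c hc c' hc' hne
    simp only [Function.onFun]
    rw [Finset.disjoint_left]
    intro ω h3 h4
    simp only [E, mem_filter, mem_univ, true_and] at h3 h4
    exact hne (h4.2 c (h12 (mem_coe.mp hc)) h3.1)
  have h3 : ∀ c ∈ B₁, M / (2 * Q) ≤ ((E c).card : ℝ) := by
    intro c _
    have h4 : univ.filter (fun ω : G → Fin Q => ω c = 0) ⊆ E c ∪
        (B₂.erase c).biUnion (fun c' => univ.filter (fun ω : G → Fin Q => ω c = 0 ∧ ω c' = 0)) := by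
      intro ω hω
      simp only [mem_filter, mem_univ, true_and] at hω
      by_cases h : ∀ c' ∈ B₂, ω c' = 0 → c' = c
      · exact mem_union_left _ (by simp only [E, mem_filter, mem_univ, true_and]; exact ⟨hω, h⟩)
      · push Not at h
        obtain ⟨c', h5, h6, h7⟩ := h
        apply mem_union_right
        exact mem_biUnion.mpr ⟨c', mem_erase.mpr ⟨h7, h5⟩, by simp [hω, h6]⟩
    have h5 := (card_le_card h4).trans ((card_union_le _ _).trans
      (Nat.add_le_add_left card_biUnion_le _))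
    have h6 : ((univ.filter (fun ω : G → Fin Q => ω c = 0)).card : ℝ) ≤ ((E c).card : ℝ) +
        ∑ c' ∈ B₂.erase c,
          ((univ.filter (fun ω : G → Fin Q => ω c = 0 ∧ ω c' = 0)).card : ℝ) := by
      exact_mod_cast h5
    rw [card_zero_one] at h6
    have h7 : ∑ c' ∈ B₂.erase c,
        ((univ.filter (fun ω : G → Fin Q => ω c = 0 ∧ ω c' = 0)).card : ℝ)
        = (B₂.erase c).card * (M / Q ^ 2) := by
      rw [Finset.sum_congr rfl (fun c' hc' => card_zero_two Q c c' (ne_of_mem_erase hc').symm)]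
      simp [hM]
    rw [h7, ← hM] at h6
    have h8 : ((B₂.erase c).card : ℝ) ≤ Q / 2 := by
      have : ((B₂.erase c).card : ℝ) ≤ B₂.card := by exact_mod_cast card_erase_le
      have h9 : 2 * (B₂.card : ℝ) ≤ Q := by exact_mod_cast hQ
      linarith
    have h9 : (B₂.erase c).card * (M / Q ^ 2) ≤ Q / 2 * (M / Q ^ 2) :=
      mul_le_mul_of_nonneg_right h8 (by positivity)
    have h10 : Q / 2 * (M / Q ^ 2) = M / (2 * Q) := by field_simp
    have h11 : M / Q = 2 * (M / (2 * Q)) := by field_simp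
    linarith
  rw [h1, h2]
  push_cast
  have h4 := Finset.card_nsmul_le_sum B₁ (fun c => ((E c).card : ℝ)) _ h3
  rw [nsmul_eq_mul] at h4
  calc (B₁.card : ℝ) / (2 * Q) * M = B₁.card * (M / (2 * Q)) := by ring
    _ ≤ _ := h4

theorem nsq_tri {d : ℕ} (u v : Fin d → ℤ) (γ : ℝ) (hγ : 0 < γ) :
    (nsq (u + v) : ℝ) ≤ (1 + γ) * nsq u + (1 + 1 / γ) * nsq v := by
  unfold nsq
  push_cast
  rw [Finset.mul_sum, Finset.mul_sum, ← Finset.sum_add_distrib]
  apply Finset.sum_le_sum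
  intro i _
  simp only [Pi.add_apply, Int.cast_add]
  have h1 : 0 ≤ (γ * u i - v i) ^ 2 / γ := by positivity
  have h2 : (γ * u i - v i) ^ 2 / γ = γ * u i ^ 2 - 2 * u i * v i + 1 / γ * v i ^ 2 := by
    field_simp; ring
  nlinarith

theorem nsq_par {d : ℕ} (y y' z c : Fin d → ℤ) (h : ∀ i, 2 * z i = y i + y' i) :
    4 * nsq (z - c) + nsq (y - y') = 2 * nsq (y - c) + 2 * nsq (y' - c) := by
  unfold nsq
  rw [Finset.mul_sum, Finset.mul_sum, Finset.mul_sum, ← Finset.sum_add_distrib,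
    ← Finset.sum_add_distrib]
  apply Finset.sum_congr rfl
  intro i _
  simp only [Pi.sub_apply]
  have h1 : y' i = 2 * z i - y i := by linarith [h i]
  rw [h1]; ring

theorem nsq_sub_comm {d : ℕ} (y y' : Fin d → ℤ) : nsq (y - y') = nsq (y' - y) := by
  unfold nsq
  apply Finset.sum_congr rfl
  intro i _
  simp only [Pi.sub_apply]; ring

/-- One scale of the construction. -/
theorem level (d N : ℕ) (hd : 1 ≤ d) (hN : 1 ≤ N) (Y : ℕ → Fin d → ℤ) (R : ℕ) (b γ : ℝ)
    (hb : 0 < b) (hbR : b ≤ R) (hγ : 0 < γ) :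
    ∃ (κ : ℕ → ℕ) (S : Finset ℕ),
      (((Icc 1 N).image κ).card : ℝ)
        ≤ 8 * (Real.log N + 1) * Real.exp (7 * γ * d + 16 * (1 + 1 / γ) * b + 1) ∧
      (S.card : ℝ) ≤ 8 * Real.exp (-b) * N * (Real.log N + 1) ∧
      ∀ a ∈ Icc 1 N, ∀ a' ∈ Icc 1 N, κ a = κ a' →
        4 * (R : ℤ) ≤ nsq (Y (2 * a) - Y (2 * a')) → nsq (Y (2 * a) - Y (2 * a')) ≤ 16 * (R : ℤ) →
        (∀ i, 2 * Y (a + a') i = Y (2 * a) i + Y (2 * a') i) → a + a' ∈ S := by
  classical
  have hNpos : (0 : ℝ) < N := by exact_mod_cast hN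
  have hR : (0 : ℝ) < R := hb.trans_le hbR
  obtain ⟨σ, hσ0, hσ1, hσ2⟩ : ∃ σ : ℝ, 0 < σ ∧ σ ≤ 1 ∧ σ ^ 2 * R = b := by
    refine ⟨Real.sqrt (b / R), Real.sqrt_pos.mpr (by positivity), ?_, ?_⟩
    · rw [Real.sqrt_le_left (by norm_num), one_pow, div_le_one hR]; exact hbR
    · rw [Real.sq_sqrt (by positivity)]; field_simp
  have hσ3 : σ ^ 2 ≤ 1 := pow_le_one₀ hσ0.le hσ1
  obtain ⟨q, hq1, hq2⟩ := exists_radius d hd σ hσ0 hσ1
  obtain ⟨qp, hqp1, hqp2⟩ : ∃ qp : ℤ, (1 + γ) * q + (1 + 1 / γ) * (16 * R) ≤ qp ∧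
      (qp : ℝ) ≤ (1 + γ) * q + (1 + 1 / γ) * (16 * R) + 1 :=
    ⟨⌈(1 + γ) * q + (1 + 1 / γ) * (16 * R)⌉, Int.le_ceil _, (Int.ceil_lt_add_one _).le⟩
  have hqqp : (q : ℤ) ≤ qp := by
    have h1 : (0 : ℝ) ≤ γ * q := by positivity
    have h2 : (0 : ℝ) ≤ (1 + 1 / γ) * (16 * R) := by positivity
    have : ((q : ℤ) : ℝ) ≤ qp := by push_cast; linarith
    exact_mod_cast this
  obtain ⟨n, hn⟩ : ∃ n, n = (zball d q).card := ⟨_, rfl⟩
  obtain ⟨np, hnp⟩ : ∃ np, np = (zball d qp).card := ⟨_, rfl⟩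
  have hn1 : 1 ≤ n := by
    rw [hn]
    exact card_pos.mpr ⟨0, mem_zball.mpr (by simp [nsq])⟩
  have hnp1 : 1 ≤ np := by
    rw [hnp]
    exact card_pos.mpr ⟨0, mem_zball.mpr (by simp only [nsq, Pi.zero_apply]; simp; omega)⟩
  obtain ⟨E, hE⟩ : ∃ E : ℝ, E = 7 * γ * d + 16 * (1 + 1 / γ) * b + 1 := ⟨_, rfl⟩
  have hnpn : (np : ℝ) ≤ Real.exp E * n := by
    rw [hn, hnp]
    refine (hq2 qp).trans (mul_le_mul_of_nonneg_right (Real.exp_le_exp.mpr ?_) (Nat.cast_nonneg _))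
    have h1 : σ ^ 2 * ((qp : ℝ) - q) ≤ σ ^ 2 * (γ * q + (1 + 1 / γ) * (16 * R) + 1) :=
      mul_le_mul_of_nonneg_left (by linarith) (sq_nonneg _)
    have h2 : σ ^ 2 * (γ * q + (1 + 1 / γ) * (16 * R) + 1)
        = γ * (σ ^ 2 * q) + 16 * (1 + 1 / γ) * (σ ^ 2 * R) + σ ^ 2 := by ring
    have h3 : γ * (σ ^ 2 * q) ≤ γ * (7 * d) := mul_le_mul_of_nonneg_left hq1 hγ.le
    rw [h2, hσ2] at h1
    rw [hE]
    linarith
  have hinner : ((zball d ((q : ℤ) - R)).card : ℝ) ≤ Real.exp (-b) * n := by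
    have := hq2 ((q : ℤ) - R)
    rw [← hn] at this
    refine this.trans (le_of_eq ?_)
    congr 2
    push_cast
    rw [← hσ2]; ring
  let Gs : Finset (Fin d → ℤ) :=
    (Icc 1 N).biUnion (fun a => (zball d q).image (fun x => Y (2 * a) - x))
  obtain ⟨Q, hQ⟩ : ∃ Q : ℕ, Q = 2 * np := ⟨_, rfl⟩
  have : NeZero Q := ⟨by omega⟩
  have hQ0 : (0 : ℝ) < Q := by exact_mod_cast (by omega : 0 < Q)
  let B : (Fin d → ℤ) → ℤ → Finset Gs := fun y z => univ.filter (fun c => nsq (y - c.1) ≤ z)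
  have hBle : ∀ y z, (B y z).card ≤ (zball d z).card := by
    intro y z
    apply card_le_card_of_injOn (fun c => y - c.1)
    · intro c hc
      simp only [B, coe_filter, mem_univ, true_and, Set.mem_ofPred_eq] at hc
      exact mem_coe.mpr (mem_zball.mpr hc)
    · intro c _ c' _ h
      exact Subtype.ext (sub_right_injective h)
  have hBge : ∀ a ∈ Icc 1 N, n ≤ (B (Y (2 * a)) q).card := by
    intro a ha
    rw [hn, ← card_attach]
    apply card_le_card_of_injOn (fun x : {x // x ∈ zball d q} =>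
      (⟨Y (2 * a) - x.1, mem_biUnion.mpr ⟨a, ha, mem_image_of_mem _ x.2⟩⟩ : Gs))
    · intro x _
      simp only [B, coe_filter, mem_univ, true_and, Set.mem_ofPred_eq, sub_sub_cancel]
      exact mem_zball.mp x.2
    · intro x _ x' _ h
      exact Subtype.ext (sub_right_injective (congrArg Subtype.val h))
  let good : (Gs → Fin Q) → ℕ → Prop := fun ω a =>
    ∃ c ∈ B (Y (2 * a)) q, ω c = 0 ∧ ∀ c' ∈ B (Y (2 * a)) qp, ω c' = 0 → c' = c
  let Sω : (Gs → Fin Q) → Finset ℕ := fun ω =>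
    (Icc 1 (2 * N)).filter (fun s => ∃ c ∈ B (Y s) ((q : ℤ) - R), ω c = 0)
  let cost : (Gs → Fin Q) → ℝ := fun ω => Real.exp b / 8 * ((Sω ω).card : ℝ) / N
  have hcost : ∀ ω, 0 ≤ cost ω := fun ω =>
    div_nonneg (mul_nonneg (div_nonneg (Real.exp_pos b).le (by norm_num)) (Nat.cast_nonneg _))
      hNpos.le
  obtain ⟨M, hM⟩ : ∃ M : ℝ, M = Fintype.card (Gs → Fin Q) := ⟨_, rfl⟩
  have hM0 : 0 ≤ M := by rw [hM]; exact Nat.cast_nonneg _
  obtain ⟨π, hπ⟩ : ∃ π : ℝ, π = (n : ℝ) / (2 * Q) := ⟨_, rfl⟩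
  have hn0 : (0 : ℝ) < n := by exact_mod_cast hn1
  have hπ0 : 0 < π := by rw [hπ]; exact div_pos hn0 (by linarith)
  have hgood : ∀ a ∈ Icc 1 N, π * Fintype.card (Gs → Fin Q)
      ≤ ((univ.filter (fun ω => good ω a)).card : ℝ) := by
    intro a ha
    have h1 := card_isolated Q (B (Y (2 * a)) q) (B (Y (2 * a)) qp)
      (by
        intro c hc
        simp only [B, mem_filter, mem_univ, true_and] at hc ⊢
        exact hc.trans hqqp)
      (by have := hBle (Y (2 * a)) qp; omega)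
    refine le_trans (mul_le_mul_of_nonneg_right ?_ (Nat.cast_nonneg _)) h1
    rw [hπ]
    apply div_le_div_of_nonneg_right _ (by linarith)
    exact_mod_cast hBge a ha
  have hS : ∑ ω, ((Sω ω).card : ℝ) ≤ 2 * N * (Real.exp (-b) * n * (M / Q)) := by
    have e1 : ∑ ω, ((Sω ω).card : ℝ) = ∑ s ∈ Icc 1 (2 * N),
        ((univ.filter (fun ω : Gs → Fin Q => ∃ c ∈ B (Y s) ((q : ℤ) - R), ω c = 0)).card : ℝ) := by
      simp only [Sω, card_filter]
      push_cast
      exact Finset.sum_comm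
    rw [e1]
    have e2 : ∀ s ∈ Icc 1 (2 * N),
        ((univ.filter (fun ω : Gs → Fin Q => ∃ c ∈ B (Y s) ((q : ℤ) - R), ω c = 0)).card : ℝ)
          ≤ Real.exp (-b) * n * (M / Q) := by
      intro s _
      have e3 : univ.filter (fun ω : Gs → Fin Q => ∃ c ∈ B (Y s) ((q : ℤ) - R), ω c = 0)
          = (B (Y s) ((q : ℤ) - R)).biUnion
            (fun c => univ.filter (fun ω : Gs → Fin Q => ω c = 0)) := by
        ext ω; simp
      rw [e3]
      have e4 : (((B (Y s) ((q : ℤ) - R)).biUnion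
            (fun c => univ.filter (fun ω : Gs → Fin Q => ω c = 0))).card : ℝ)
          ≤ ∑ c ∈ B (Y s) ((q : ℤ) - R),
            ((univ.filter (fun ω : Gs → Fin Q => ω c = 0)).card : ℝ) := by
        exact_mod_cast card_biUnion_le
      refine e4.trans ?_
      rw [Finset.sum_congr rfl (fun c _ => card_zero_one Q c), sum_const, nsmul_eq_mul, ← hM]
      apply mul_le_mul_of_nonneg_right _ (div_nonneg hM0 hQ0.le)
      refine le_trans ?_ hinner
      exact_mod_cast hBle _ _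
    have := Finset.sum_le_card_nsmul _ _ _ e2
    simpa [nsmul_eq_mul] using this
  have hsum : ∑ ω, (cost ω + ((fun _ => 0 : (Gs → Fin Q) → ℕ) ω : ℝ))
      ≤ (π - π / 2) * Fintype.card (Gs → Fin Q) := by
    simp only [Nat.cast_zero, add_zero]
    have e1 : ∑ ω, cost ω = Real.exp b / 8 * (∑ ω, ((Sω ω).card : ℝ)) / N := by
      simp only [cost]
      rw [← Finset.sum_div, ← Finset.mul_sum]
    rw [e1, ← hM, div_le_iff₀ hNpos]
    calc Real.exp b / 8 * (∑ ω, ((Sω ω).card : ℝ))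
        ≤ Real.exp b / 8 * (2 * N * (Real.exp (-b) * n * (M / Q))) :=
          mul_le_mul_of_nonneg_left hS (div_nonneg (Real.exp_pos b).le (by norm_num))
      _ = _ := by
          rw [Real.exp_neg, hπ]; have := (Real.exp_pos b).ne'; field_simp; ring
  obtain ⟨l, -, hl2, hl3⟩ := greedy_cover (Icc 1 N) good cost hcost (fun _ => 0) π (π / 2)
    (by linarith) hgood hsum _ (Icc 1 N) rfl subset_rfl ⟨1, mem_Icc.mpr ⟨le_rfl, hN⟩⟩
  simp only [Nat.card_Icc, add_tsub_cancel_right] at hl3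
  rw [Finset.sum_add_distrib] at hl3
  simp only [sum_const, nsmul_eq_mul] at hl3
  have hsc : 0 ≤ ∑ ω ∈ l, cost ω := Finset.sum_nonneg (fun ω _ => hcost ω)
  have hlc : 0 ≤ (l.card : ℝ) * (π / 2) := mul_nonneg (Nat.cast_nonneg _) (by linarith)
  choose! f hf1 hf2 using hl2
  refine ⟨fun a => (Fintype.equivFin (Gs → Fin Q) (f a) : ℕ), l.biUnion Sω, ?_, ?_, ?_⟩
  · have e1 : (Icc 1 N).image (fun a => (Fintype.equivFin (Gs → Fin Q) (f a) : ℕ))
        ⊆ l.image (fun ω => (Fintype.equivFin (Gs → Fin Q) ω : ℕ)) := by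
      intro z hz
      obtain ⟨a, ha, rfl⟩ := mem_image.mp hz
      exact mem_image_of_mem _ (hf1 a ha)
    have e2 := (card_le_card e1).trans card_image_le
    have e3 : (((Icc 1 N).image (fun a => (Fintype.equivFin (Gs → Fin Q) (f a) : ℕ))).card : ℝ)
        ≤ (l.card : ℝ) := by exact_mod_cast e2
    refine e3.trans ?_
    rw [← hE]
    have e4 : (l.card : ℝ) * (π / 2) ≤ Real.log N + 1 := by linarith
    have e5 : 1 ≤ 4 * π * Real.exp E := by
      rw [hπ, hQ]
      push_cast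
      have hnp0 : (0 : ℝ) < np := by exact_mod_cast hnp1
      have : 4 * ((n : ℝ) / (2 * (2 * np))) * Real.exp E = Real.exp E * n / np := by
        field_simp; ring
      rw [this, le_div_iff₀ hnp0]
      linarith
    have e6 := Real.exp_pos E
    have e7 : (0 : ℝ) ≤ l.card := Nat.cast_nonneg _
    calc (l.card : ℝ) ≤ l.card * (4 * π * Real.exp E) := le_mul_of_one_le_right e7 e5
      _ = 8 * ((l.card : ℝ) * (π / 2)) * Real.exp E := by ring
      _ ≤ _ := by
          apply mul_le_mul_of_nonneg_right _ e6.le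
          linarith
  · have e1 : ((l.biUnion Sω).card : ℝ) ≤ ∑ ω ∈ l, ((Sω ω).card : ℝ) := by
      exact_mod_cast card_biUnion_le
    have e2 : ∑ ω ∈ l, cost ω = Real.exp b / 8 * (∑ ω ∈ l, ((Sω ω).card : ℝ)) / N := by
      simp only [cost]
      rw [← Finset.sum_div, ← Finset.mul_sum]
    have e3 : Real.exp b / 8 * (∑ ω ∈ l, ((Sω ω).card : ℝ)) / N ≤ Real.log N + 1 := by
      rw [← e2]; linarith
    rw [div_le_iff₀ hNpos] at e3
    refine e1.trans ?_
    have e4 := Real.exp_pos b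
    rw [Real.exp_neg]
    generalize (∑ ω ∈ l, ((Sω ω).card : ℝ)) = Z at e3 ⊢
    calc Z = 8 * (Real.exp b)⁻¹ * (Real.exp b / 8 * Z) := by field_simp
      _ ≤ 8 * (Real.exp b)⁻¹ * ((Real.log N + 1) * N) :=
          mul_le_mul_of_nonneg_left e3 (by positivity)
      _ = _ := by ring
  · intro a ha a' ha' hκ h4 h16 hmid
    have hff : f a = f a' := (Fintype.equivFin (Gs → Fin Q)).injective (Fin.ext hκ)
    obtain ⟨c, hc1, hc2, hc3⟩ := hf2 a ha
    obtain ⟨c', hc1', hc2', -⟩ := hf2 a' ha'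
    rw [← hff] at hc2'
    simp only [B, mem_filter, mem_univ, true_and] at hc1 hc1' hc3
    have hcc : c' = c := by
      apply hc3 c' _ hc2'
      have t1 := nsq_tri (Y (2 * a') - c'.1) (Y (2 * a) - Y (2 * a')) γ hγ
      have t2 : Y (2 * a') - c'.1 + (Y (2 * a) - Y (2 * a')) = Y (2 * a) - c'.1 := by abel
      rw [t2] at t1
      have t3 : (nsq (Y (2 * a') - c'.1) : ℝ) ≤ q := by exact_mod_cast hc1'
      have t4 : (nsq (Y (2 * a) - Y (2 * a')) : ℝ) ≤ 16 * R := by exact_mod_cast h16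
      have t5 : (1 + γ) * (nsq (Y (2 * a') - c'.1) : ℝ) ≤ (1 + γ) * q :=
        mul_le_mul_of_nonneg_left t3 (by linarith)
      have t6 : (1 + 1 / γ) * (nsq (Y (2 * a) - Y (2 * a')) : ℝ) ≤ (1 + 1 / γ) * (16 * R) :=
        mul_le_mul_of_nonneg_left t4 (by positivity)
      have t7 : (nsq (Y (2 * a) - c'.1) : ℝ) ≤ qp := by linarith
      exact_mod_cast t7
    rw [hcc] at hc1'
    obtain ⟨ha1, ha2⟩ := mem_Icc.mp ha
    obtain ⟨ha1', ha2'⟩ := mem_Icc.mp ha'
    refine mem_biUnion.mpr ⟨f a, hf1 a ha, ?_⟩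
    simp only [Sω, mem_filter, mem_Icc]
    refine ⟨⟨by omega, by omega⟩, c, ?_, hc2⟩
    simp only [B, mem_filter, mem_univ, true_and]
    have := nsq_par (Y (2 * a)) (Y (2 * a')) (Y (a + a')) c.1 hmid
    linarith

end Pool.Agent.Lib.MP_574c26_nt
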