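import Mathlib
import Pool.Agent.Lib.MP_574c26_nt.Level

namespace Pool.Agent.Lib.MP_574c26_nt

open Finset

theorem mod_half (M a a' : ℕ) (hM : 0 < M) (h : 2 * (a % M) < M ↔ 2 * (a' % M) < M) :
    2 * ((a + a') % M) = (2 * a) % M + (2 * a') % M ∧
      (((2 * a) % M : ℕ) : ℤ) - ((2 * a') % M : ℕ) = 2 * (((a % M : ℕ) : ℤ) - (a' % M : ℕ)) := by
  have h1 := Nat.mod_lt a hM
  have h2 := Nat.mod_lt a' hM
  rw [two_mul a, two_mul a', Nat.add_mod_eq_ite, Nat.add_mod_eq_ite, Nat.add_mod_eq_ite]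
  generalize a % M = x at *
  generalize a' % M = y at *
  split_ifs <;> omega

theorem mod_sep (M a' h : ℕ) (h1 : 1 ≤ h) (h2 : 2 * h ≤ M) :
    (h : ℤ) ≤ |(((a' + h) % M : ℕ) : ℤ) - (a' % M : ℕ)| := by
  have hM : 0 < M := by omega
  have h3 := Nat.mod_lt a' hM
  rw [Nat.add_mod_eq_ite, Nat.mod_eq_of_lt (by omega : h < M)]
  generalize a' % M = y at *
  rw [le_abs]
  split_ifs <;> omega

theorem exists_scale (A z : ℤ) (L : ℕ) (h1 : A ≤ z) (h2 : z ≤ A * 4 ^ (L + 1)) :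
    ∃ j < L + 1, A * 4 ^ j ≤ z ∧ z ≤ A * 4 ^ (j + 1) := by
  induction L with
  | zero => exact ⟨0, by omega, by simpa using h1, h2⟩
  | succ L ih =>
    by_cases h : z ≤ A * 4 ^ (L + 1)
    · obtain ⟨j, hj, hj'⟩ := ih h
      exact ⟨j, by omega, hj'⟩
    · exact ⟨L + 1, by omega, (not_le.mp h).le, h2⟩

/-- the embedding into the integer lattice -/
def emb (g m d : ℕ) (s : ℕ) (i : Fin d) : ℤ :=
  ((2 * g * m ^ (d - 1 - i) : ℕ) : ℤ) * ((s % m ^ ((i : ℕ) + 1) : ℕ) : ℤ)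

theorem emb_upper (g m d : ℕ) (hm : 1 ≤ m) (s s' : ℕ) :
    nsq (emb g m d s - emb g m d s') ≤ d * ((2 * g * m ^ d : ℕ) : ℤ) ^ 2 := by
  have hb : ∀ (t : ℕ) (i : Fin d), 0 ≤ emb g m d t i ∧ emb g m d t i ≤ ((2 * g * m ^ d : ℕ) : ℤ) := by
    intro t i
    unfold emb
    refine ⟨by positivity, ?_⟩
    have h1 : t % m ^ ((i : ℕ) + 1) ≤ m ^ ((i : ℕ) + 1) := (Nat.mod_lt _ (by positivity)).le
    have h2 : m ^ d = m ^ (d - 1 - i) * m ^ ((i : ℕ) + 1) := by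
      rw [← pow_add]; congr 1; have := i.2; omega
    have h3 : 2 * g * m ^ (d - 1 - i) * (t % m ^ ((i : ℕ) + 1)) ≤ 2 * g * m ^ d := by
      rw [h2, ← mul_assoc]
      exact Nat.mul_le_mul_left _ h1
    exact_mod_cast h3
  unfold nsq
  calc ∑ i, (emb g m d s - emb g m d s') i ^ 2 ≤ ∑ _i : Fin d, ((2 * g * m ^ d : ℕ) : ℤ) ^ 2 := by
        apply Finset.sum_le_sum
        intro i _
        have := hb s i
        have := hb s' i
        simp only [Pi.sub_apply]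
        apply sq_le_sq' <;> linarith
    _ = _ := by simp

theorem emb_lower (g m d : ℕ) (hd : 1 ≤ d) (hm : 1 ≤ m) (a' h : ℕ) (h1 : 1 ≤ h)
    (h2 : 2 * h ≤ m ^ d)
    (hh : ∀ i : Fin d, (2 * ((a' + h) % m ^ ((i : ℕ) + 1)) < m ^ ((i : ℕ) + 1)
      ↔ 2 * (a' % m ^ ((i : ℕ) + 1)) < m ^ ((i : ℕ) + 1))) :
    ((2 * g * m ^ (d - 1) : ℕ) : ℤ) ^ 2
      ≤ nsq (emb g m d (2 * (a' + h)) - emb g m d (2 * a')) := by
  have hex : ∃ i : ℕ, 2 * h ≤ m ^ ((i : ℕ) + 1) := ⟨d - 1, by rwa [Nat.sub_add_cancel hd]⟩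
  have hi1 := Nat.find_spec hex
  have hi2 : Nat.find hex ≤ d - 1 := Nat.find_min' hex (by rwa [Nat.sub_add_cancel hd])
  have hi3 : m ^ Nat.find hex ≤ 2 * h := by
    rcases hj : Nat.find hex with _ | j
    · simp; omega
    · have := Nat.find_min hex (m := j) (by omega)
      omega
  generalize Nat.find hex = i at *
  let i' : Fin d := ⟨i, by omega⟩
  have h3 : (emb g m d (2 * (a' + h)) - emb g m d (2 * a')) i' ^ 2
      ≤ nsq (emb g m d (2 * (a' + h)) - emb g m d (2 * a')) :=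
    Finset.single_le_sum (f := fun i => (emb g m d (2 * (a' + h)) - emb g m d (2 * a')) i ^ 2)
      (fun _ _ => sq_nonneg _) (mem_univ i')
  refine le_trans ?_ h3
  have h4 := (mod_half (m ^ ((i : ℕ) + 1)) (a' + h) a' (by positivity) (hh i')).2
  have h5 := mod_sep (m ^ ((i : ℕ) + 1)) a' h h1 hi1
  simp only [Pi.sub_apply, emb, i']
  rw [← mul_sub, h4, sq_le_sq, abs_mul, abs_mul]
  rw [abs_of_nonneg (by positivity), abs_of_nonneg (by positivity), abs_of_nonneg (by norm_num)]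
  have h6 : 2 * g * m ^ (d - 1) = 2 * g * m ^ (d - 1 - i) * m ^ i := by
    rw [mul_assoc (2 * g), ← pow_add]; congr 2; omega
  rw [h6, Nat.cast_mul]
  apply mul_le_mul_of_nonneg_left _ (by positivity)
  have h7 : ((m ^ i : ℕ) : ℤ) ≤ 2 * h := by exact_mod_cast hi3
  linarith

theorem multi (N d m L : ℕ) (hN : 1 ≤ N) (hd : 1 ≤ d) (hm : 1 ≤ m) (hmd : 2 * N ≤ m ^ d)
    (hL : d * m ^ 2 ≤ 4 ^ (L + 1)) (b γ : ℝ) (hb : 0 < b) (hγ : 0 < γ) :
    ∃ (c : ℕ → (Fin d → Bool) × (Fin (L + 1) → ℕ)) (S : Finset ℕ),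
      (((Icc 1 N).image c).card : ℝ) ≤ 2 ^ d *
        (8 * (Real.log N + 1) * Real.exp (7 * γ * d + 16 * (1 + 1 / γ) * b + 1)) ^ (L + 1) ∧
      (S.card : ℝ) ≤ (L + 1) * (8 * Real.exp (-b) * N * (Real.log N + 1)) ∧
      ∀ a ∈ Icc 1 N, ∀ a' ∈ Icc 1 N, a ≠ a' → c a = c a' → a + a' ∈ S := by
  classical
  obtain ⟨g, hg1, hg2⟩ : ∃ g : ℕ, 1 ≤ g ∧ b ≤ g :=
    ⟨⌈b⌉₊, Nat.one_le_iff_ne_zero.mpr (by simpa using hb), Nat.le_ceil _⟩
  have hR : ∀ j : ℕ, b ≤ (((g * m ^ (d - 1)) ^ 2 * 4 ^ j : ℕ) : ℝ) := by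
    intro j
    refine hg2.trans ?_
    have h1 : g ≤ g * m ^ (d - 1) := Nat.le_mul_of_pos_right _ (by positivity)
    have h2 : g * m ^ (d - 1) ≤ (g * m ^ (d - 1)) ^ 2 := Nat.le_self_pow (by norm_num) _
    have h3 : (g * m ^ (d - 1)) ^ 2 ≤ (g * m ^ (d - 1)) ^ 2 * 4 ^ j :=
      Nat.le_mul_of_pos_right _ (by positivity)
    exact_mod_cast h1.trans (h2.trans h3)
  choose κ S h1 h2 h3 using fun j : ℕ =>
    level d N hd hN (emb g m d) ((g * m ^ (d - 1)) ^ 2 * 4 ^ j) b γ hb (hR j) hγ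
  refine ⟨fun a => (fun i => decide (2 * (a % m ^ ((i : ℕ) + 1)) < m ^ ((i : ℕ) + 1)), fun j => κ j a),
    (range (L + 1)).biUnion S, ?_, ?_, ?_⟩
  · have e1 : (Icc 1 N).image (fun a => ((fun i : Fin d =>
        decide (2 * (a % m ^ ((i : ℕ) + 1)) < m ^ ((i : ℕ) + 1))), fun j : Fin (L + 1) => κ j a))
        ⊆ (univ : Finset (Fin d → Bool)) ×ˢ
          Fintype.piFinset (fun j : Fin (L + 1) => (Icc 1 N).image (κ j)) := by
      intro z hz
      obtain ⟨a, ha, rfl⟩ := mem_image.mp hz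
      exact mem_product.mpr ⟨mem_univ _,
        Fintype.mem_piFinset.mpr (fun j => mem_image_of_mem _ ha)⟩
    have e2 := card_le_card e1
    rw [card_product, Fintype.card_piFinset] at e2
    simp only [card_univ, Fintype.card_pi, Fintype.card_bool, prod_const, Fintype.card_fin] at e2
    have e3 : (((Icc 1 N).image (fun a => ((fun i : Fin d =>
        decide (2 * (a % m ^ ((i : ℕ) + 1)) < m ^ ((i : ℕ) + 1))), fun j : Fin (L + 1) => κ j a))).card : ℝ)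
        ≤ 2 ^ d * ∏ j : Fin (L + 1), (((Icc 1 N).image (κ j)).card : ℝ) := by exact_mod_cast e2
    refine e3.trans (mul_le_mul_of_nonneg_left ?_ (by positivity))
    calc ∏ j : Fin (L + 1), (((Icc 1 N).image (κ j)).card : ℝ)
        ≤ ∏ _j : Fin (L + 1),
          (8 * (Real.log N + 1) * Real.exp (7 * γ * d + 16 * (1 + 1 / γ) * b + 1)) :=
          Finset.prod_le_prod (fun _ _ => Nat.cast_nonneg _) (fun j _ => h1 j)
      _ = _ := by simp
  · have e1 : (((range (L + 1)).biUnion S).card : ℝ) ≤ ∑ j ∈ range (L + 1), ((S j).card : ℝ) := by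
      exact_mod_cast card_biUnion_le
    refine e1.trans ?_
    have := Finset.sum_le_card_nsmul (range (L + 1)) _ _ (fun j _ => h2 j)
    simpa [nsmul_eq_mul] using this
  · have key : ∀ a ∈ Icc 1 N, ∀ a' ∈ Icc 1 N, a' < a →
        ((fun i : Fin d => decide (2 * (a % m ^ ((i : ℕ) + 1)) < m ^ ((i : ℕ) + 1))),
          fun j : Fin (L + 1) => κ j a)
        = ((fun i : Fin d => decide (2 * (a' % m ^ ((i : ℕ) + 1)) < m ^ ((i : ℕ) + 1))),
          fun j : Fin (L + 1) => κ j a') →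
        a + a' ∈ (range (L + 1)).biUnion S := by
      intro a ha a' ha' hlt hc
      have hc1 := congrArg Prod.fst hc
      have hc2 := congrArg Prod.snd hc
      simp only at hc1 hc2
      have hh : ∀ i : Fin d, (2 * (a % m ^ ((i : ℕ) + 1)) < m ^ ((i : ℕ) + 1)
          ↔ 2 * (a' % m ^ ((i : ℕ) + 1)) < m ^ ((i : ℕ) + 1)) := by
        intro i
        simpa using congrFun hc1 i
      obtain ⟨ha1, ha2⟩ := mem_Icc.mp ha
      obtain ⟨ha1', ha2'⟩ := mem_Icc.mp ha'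
      obtain ⟨h, rfl⟩ : ∃ h, a = a' + h := ⟨a - a', by omega⟩
      have t1 := emb_lower g m d hd hm a' h (by omega) (by omega) hh
      have t2 := emb_upper g m d hm (2 * (a' + h)) (2 * a')
      have t3 : (d : ℤ) * ((2 * g * m ^ d : ℕ) : ℤ) ^ 2
          ≤ ((2 * g * m ^ (d - 1) : ℕ) : ℤ) ^ 2 * 4 ^ (L + 1) := by
        have t4 : m ^ d = m ^ (d - 1) * m := by rw [← pow_succ, Nat.sub_add_cancel hd]
        have t5 : d * (2 * g * m ^ d) ^ 2 ≤ (2 * g * m ^ (d - 1)) ^ 2 * 4 ^ (L + 1) := by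
          calc d * (2 * g * m ^ d) ^ 2 = (2 * g * m ^ (d - 1)) ^ 2 * (d * m ^ 2) := by
                rw [t4]; ring
            _ ≤ _ := Nat.mul_le_mul_left _ hL
        exact_mod_cast t5
      obtain ⟨j, hj, hj1, hj2⟩ := exists_scale _ _ L t1 (t2.trans t3)
      refine mem_biUnion.mpr ⟨j, mem_range.mpr hj, ?_⟩
      apply h3 j _ ha _ ha' (congrFun hc2 ⟨j, hj⟩)
      · refine le_trans (le_of_eq ?_) hj1
        push_cast; ring
      · refine hj2.trans (le_of_eq ?_)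
        push_cast; ring
      · intro i
        have t6 := (mod_half (m ^ ((i : ℕ) + 1)) (a' + h) a' (by positivity) (hh i)).1
        have t7 : 2 * (((a' + h + a') % m ^ ((i : ℕ) + 1) : ℕ) : ℤ)
            = ((2 * (a' + h)) % m ^ ((i : ℕ) + 1) : ℕ) + ((2 * a') % m ^ ((i : ℕ) + 1) : ℕ) := by
          exact_mod_cast t6
        unfold emb
        rw [← mul_add, ← t7]; ring
    intro a ha a' ha' hne hc
    rcases lt_or_gt_of_ne hne with hlt | hlt
    · rw [add_comm a a']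
      exact key a' ha' a ha hlt hc.symm
    · exact key a ha a' ha' hlt hc

end Pool.Agent.Lib.MP_574c26_nt
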