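import Mathlib
import Pool.Agent.Lib.MP_574c26_nt.Multi

namespace Pool.Agent.Lib.MP_574c26_nt

open Finset Filter

theorem colouring_eventually_two_thirds (ε : ℝ) (hε : 0 < ε) :
    ∀ᶠ N : ℕ in atTop, ∃ (d L : ℕ) (c : ℕ → (Fin d → Bool) × (Fin L → ℕ)) (S : Finset ℕ),
      (((Icc 1 N).image c).card : ℝ) ≤
        Real.exp (1000 * Real.log N ^ (2 / 3 : ℝ) * Real.log (Real.log N) ^ (1 / 3 : ℝ)) ∧
      (S.card : ℝ) < ε * N ∧
      ∀ a ∈ Icc 1 N, ∀ a' ∈ Icc 1 N, a ≠ a' → c a = c a' → a + a' ∈ S := by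
  have hl2 : 1 / 2 ≤ Real.log 2 := by have := Real.log_two_gt_d9; linarith
  have hl2' : Real.log 2 ≤ 1 := by have := Real.log_two_lt_d9; linarith
  have hev : ∀ᶠ l : ℝ in atTop, l ^ 4 ≤ Real.exp l ∧ 1 ≤ l := by
    refine Eventually.and ?_ (eventually_ge_atTop _)
    have h1 := (Real.tendsto_pow_mul_exp_neg_atTop_nhds_zero 4).eventually (gt_mem_nhds one_pos)
    filter_upwards [h1] with l hl
    rw [Real.exp_neg, ← div_eq_mul_inv, div_lt_one (Real.exp_pos _)] at hl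
    exact hl.le
  have hlog : Tendsto (fun N : ℕ => Real.log N) atTop atTop :=
    Real.tendsto_log_atTop.comp tendsto_natCast_atTop_atTop
  have hloglog : Tendsto (fun N : ℕ => Real.log (Real.log N)) atTop atTop :=
    Real.tendsto_log_atTop.comp hlog
  filter_upwards [hloglog.eventually hev, hlog.eventually (eventually_gt_atTop (128 / ε)),
    eventually_ge_atTop 1] with N hN hLε hN1
  obtain ⟨e1, e2⟩ := hN
  have hL0 : 0 < Real.log N := lt_trans (by positivity) hLε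
  have hNpos : (0 : ℝ) < N := by exact_mod_cast hN1
  have hNexp : (N : ℝ) = Real.exp (Real.log N) := (Real.exp_log hNpos).symm
  have hLexp : Real.exp (Real.log (Real.log N)) = Real.log N := Real.exp_log hL0
  obtain ⟨u, hu0, hu3, hu2⟩ : ∃ u : ℝ, 0 < u ∧ u ^ 3 = Real.log N ∧
      Real.log N ^ (2 / 3 : ℝ) = u ^ 2 := by
    refine ⟨Real.log N ^ (1 / 3 : ℝ), Real.rpow_pos_of_pos hL0 _, ?_, ?_⟩
    · rw [← Real.rpow_natCast, ← Real.rpow_mul hL0.le]; norm_num
    · rw [← Real.rpow_natCast, ← Real.rpow_mul hL0.le]; norm_num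
  obtain ⟨v, hv0, hv3, hv1⟩ : ∃ v : ℝ, 0 < v ∧ v ^ 3 = Real.log (Real.log N) ∧
      Real.log (Real.log N) ^ (1 / 3 : ℝ) = v := by
    refine ⟨_, Real.rpow_pos_of_pos (by linarith) _, ?_, rfl⟩
    rw [← Real.rpow_natCast, ← Real.rpow_mul (by linarith)]; norm_num
  rw [hu2, hv1]
  rw [hLexp, ← hv3, ← hu3] at e1
  rw [← hv3] at e2
  rw [← hv3, ← hu3] at hLexp
  have hv1' : 1 ≤ v := by
    by_contra h; push Not at h
    have := pow_lt_one₀ hv0.le h (n := 3) (by norm_num)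
    linarith
  have huv : v ^ 4 ≤ u := by
    have : (v ^ 4) ^ 3 ≤ u ^ 3 := by
      calc (v ^ 4) ^ 3 = (v ^ 3) ^ 4 := by ring
        _ ≤ _ := e1
    exact le_of_pow_le_pow_left₀ (by norm_num) hu0.le this
  have hvv : v ≤ v ^ 4 := le_self_pow₀ hv1' (by norm_num)
  have hvu : v ≤ u := hvv.trans huv
  have hu1 : 1 ≤ u := hv1'.trans hvu
  have hu2' : 1 ≤ u ^ 2 := one_le_pow₀ hu1
  have hu3' : 1 ≤ u ^ 3 := one_le_pow₀ hu1
  have hX : 1 ≤ u ^ 2 * v := one_le_mul_of_one_le_of_one_le hu2' hv1'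
  obtain ⟨d, hd1, hd2⟩ : ∃ d : ℕ, u ^ 2 * v ≤ d ∧ (d : ℝ) ≤ 2 * (u ^ 2 * v) := by
    refine ⟨⌈u ^ 2 * v⌉₊, Nat.le_ceil _, ?_⟩
    have := Nat.ceil_lt_add_one (a := u ^ 2 * v) (by positivity)
    linarith
  have hd0 : (1 : ℝ) ≤ d := hX.trans hd1
  have hd : 1 ≤ d := by exact_mod_cast hd0
  obtain ⟨e, he1, he2⟩ : ∃ e : ℕ, 4 * (u / v) ≤ e ∧ (e : ℝ) ≤ 5 * (u / v) := by
    refine ⟨⌈4 * (u / v)⌉₊, Nat.le_ceil _, ?_⟩
    have := Nat.ceil_lt_add_one (a := 4 * (u / v)) (by positivity)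
    have : 1 ≤ u / v := by rw [le_div_iff₀ hv0]; linarith
    linarith
  obtain ⟨f, hf1, hf2⟩ : ∃ f : ℕ, v ^ 3 ≤ f ∧ (f : ℝ) + 1 ≤ 3 * (u / v) := by
    refine ⟨⌈v ^ 3⌉₊, Nat.le_ceil _, ?_⟩
    have := Nat.ceil_lt_add_one (a := v ^ 3) (by positivity)
    have : v ^ 3 ≤ u / v := by
      rw [le_div_iff₀ hv0]
      calc v ^ 3 * v = v ^ 4 := by ring
        _ ≤ u := huv
    linarith
  have hmd : 2 * N ≤ (2 ^ e) ^ d := by
    have h1 : (2 * N : ℝ) ≤ (2 ^ e) ^ d := by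
      have h2 : ((2 : ℝ) ^ e) ^ d = Real.exp (d * (e * Real.log 2)) := by
        rw [Real.exp_nat_mul, Real.exp_nat_mul, Real.exp_log (by norm_num)]
      have h3 : (2 * N : ℝ) = Real.exp (Real.log 2 + u ^ 3) := by
        rw [Real.exp_add, Real.exp_log (by norm_num), hu3, ← hNexp]
      rw [h2, h3]
      apply Real.exp_le_exp.mpr
      have h4 : 2 * (u / v) ≤ e * Real.log 2 := by
        have : (e : ℝ) * (1 / 2) ≤ e * Real.log 2 :=
          mul_le_mul_of_nonneg_left hl2 (Nat.cast_nonneg _)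
        linarith
      have h5 : u ^ 2 * v * (2 * (u / v)) ≤ d * (e * Real.log 2) :=
        mul_le_mul hd1 h4 (by positivity) (Nat.cast_nonneg _)
      have h6 : u ^ 2 * v * (2 * (u / v)) = 2 * u ^ 3 := by field_simp
      linarith
    exact_mod_cast h1
  have hL : d * (2 ^ e) ^ 2 ≤ 4 ^ (e + f + 1) := by
    have h1 : (d : ℝ) ≤ 4 ^ (f + 1) := by
      have h2 : Real.exp f ≤ 4 ^ f := by
        have : Real.exp f = Real.exp 1 ^ f := by rw [← Real.exp_nat_mul]; simp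
        rw [this]
        apply pow_le_pow_left₀ (Real.exp_pos _).le
        have := Real.exp_one_lt_d9
        linarith
      have h3 : u ^ 3 ≤ Real.exp f := by rw [← hLexp]; exact Real.exp_le_exp.mpr hf1
      have h4 : u ^ 2 * v ≤ u ^ 3 := by
        calc u ^ 2 * v ≤ u ^ 2 * u := mul_le_mul_of_nonneg_left hvu (by positivity)
          _ = u ^ 3 := by ring
      rw [pow_succ]
      linarith
    have h2 : d ≤ 4 ^ (f + 1) := by exact_mod_cast h1
    calc d * (2 ^ e) ^ 2 ≤ 4 ^ (f + 1) * (2 ^ e) ^ 2 := Nat.mul_le_mul_right _ h2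
      _ = 4 ^ (e + f + 1) := by
          rw [← pow_mul, mul_comm e 2, pow_mul]; ring
  obtain ⟨c, S, h1, h2, h3⟩ := multi N d (2 ^ e) (e + f) hN1 hd (Nat.one_le_two_pow) hmd hL
    (3 * v ^ 3) (v / u) (by positivity) (by positivity)
  rw [← hu3] at h1 h2 hLε
  have hLL : ((e + f : ℕ) : ℝ) + 1 ≤ 8 * (u / v) := by push_cast; linarith
  refine ⟨d, e + f + 1, c, S, h1.trans ?_, h2.trans_lt ?_, h3⟩
  · have f1 : 8 * (u ^ 3 + 1) ≤ Real.exp (3 + v ^ 3) := by
      rw [Real.exp_add, hLexp]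
      have f2 : (16 : ℝ) ≤ Real.exp 3 := by
        have := Real.exp_one_gt_d9
        have f3 : Real.exp 3 = Real.exp 1 ^ 3 := by rw [← Real.exp_nat_mul]; norm_num
        rw [f3]
        calc (16 : ℝ) ≤ 2.7 ^ 3 := by norm_num
          _ ≤ _ := pow_le_pow_left₀ (by norm_num) (by linarith) 3
      have := mul_le_mul_of_nonneg_right f2 (by positivity : 0 ≤ u ^ 3)
      linarith
    have f2 : (2 : ℝ) ^ d ≤ Real.exp (2 * (u ^ 2 * v)) := by
      have : (2 : ℝ) ^ d = Real.exp (d * Real.log 2) := by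
        rw [Real.exp_nat_mul, Real.exp_log (by norm_num)]
      rw [this]
      apply Real.exp_le_exp.mpr
      have := mul_le_mul_of_nonneg_left hl2' (by positivity : (0 : ℝ) ≤ d)
      linarith
    have f3 : v ^ 3 ≤ u * v ^ 2 := by
      calc v ^ 3 = v * v ^ 2 := by ring
        _ ≤ _ := mul_le_mul_of_nonneg_right hvu (by positivity)
    have f4 : 7 * (v / u) * d ≤ 14 * (u * v ^ 2) := by
      calc 7 * (v / u) * d ≤ 7 * (v / u) * (2 * (u ^ 2 * v)) :=
            mul_le_mul_of_nonneg_left hd2 (by positivity)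
        _ = _ := by field_simp; ring
    have f5 : 16 * (1 + 1 / (v / u)) * (3 * v ^ 3) = 48 * v ^ 3 + 48 * (u * v ^ 2) := by
      field_simp; ring
    have f6 : 8 * (u ^ 3 + 1) * Real.exp (7 * (v / u) * d + 16 * (1 + 1 / (v / u)) * (3 * v ^ 3) + 1)
        ≤ Real.exp (115 * (u * v ^ 2)) := by
      calc _ ≤ Real.exp (3 + v ^ 3) *
            Real.exp (7 * (v / u) * d + 16 * (1 + 1 / (v / u)) * (3 * v ^ 3) + 1) :=
            mul_le_mul_of_nonneg_right f1 (Real.exp_pos _).le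
        _ ≤ _ := by
            rw [← Real.exp_add]
            apply Real.exp_le_exp.mpr
            rw [f5]
            linarith
    have f7 := pow_le_pow_left₀ (by positivity) f6 (e + f + 1)
    rw [← Real.exp_nat_mul] at f7
    calc _ ≤ Real.exp (2 * (u ^ 2 * v)) * Real.exp (((e + f + 1 : ℕ) : ℝ) * (115 * (u * v ^ 2))) :=
          mul_le_mul f2 f7 (by positivity) (Real.exp_pos _).le
      _ ≤ _ := by
          rw [← Real.exp_add]
          apply Real.exp_le_exp.mpr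
          have f8 : ((e + f + 1 : ℕ) : ℝ) * (115 * (u * v ^ 2))
              ≤ 8 * (u / v) * (115 * (u * v ^ 2)) := by
            apply mul_le_mul_of_nonneg_right _ (by positivity)
            rw [Nat.cast_add, Nat.cast_one]; exact hLL
          have f9 : 8 * (u / v) * (115 * (u * v ^ 2)) = 920 * (u ^ 2 * v) := by field_simp; ring
          have f10 : 1000 * u ^ 2 * v = 1000 * (u ^ 2 * v) := by ring
          linarith
  · have f1 : Real.exp (-(3 * v ^ 3)) = ((u ^ 3) ^ 3)⁻¹ := by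
      rw [Real.exp_neg, ← hLexp, ← Real.exp_nat_mul]; norm_num
    rw [f1]
    have f2 : ((e + f : ℕ) : ℝ) + 1 ≤ 8 * u ^ 3 := by
      have f3 : u / v ≤ u := div_le_self hu0.le hv1'
      have f4 : u ≤ u ^ 3 := le_self_pow₀ hu1 (by norm_num)
      linarith
    generalize u ^ 3 = w at *
    have hw0 : 0 < w := by linarith
    calc (((e + f : ℕ) : ℝ) + 1) * (8 * (w ^ 3)⁻¹ * N * (w + 1))
        ≤ (8 * w) * (8 * (w ^ 3)⁻¹ * N * (2 * w)) := by gcongr; linarith
      _ = (128 / w) * N := by field_simp; ring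
      _ < ε * N := by
          apply mul_lt_mul_of_pos_right _ hNpos
          rw [div_lt_iff₀ hw0]
          rw [div_lt_iff₀ hε] at hLε
          linarith

end Pool.Agent.Lib.MP_574c26_nt
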