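import Mathlib

/-!
Abstract Bohr systems: subadditive symmetric gauges on a finite abelian group with a covering
dimension, balls, regular radii.
-/

set_option autoImplicit false
set_option linter.unusedSectionVars false
set_option linter.unusedVariables false

open Finset

namespace Pool.Agent.Lib.MP_574c26_nt.KM

variable {G : Type} [AddCommGroup G]

/-- A symmetric subadditive gauge. -/
structure Sem (G : Type) [AddCommGroup G] where
  f : G → ℝ
  zero : f 0 = 0
  neg : ∀ x, f (-x) = f x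
  add : ∀ x y, f (x + y) ≤ f x + f y

lemma Sem.nonneg (ν : Sem G) (x : G) : 0 ≤ ν.f x := by
  have h := ν.add x (-x)
  rw [add_neg_cancel, ν.zero, ν.neg] at h
  linarith

lemma Sem.sub (ν : Sem G) (x y : G) : ν.f (x - y) ≤ ν.f x + ν.f y := by
  rw [sub_eq_add_neg, ← ν.neg y]; exact ν.add _ _

/-- Covering dimension. -/
def Dim (ν : Sem G) (d : ℕ) : Prop :=
  ∀ (X : Finset G) (R r : ℝ), 0 < r → r ≤ R → (∀ x ∈ X, ∀ y ∈ X, ν.f (x - y) ≤ R) →
    ∃ Y ⊆ X, (X.card : ℝ) ≤ (6 * R / r) ^ d * Y.card ∧ ∀ x ∈ Y, ∀ y ∈ Y, ν.f (x - y) ≤ r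

lemma one_le_ratio {R r : ℝ} (hr : 0 < r) (h : r ≤ R) : 1 ≤ 6 * R / r := by
  rw [le_div_iff₀ hr]; linarith

lemma Dim.mono {ν : Sem G} {d e : ℕ} (h : Dim ν d) (hde : d ≤ e) : Dim ν e := by
  intro X R r hr hR hX
  obtain ⟨Y, h1, h2, h3⟩ := h X R r hr hR hX
  refine ⟨Y, h1, h2.trans ?_, h3⟩
  exact mul_le_mul_of_nonneg_right (pow_le_pow_right₀ (one_le_ratio hr hR) hde) (by positivity)

def Sem.triv : Sem G := ⟨fun _ => 0, rfl, fun _ => rfl, fun _ _ => by simp⟩

lemma dim_triv : Dim (Sem.triv : Sem G) 0 := by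
  intro X R r hr _ _
  exact ⟨X, Subset.refl _, by simp, fun _ _ _ _ => hr.le⟩

def Sem.sup (ν μ : Sem G) : Sem G where
  f x := max (ν.f x) (μ.f x)
  zero := by simp [ν.zero, μ.zero]
  neg x := by simp [ν.neg, μ.neg]
  add x y := by
    apply max_le
    · exact (ν.add x y).trans (add_le_add (le_max_left _ _) (le_max_left _ _))
    · exact (μ.add x y).trans (add_le_add (le_max_right _ _) (le_max_right _ _))

lemma Dim.sup {ν μ : Sem G} {d e : ℕ} (h : Dim ν d) (h' : Dim μ e) : Dim (ν.sup μ) (d + e) := by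
  intro X R r hr hR hX
  obtain ⟨Y, h1, h2, h3⟩ := h X R r hr hR (fun x hx y hy => (le_max_left _ _).trans (hX x hx y hy))
  obtain ⟨Z, k1, k2, k3⟩ := h' Y R r hr hR
    (fun x hx y hy => (le_max_right _ _).trans (hX x (h1 hx) y (h1 hy)))
  refine ⟨Z, k1.trans h1, h2.trans ?_, fun x hx y hy => max_le (h3 x (k1 hx) y (k1 hy)) (k3 x hx y hy)⟩
  rw [pow_add, mul_assoc]
  have := one_le_ratio hr hR
  exact mul_le_mul_of_nonneg_left k2 (by positivity)

def Sem.smul (w : ℝ) (hw : 0 ≤ w) (ν : Sem G) : Sem G where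
  f x := w * ν.f x
  zero := by simp [ν.zero]
  neg x := by simp [ν.neg]
  add x y := by rw [← mul_add]; exact mul_le_mul_of_nonneg_left (ν.add x y) hw

lemma Dim.smul {ν : Sem G} {d : ℕ} (h : Dim ν d) {w : ℝ} (hw : 0 < w) :
    Dim (ν.smul w hw.le) d := by
  intro X R r hr hR hX
  obtain ⟨Y, h1, h2, h3⟩ := h X (R / w) (r / w) (by positivity) (by gcongr) (fun x hx y hy => by
    rw [le_div_iff₀ hw, mul_comm]; exact hX x hx y hy)
  refine ⟨Y, h1, ?_, fun x hx y hy => ?_⟩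
  · have : 6 * (R / w) / (r / w) = 6 * R / r := by field_simp
    rwa [this] at h2
  · have := h3 x hx y hy
    rw [le_div_iff₀ hw, mul_comm] at this
    exact this

def Sem.comp (ν : Sem G) (e : G ≃+ G) : Sem G where
  f x := ν.f (e x)
  zero := by simp [ν.zero]
  neg x := by simp [ν.neg]
  add x y := by rw [map_add]; exact ν.add _ _

lemma Dim.comp [DecidableEq G] {ν : Sem G} {d : ℕ} (h : Dim ν d) (e : G ≃+ G) :
    Dim (ν.comp e) d := by
  intro X R r hr hR hX
  obtain ⟨Y, h1, h2, h3⟩ := h (X.image e) R r hr hR (fun x hx y hy => by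
    obtain ⟨a, ha, rfl⟩ := mem_image.mp hx
    obtain ⟨b, hb, rfl⟩ := mem_image.mp hy
    rw [← map_sub]; exact hX a ha b hb)
  refine ⟨Y.image e.symm, ?_, ?_, ?_⟩
  · intro x hx
    obtain ⟨y, hy, rfl⟩ := mem_image.mp hx
    obtain ⟨a, ha, rfl⟩ := mem_image.mp (h1 hy)
    simpa using ha
  · rw [card_image_of_injective _ e.injective] at h2
    rwa [card_image_of_injective _ e.symm.injective]
  · intro x hx y hy
    obtain ⟨a, ha, rfl⟩ := mem_image.mp hx
    obtain ⟨b, hb, rfl⟩ := mem_image.mp hy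
    simpa [Sem.comp] using h3 a ha b hb

lemma grid {ι : Type} (g : ι → ℝ) (X : Finset ι) {R r : ℝ} (hr : 0 < r) (hR : r ≤ R)
    (hX : ∀ x ∈ X, ∀ y ∈ X, |g x - g y| ≤ R) :
    ∃ Y ⊆ X, (X.card : ℝ) ≤ 3 * R / r * Y.card ∧ ∀ x ∈ Y, ∀ y ∈ Y, |g x - g y| ≤ r := by
  classical
  rcases X.eq_empty_or_nonempty with rfl | ⟨x0, hx0⟩
  · exact ⟨∅, Subset.refl _, by simp, by simp⟩
  let c : ι → ℕ := fun x => ⌊(g x - g x0 + R) / r⌋₊
  let n : ℕ := ⌊2 * R / r⌋₊ + 1
  have hc : ∀ x ∈ X, c x ∈ range n := by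
    intro x hx
    rw [mem_range, Nat.lt_add_one_iff]
    apply Nat.floor_le_floor
    have := abs_le.mp (hX x hx x0 hx0)
    gcongr; linarith
  have hn : (n : ℝ) ≤ 3 * R / r := by
    have h1 : (⌊2 * R / r⌋₊ : ℝ) ≤ 2 * R / r := Nat.floor_le (by have := hr.trans_le hR; positivity)
    have h2 : 1 ≤ R / r := by rw [le_div_iff₀ hr]; linarith
    have h3 : 3 * R / r = 2 * R / r + R / r := by ring
    simp only [n]; push_cast; linarith
  have hn0 : (0 : ℝ) < n := by simp only [n]; positivity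
  obtain ⟨j, -, hj⟩ := Finset.exists_le_card_fiber_of_nsmul_le_card_of_maps_to (M := ℝ)
    (b := (X.card : ℝ) / n) hc ⟨0, by simp [n]⟩ (by
      rw [card_range, nsmul_eq_mul, mul_div_cancel₀ _ hn0.ne'])
  refine ⟨X.filter (fun x => c x = j), filter_subset _ _, ?_, ?_⟩
  · rw [div_le_iff₀ hn0, mul_comm] at hj
    exact hj.trans (mul_le_mul_of_nonneg_right hn (by positivity))
  · intro x hx y hy
    obtain ⟨hx1, hx2⟩ := mem_filter.mp hx
    obtain ⟨hy1, hy2⟩ := mem_filter.mp hy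
    have a1 : 0 ≤ (g x - g x0 + R) / r := by
      have := abs_le.mp (hX x hx1 x0 hx0); apply div_nonneg _ hr.le; linarith
    have a2 : 0 ≤ (g y - g x0 + R) / r := by
      have := abs_le.mp (hX y hy1 x0 hx0); apply div_nonneg _ hr.le; linarith
    have b1 := (Nat.floor_eq_iff a1).mp hx2
    have b2 := (Nat.floor_eq_iff a2).mp hy2
    rw [le_div_iff₀ hr, div_lt_iff₀ hr] at b1 b2
    rw [abs_le]; constructor <;> nlinarith [b1.1, b1.2, b2.1, b2.2]

section
variable [Finite G]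

lemma chord_sub (χ : AddChar G ℂ) (x y : G) : ‖χ (x - y) - 1‖ = ‖χ x - χ y‖ := by
  have h : χ x = χ (x - y) * χ y := by rw [← AddChar.map_add_eq_mul]; simp
  calc ‖χ (x - y) - 1‖ = ‖χ (x - y) - 1‖ * ‖χ y‖ := by rw [AddChar.norm_apply, mul_one]
    _ = _ := by rw [← norm_mul, h]; congr 1; ring

/-- The chordal gauge of a character. -/
noncomputable def Sem.chord (χ : AddChar G ℂ) : Sem G where
  f x := ‖χ x - 1‖
  zero := by simp
  neg x := by
    have := chord_sub χ 0 x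
    rw [zero_sub] at this
    rw [this, AddChar.map_zero_eq_one, norm_sub_rev]
  add x y := by
    have h : χ (x + y) - 1 = (χ x - 1) * χ y + (χ y - 1) := by rw [AddChar.map_add_eq_mul]; ring
    rw [h]
    refine (norm_add_le _ _).trans ?_
    rw [norm_mul, AddChar.norm_apply, mul_one]

lemma chord_le (χ : AddChar G ℂ) (x : G) : (Sem.chord χ).f x ≤ 2 := by
  refine (norm_sub_le _ _).trans ?_
  rw [AddChar.norm_apply, norm_one]; norm_num

lemma dim_chord (χ : AddChar G ℂ) : Dim (Sem.chord χ) 2 := by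
  intro X R r hr hR hX
  have hX' : ∀ x ∈ X, ∀ y ∈ X, ‖χ x - χ y‖ ≤ R := fun x hx y hy => by
    rw [← chord_sub]; exact hX x hx y hy
  obtain ⟨Y, h1, h2, h3⟩ := grid (fun x => (χ x).re) X (R := R) (r := r / 2) (by positivity)
    (by linarith) (fun x hx y hy => by
      rw [← Complex.sub_re]; exact (Complex.abs_re_le_norm _).trans (hX' x hx y hy))
  obtain ⟨Z, k1, k2, k3⟩ := grid (fun x => (χ x).im) Y (R := R) (r := r / 2) (by positivity)
    (by linarith) (fun x hx y hy => by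
      rw [← Complex.sub_im]; exact (Complex.abs_im_le_norm _).trans (hX' x (h1 hx) y (h1 hy)))
  have e : 3 * R / (r / 2) = 6 * R / r := by field_simp; ring
  rw [e] at h2 k2
  have := one_le_ratio hr hR
  refine ⟨Z, k1.trans h1, h2.trans ?_, fun x hx y hy => ?_⟩
  · rw [sq, mul_assoc]; exact mul_le_mul_of_nonneg_left k2 (by positivity)
  · show ‖χ (x - y) - 1‖ ≤ r
    rw [chord_sub]
    refine (Complex.norm_le_abs_re_add_abs_im _).trans ?_
    have a := h3 x (k1 hx) y (k1 hy)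
    have b := k3 x hx y hy
    simp only [Complex.sub_re, Complex.sub_im]
    linarith
end

variable [Fintype G] [DecidableEq G]

/-- Closed ball of a gauge. -/
noncomputable def ball (ν : Sem G) (r : ℝ) : Finset G := univ.filter (fun x => ν.f x ≤ r)

omit [DecidableEq G] in
@[simp] lemma mem_ball {ν : Sem G} {r : ℝ} {x : G} : x ∈ ball ν r ↔ ν.f x ≤ r := by simp [ball]

omit [DecidableEq G] in
lemma ball_mono (ν : Sem G) {r s : ℝ} (h : r ≤ s) : ball ν r ⊆ ball ν s :=
  fun _ hx => mem_ball.mpr ((mem_ball.mp hx).trans h)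

omit [DecidableEq G] in
lemma ball_nonempty (ν : Sem G) {r : ℝ} (h : 0 ≤ r) : (ball ν r).Nonempty :=
  ⟨0, by simp [ν.zero, h]⟩

omit [DecidableEq G] in
lemma ball_pos (ν : Sem G) {r : ℝ} (h : 0 ≤ r) : (0 : ℝ) < (ball ν r).card := by
  exact_mod_cast (ball_nonempty ν h).card_pos

lemma card_ball_comp (ν : Sem G) (e : G ≃+ G) (r : ℝ) :
    (ball (ν.comp e) r).card = (ball ν r).card := by
  apply Finset.card_bij (fun x _ => e x)
  · intro x hx; simpa [Sem.comp] using hx
  · intro x _ y _ h; exact e.injective h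
  · intro y hy; exact ⟨e.symm y, by simpa [Sem.comp] using hy, by simp⟩

lemma Dim.card_le {ν : Sem G} {d : ℕ} (h : Dim ν d) {R r : ℝ} (hr : 0 < r) (hR : r ≤ R) :
    ((ball ν R).card : ℝ) ≤ (12 * R / r) ^ d * (ball ν r).card := by
  obtain ⟨Y, h1, h2, h3⟩ := h (ball ν R) (2 * R) r hr (by linarith) (fun x hx y hy => by
    have := ν.sub x y
    rw [mem_ball] at hx hy; linarith)
  have e : 6 * (2 * R) / r = 12 * R / r := by ring
  rw [e] at h2
  refine h2.trans (mul_le_mul_of_nonneg_left ?_ (by have := hr.trans_le hR; positivity))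
  rcases Y.eq_empty_or_nonempty with rfl | ⟨y0, hy0⟩
  · simp
  have : Y.card ≤ (ball ν r).card := by
    apply Finset.card_le_card_of_injOn (fun y => y - y0)
    · intro y hy; simpa using h3 y hy y0 hy0
    · intro a _ b _ hab; simpa using hab
  exact_mod_cast this

/-- One-scale regularity of the radius `r`. -/
def Good (ν : Sem G) (r ρ η : ℝ) : Prop :=
  ((ball ν (r * (1 + ρ))).card : ℝ) ≤ (1 + η) * (ball ν (r * (1 - ρ))).card

lemma Good.comp {ν : Sem G} {r ρ η : ℝ} (h : Good ν r ρ η) (e : G ≃+ G) :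
    Good (ν.comp e) r ρ η := by
  unfold Good; rwa [card_ball_comp, card_ball_comp]

lemma exists_good {ν : Sem G} {d : ℕ} (h : Dim ν d) {ρ η : ℝ} (hρ : 0 < ρ) (hη : η ≤ 1)
    (hd : ρ * (64 * (d + 1)) ≤ η) {r : ℝ} (hr : 0 < r) :
    ∃ s, r / 2 ≤ s ∧ s ≤ r ∧ Good ν s ρ η := by
  have hd0 : (0 : ℝ) ≤ d := by positivity
  have hη0 : 0 < η := lt_of_lt_of_le (by positivity) hd
  have hρ1 : ρ ≤ 1 / 64 := by nlinarith
  let n : ℕ := ⌊1 / (4 * ρ)⌋₊
  have hn1 : (n : ℝ) ≤ 1 / (4 * ρ) := Nat.floor_le (by positivity)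
  have hn2 : 1 / (4 * ρ) < n + 1 := Nat.lt_floor_add_one _
  rw [le_div_iff₀ (by positivity)] at hn1
  rw [div_lt_iff₀ (by positivity)] at hn2
  have hn3 : 1 ≤ n * (8 * ρ) := by nlinarith
  by_contra hcon
  push Not at hcon
  have key : ∀ j : ℕ, j ≤ n →
      (1 + η) ^ j * (ball ν (r / 2)).card ≤ (ball ν (r / 2 + 2 * j * ρ * r)).card := by
    intro j
    induction j with
    | zero => intro _; simp
    | succ j ih =>
      intro hj
      have hj' : (j : ℝ) + 1 ≤ n := by exact_mod_cast hj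
      have hj0 : (0 : ℝ) ≤ j := by positivity
      have hs1 : r / 2 ≤ r / 2 + (2 * j + 1) * ρ * r := by
        have : 0 ≤ (2 * j + 1) * ρ * r := by positivity
        linarith
      have hs2 : r / 2 + (2 * j + 1) * ρ * r ≤ r := by
        have : (2 * j + 1) * ρ ≤ 1 / 2 := by nlinarith
        nlinarith
      have hg := hcon _ hs1 hs2
      unfold Good at hg
      push Not at hg
      have m1 : ((ball ν (r / 2 + 2 * j * ρ * r)).card : ℝ) ≤
          (ball ν ((r / 2 + (2 * j + 1) * ρ * r) * (1 - ρ))).card := by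
        have : r / 2 + 2 * j * ρ * r ≤ (r / 2 + (2 * j + 1) * ρ * r) * (1 - ρ) := by
          nlinarith [mul_le_mul_of_nonneg_left hs2 hρ.le]
        exact_mod_cast card_le_card (ball_mono ν this)
      have m2 : ((ball ν ((r / 2 + (2 * j + 1) * ρ * r) * (1 + ρ))).card : ℝ) ≤
          (ball ν (r / 2 + 2 * (j + 1 : ℕ) * ρ * r)).card := by
        have : (r / 2 + (2 * j + 1) * ρ * r) * (1 + ρ) ≤ r / 2 + 2 * (j + 1 : ℕ) * ρ * r := by
          push_cast
          nlinarith [mul_le_mul_of_nonneg_left hs2 hρ.le]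
        exact_mod_cast card_le_card (ball_mono ν this)
      have := ih (by omega)
      calc (1 + η) ^ (j + 1) * (ball ν (r / 2)).card
          = (1 + η) * ((1 + η) ^ j * (ball ν (r / 2)).card) := by ring
        _ ≤ (1 + η) * (ball ν ((r / 2 + (2 * j + 1) * ρ * r) * (1 - ρ))).card := by
            gcongr; exact this.trans m1
        _ ≤ _ := hg.le.trans m2
  have k1 := key n le_rfl
  have k2 : ((ball ν (r / 2 + 2 * n * ρ * r)).card : ℝ) ≤ (ball ν r).card := by
    have : r / 2 + 2 * n * ρ * r ≤ r := by nlinarith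
    exact_mod_cast card_le_card (ball_mono ν this)
  have k3 := h.card_le (R := r) (r := r / 2) (by positivity) (by linarith)
  have e : 12 * r / (r / 2) = 24 := by field_simp; norm_num
  rw [e] at k3
  have k4 : (1 + η) ^ n ≤ 24 ^ d :=
    le_of_mul_le_mul_right (k1.trans (k2.trans k3)) (ball_pos ν (by positivity))
  have k5 : Real.exp (η / 2) ≤ 1 + η := by
    have := abs_le.mp (Real.abs_exp_sub_one_sub_id_le (x := η / 2) (by rw [abs_le]; constructor <;> linarith))
    nlinarith [this.2]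
  have k6 : (24 : ℝ) ≤ Real.exp 4 := by
    have h1 : (2.7 : ℝ) ≤ Real.exp 1 := by have := Real.exp_one_gt_d9; linarith
    have h2 : Real.exp 4 = Real.exp 1 ^ 4 := by rw [← Real.exp_nat_mul]; norm_num
    rw [h2]
    calc (24 : ℝ) ≤ 2.7 ^ 4 := by norm_num
      _ ≤ _ := by gcongr
  have k7 : Real.exp (n * (η / 2)) ≤ Real.exp (d * 4) := by
    rw [Real.exp_nat_mul, Real.exp_nat_mul]
    calc _ ≤ (1 + η) ^ n := by gcongr
      _ ≤ 24 ^ d := k4
      _ ≤ _ := by gcongr
  rw [Real.exp_le_exp] at k7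
  have hn0 : (0 : ℝ) ≤ n := by positivity
  nlinarith [mul_le_mul_of_nonneg_left hd hn0]

omit [DecidableEq G] in
lemma Good.plus {ν : Sem G} {r ρ η : ℝ} (h : Good ν r ρ η) (hr : 0 ≤ r) (hρ : 0 ≤ ρ) (hη0 : 0 ≤ η)
    (hη : η ≤ 1) {s : ℝ} (hs : s ≤ r * (1 + ρ)) :
    ((ball ν s).card : ℝ) ≤ 2 * (ball ν r).card := by
  have h1 : ((ball ν s).card : ℝ) ≤ (ball ν (r * (1 + ρ))).card := by
    exact_mod_cast card_le_card (ball_mono ν hs)
  have h2 : ((ball ν (r * (1 - ρ))).card : ℝ) ≤ (ball ν r).card := by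
    exact_mod_cast card_le_card (ball_mono ν (by nlinarith))
  unfold Good at h
  have h3 : (0 : ℝ) ≤ (ball ν (r * (1 - ρ))).card := by positivity
  nlinarith

lemma Good.rim {ν : Sem G} {r ρ η : ℝ} (h : Good ν r ρ η) (hr : 0 ≤ r) (hρ : 0 ≤ ρ) (hη0 : 0 ≤ η) :
    ((ball ν r \ ball ν (r * (1 - ρ))).card : ℝ) ≤ η * (ball ν r).card := by
  have s2 : ball ν (r * (1 - ρ)) ⊆ ball ν r := ball_mono ν (by nlinarith)
  have h1 : ((ball ν r).card : ℝ) ≤ (ball ν (r * (1 + ρ))).card := by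
    exact_mod_cast card_le_card (ball_mono ν (by nlinarith))
  have h2 : ((ball ν (r * (1 - ρ))).card : ℝ) ≤ (ball ν r).card := by
    exact_mod_cast card_le_card s2
  rw [card_sdiff_of_subset s2, Nat.cast_sub (card_le_card s2)]
  unfold Good at h
  nlinarith

lemma Good.shift {E : Type} [NormedAddCommGroup E] {ν : Sem G} {r ρ η : ℝ} (h : Good ν r ρ η)
    (hr : 0 ≤ r) (hρ : 0 ≤ ρ) (hη0 : 0 ≤ η) {y : G} (hy : ν.f y ≤ ρ * r) (φ : G → E) {K : ℝ}
    (hK : ∀ x, ‖φ x‖ ≤ K) :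
    ‖∑ x ∈ ball ν r, φ (x + y) - ∑ x ∈ ball ν r, φ x‖ ≤ 2 * η * K * (ball ν r).card := by
  have hK0 : 0 ≤ K := (norm_nonneg _).trans (hK 0)
  set B := ball ν r with hB
  set C := ball ν (r * (1 - ρ)) with hC
  have s2 : C ⊆ B := ball_mono ν (by nlinarith)
  have s3 : C ⊆ B.image (· + y) := by
    intro x hx
    refine mem_image.mpr ⟨x - y, ?_, by simp⟩
    have := ν.sub x y
    rw [hC, mem_ball] at hx
    rw [hB, mem_ball]; nlinarith
  have e1 : ∑ x ∈ B, φ (x + y) = ∑ x ∈ B.image (· + y), φ x := by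
    rw [sum_image (fun a _ b _ hab => by simpa using hab)]
  have c1 : (B.image (· + y) \ C).card = (B \ C).card := by
    rw [card_sdiff_of_subset s2, card_sdiff_of_subset s3,
      card_image_of_injective _ (add_left_injective y)]
  have b : ∀ D : Finset G, D.card = (B \ C).card → ‖∑ x ∈ D, φ x‖ ≤ η * K * B.card := by
    intro D hD
    refine (norm_sum_le _ _).trans ((sum_le_card_nsmul _ _ K (fun x _ => hK x)).trans ?_)
    rw [nsmul_eq_mul, hD]
    have := h.rim hr hρ hη0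
    nlinarith
  rw [e1, ← sum_sdiff s3, ← sum_sdiff s2, add_sub_add_right_eq_sub]
  refine (norm_sub_le _ _).trans ?_
  have := b _ c1
  have := b _ rfl
  linarith

end Pool.Agent.Lib.MP_574c26_nt.KM
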