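import Pool.Agent.Lib.MP_574c26_nt.KM1

/-!
Tensor power Cauchy-Schwarz, unbalancing and sifting.
-/

set_option autoImplicit false
set_option linter.unusedSectionVars false
set_option linter.unusedVariables false

open Finset

namespace Pool.Agent.Lib.MP_574c26_nt.KM

variable {G : Type} [AddCommGroup G] [Fintype G] [DecidableEq G]

lemma tens {ι κ : Type} (D : Finset ι) (E : Finset κ) (F : ι → G → ℝ) (H : κ → G → ℝ)
    (w : ι → κ → ℝ) (p : ℕ) :
    ∑ i ∈ D, ∑ j ∈ E, w i j * (∑ z, F i z * H j z) ^ p =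
      ∑ z : Fin p → G, ∑ i ∈ D, ∑ j ∈ E, w i j * ((∏ l, F i (z l)) * ∏ l, H j (z l)) := by
  have h : ∀ i j, (∑ z, F i z * H j z) ^ p =
      ∑ z : Fin p → G, (∏ l, F i (z l)) * ∏ l, H j (z l) := by
    intro i j
    rw [Fintype.sum_pow]
    simp only [prod_mul_distrib]
  simp only [h, mul_sum]
  simp only [sum_comm (s := E) (t := (univ : Finset (Fin p → G)))]
  rw [sum_comm]

lemma tens1 {ι κ : Type} (D : Finset ι) (E : Finset κ) (F : ι → G → ℝ) (H : κ → G → ℝ) (p : ℕ) :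
    ∑ i ∈ D, ∑ j ∈ E, (∑ z, F i z * H j z) ^ p =
      ∑ z : Fin p → G, (∑ i ∈ D, ∏ l, F i (z l)) * ∑ j ∈ E, ∏ l, H j (z l) := by
  have := tens D E F H (fun _ _ => 1) p
  simp only [one_mul] at this
  rw [this]
  simp only [sum_mul_sum]

lemma tens_nonneg {ι : Type} (D : Finset ι) (F : ι → G → ℝ) (p : ℕ) :
    0 ≤ ∑ i ∈ D, ∑ j ∈ D, (∑ z, F i z * F j z) ^ p := by
  rw [tens1]
  exact sum_nonneg fun z _ => mul_self_nonneg _

lemma tens_cs {ι : Type} (D : Finset ι) (F H : ι → G → ℝ) (p : ℕ) :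
    (∑ i ∈ D, ∑ j ∈ D, (∑ z, F i z * H j z) ^ p) ^ 2 ≤
      (∑ i ∈ D, ∑ j ∈ D, (∑ z, F i z * F j z) ^ p) *
        ∑ i ∈ D, ∑ j ∈ D, (∑ z, H i z * H j z) ^ p := by
  rw [tens1, tens1, tens1]
  simp only [← sq]
  exact sum_mul_sq_le_sq_mul_sq _ _ _

/-- Difference convolution. -/
def dc (f : G → ℝ) (w : G) : ℝ := ∑ z, f z * f (z + w)

/-- Convolution. -/
def cv (f : G → ℝ) (y : G) : ℝ := ∑ z, f z * f (y - z)

lemma dc_eq (f : G → ℝ) (a b : G) : ∑ z, f (z + a) * f (z + b) = dc f (b - a) := by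
  unfold dc
  rw [← Equiv.sum_comp (Equiv.addRight a) (fun z => f z * f (z + (b - a)))]
  refine sum_congr rfl fun z _ => ?_
  simp only [Equiv.coe_addRight]
  congr 2; abel

lemma dc_nonneg {ι : Type} (D : Finset ι) (u : ι → G) (f : G → ℝ) (p : ℕ) :
    0 ≤ ∑ i ∈ D, ∑ j ∈ D, dc f (u i - u j) ^ p := by
  have := tens_nonneg D (fun i z => f (z + u i)) p
  simp only [dc_eq] at this
  rwa [sum_comm] at this

lemma cv_le_dc {ι : Type} (D : Finset ι) (u : ι → G) (f : G → ℝ) (t : G) (p : ℕ) :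
    ∑ i ∈ D, ∑ j ∈ D, cv f (t + (u i - u j)) ^ p ≤ ∑ i ∈ D, ∑ j ∈ D, dc f (u i - u j) ^ p := by
  have h := tens_cs D (fun i z => f (z + u i)) (fun j z => f (t - u j - z)) p
  have e1 : ∀ i j, ∑ z, f (z + u i) * f (t - u j - z) = cv f (t + (u i - u j)) := by
    intro i j
    unfold cv
    rw [← Equiv.sum_comp (Equiv.addRight (u i)) (fun z => f z * f (t + (u i - u j) - z))]
    refine sum_congr rfl fun z _ => ?_
    simp only [Equiv.coe_addRight]
    congr 2; abel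
  have e2 : ∀ i j, ∑ z, f (t - u i - z) * f (t - u j - z) = dc f (u i - u j) := by
    intro i j
    unfold dc
    rw [← Equiv.sum_comp (Equiv.subLeft (t - u i)) (fun z => f z * f (z + (u i - u j)))]
    refine sum_congr rfl fun z _ => ?_
    simp only [Equiv.subLeft_apply]
    congr 2; abel
  simp only [e1, e2, dc_eq] at h
  rw [sum_comm (f := fun i j => dc f (u j - u i) ^ p), ← sq] at h
  exact (abs_le_of_sq_le_sq' h (dc_nonneg D u f p)).2

lemma choose_ge (p : ℕ) : (16 : ℝ) ^ p ≤ (17 * p).choose p := by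
  have h := Nat.pow_le_choose (α := ℝ) p (17 * p)
  refine le_trans ?_ h
  rw [le_div_iff₀ (by positivity)]
  have h1 : (p.factorial : ℝ) ≤ (p : ℝ) ^ p := by exact_mod_cast Nat.factorial_le_pow p
  have h2 : 17 * p + 1 - p = 16 * p + 1 := by omega
  rw [h2]
  calc (16 : ℝ) ^ p * p.factorial ≤ 16 ^ p * (p : ℝ) ^ p := by gcongr
    _ = (16 * p) ^ p := by rw [mul_pow]
    _ ≤ _ := by push_cast; gcongr; linarith

/-- Unbalancing. -/
lemma unbalance {ι : Type} (D : Finset ι) (g : ι → ι → ℝ) (p : ℕ)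
    (hg : ∀ j : ℕ, 0 ≤ ∑ a ∈ D, ∑ b ∈ D, g a b ^ j) :
    16 ^ p * ∑ a ∈ D, ∑ b ∈ D, g a b ^ p ≤ ∑ a ∈ D, ∑ b ∈ D, (g a b + 1) ^ (17 * p) := by
  have e : ∑ a ∈ D, ∑ b ∈ D, (g a b + 1) ^ (17 * p) =
      ∑ j ∈ range (17 * p + 1), ((17 * p).choose j : ℝ) * ∑ a ∈ D, ∑ b ∈ D, g a b ^ j := by
    simp only [add_pow, one_pow, mul_one, mul_sum]
    rw [sum_comm]
    simp only [sum_comm (s := D) (t := range (17 * p + 1))]
    refine sum_congr rfl fun j _ => ?_
    rw [sum_comm]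
    simp only [mul_comm]
  rw [e]
  refine le_trans (mul_le_mul_of_nonneg_right (choose_ge p) (hg p)) ?_
  exact single_le_sum (f := fun j => ((17 * p).choose j : ℝ) * ∑ a ∈ D, ∑ b ∈ D, g a b ^ j)
    (fun j _ => mul_nonneg (by positivity) (hg j)) (mem_range.mpr (by omega))

/-- Indicator function. -/
def ind (A : Finset G) (x : G) : ℝ := if x ∈ A then 1 else 0

lemma ind_nonneg (A : Finset G) (x : G) : 0 ≤ ind A x := by unfold ind; split_ifs <;> norm_num

lemma ind_le (A : Finset G) (x : G) : ind A x ≤ 1 := by unfold ind; split_ifs <;> norm_num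

lemma sum_ind (A : Finset G) : ∑ x, ind A x = A.card := by simp [ind]

lemma prod_ind {p : ℕ} (A : Finset G) (v : Fin p → G) :
    ∏ l, ind A (v l) = if ∀ l, v l ∈ A then 1 else 0 := by
  unfold ind
  rw [Finset.prod_ite_zero]; simp

/-- Sifting (dependent random choice). -/
lemma sift (A B₁ B₂ Z : Finset G) (s : G) (q : ℕ) (P : G → Prop) [DecidablePred P] {M δ c : ℝ}
    (hδ : 0 < δ) (hM : 0 < M) (hc : 0 < c) (hZ : ∀ a ∈ A, ∀ b ∈ B₂, a - b ∈ Z)
    (h1 : M ≤ ∑ a ∈ B₁, ∑ b ∈ B₂, dc (ind A) (a + s - b) ^ q)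
    (h2 : ∑ a ∈ B₁, ∑ b ∈ B₂, (if P (a - b) then 0 else 1) * dc (ind A) (a + s - b) ^ q ≤ δ / 2 * M)
    (h3 : c * (Z.card : ℝ) ^ q < M / 2) :
    ∃ A₁ ⊆ B₁, ∃ A₂ ⊆ B₂, c ≤ A₁.card * A₂.card ∧
      (1 - δ) * (A₁.card * A₂.card) ≤ ∑ a ∈ A₁, ∑ b ∈ A₂, if P (a - b) then 1 else 0 := by
  let A₁ : (Fin q → G) → Finset G := fun z => B₁.filter (fun a => ∀ l, z l + (a + s) ∈ A)
  let A₂ : (Fin q → G) → Finset G := fun z => B₂.filter (fun b => ∀ l, z l + b ∈ A)
  have key : ∀ w : G → G → ℝ, ∑ a ∈ B₁, ∑ b ∈ B₂, w a b * dc (ind A) (a + s - b) ^ q =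
      ∑ z : Fin q → G, ∑ a ∈ A₁ z, ∑ b ∈ A₂ z, w a b := by
    intro w
    have := tens B₁ B₂ (fun a z => ind A (z + (a + s))) (fun b z => ind A (z + b)) w q
    have e : ∀ a b, ∑ z, ind A (z + (a + s)) * ind A (z + b) = dc (ind A) (a + s - b) := by
      intro a b; rw [← dc_eq]; simp only [mul_comm]
    simp only [e, prod_ind] at this
    rw [this]
    refine sum_congr rfl fun z _ => ?_
    simp only [A₁, A₂, sum_filter]
    refine sum_congr rfl fun a _ => ?_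
    split_ifs with h
    · refine sum_congr rfl fun b _ => ?_
      split_ifs <;> simp
    · simp
  have k1 := key (fun _ _ => 1)
  have k2 := key (fun a b => if P (a - b) then 0 else 1)
  simp only [one_mul] at k1
  rw [k1] at h1
  rw [k2] at h2
  by_contra hcon
  push Not at hcon
  let Zq : Finset (Fin q → G) := Fintype.piFinset fun _ => Z
  have bound : ∀ z : Fin q → G, ∑ a ∈ A₁ z, ∑ b ∈ A₂ z, (1 : ℝ) ≤
      (if z ∈ Zq then c else 0) +
        (∑ a ∈ A₁ z, ∑ b ∈ A₂ z, if P (a - b) then (0 : ℝ) else 1) / δ := by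
    intro z
    have n0 : 0 ≤ (∑ a ∈ A₁ z, ∑ b ∈ A₂ z, if P (a - b) then (0 : ℝ) else 1) / δ :=
      div_nonneg (sum_nonneg fun a _ => sum_nonneg fun b _ => by split_ifs <;> norm_num) hδ.le
    have e0 : ∑ a ∈ A₁ z, ∑ b ∈ A₂ z, (1 : ℝ) = (A₁ z).card * (A₂ z).card := by simp
    by_cases hz : z ∈ Zq
    · rw [if_pos hz]
      by_cases hcz : c ≤ (A₁ z).card * (A₂ z).card
      · have := hcon (A₁ z) (filter_subset _ _) (A₂ z) (filter_subset _ _) hcz
        have e1 : (∑ a ∈ A₁ z, ∑ b ∈ A₂ z, if P (a - b) then (0 : ℝ) else 1) +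
            (∑ a ∈ A₁ z, ∑ b ∈ A₂ z, if P (a - b) then (1 : ℝ) else 0) =
            (A₁ z).card * (A₂ z).card := by
          rw [← e0, ← sum_add_distrib]
          refine sum_congr rfl fun a _ => ?_
          rw [← sum_add_distrib]
          refine sum_congr rfl fun b _ => ?_
          split_ifs <;> norm_num
        have : ((A₁ z).card * (A₂ z).card : ℝ) ≤
            (∑ a ∈ A₁ z, ∑ b ∈ A₂ z, if P (a - b) then (0 : ℝ) else 1) / δ := by
          rw [le_div_iff₀ hδ]; linarith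
        linarith
      · push Not at hcz; linarith
    · rw [if_neg hz]
      have : A₂ z = ∅ := by
        rw [eq_empty_iff_forall_notMem]
        intro b hb
        obtain ⟨hb1, hb2⟩ := mem_filter.mp hb
        apply hz
        rw [Fintype.mem_piFinset]
        intro l
        simpa using hZ _ (hb2 l) b hb1
      simp [this]
  have tot := sum_le_sum (s := univ) fun z _ => bound z
  rw [sum_add_distrib, ← sum_div] at tot
  have e3 : ∑ z : Fin q → G, (if z ∈ Zq then c else 0) = c * (Z.card : ℝ) ^ q := by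
    rw [sum_ite_mem, univ_inter, sum_const, nsmul_eq_mul, mul_comm]
    simp [Zq]
  rw [e3] at tot
  have : (∑ z : Fin q → G, ∑ a ∈ A₁ z, ∑ b ∈ A₂ z, if P (a - b) then (0 : ℝ) else 1) / δ ≤ M / 2 := by
    rw [div_le_iff₀ hδ]; linarith
  linarith

end Pool.Agent.Lib.MP_574c26_nt.KM
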