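import Pool.Agent.Lib.MP_574c26_nt.KM2

/-!
Almost periods by random sampling (Croot-Sisask), with Hoeffding's inequality.
-/

set_option autoImplicit false
set_option linter.unusedSectionVars false
set_option linter.unusedVariables false

open Finset

namespace Pool.Agent.Lib.MP_574c26_nt.KM

variable {G : Type} [AddCommGroup G] [Fintype G] [DecidableEq G]

lemma hoeffding (A : Finset G) (ξ : G → ℝ) (hξ : ∀ x, |ξ x| ≤ 1) (h0 : ∑ x ∈ A, ξ x = 0) (m : ℕ)
    {ε : ℝ} (hε : 0 < ε) (hε1 : ε ≤ 1) :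
    (((Fintype.piFinset fun _ : Fin m => A).filter fun a => m * ε < ∑ j, ξ (a j)).card : ℝ) ≤
      Real.exp (-(m * ε ^ 2 / 4)) * (A.card : ℝ) ^ m := by
  have h1 : ∑ b ∈ A, Real.exp (ε / 2 * ξ b) ≤ A.card * Real.exp ((ε / 2) ^ 2) := by
    have : ∀ b ∈ A, Real.exp (ε / 2 * ξ b) ≤ Real.exp ((ε / 2) ^ 2) + ε / 2 * ξ b := by
      intro b _
      have hb := abs_le.mp (hξ b)
      have a1 : |ε / 2 * ξ b| ≤ 1 := by rw [abs_le]; constructor <;> nlinarith
      have a2 := (abs_le.mp (Real.abs_exp_sub_one_sub_id_le a1)).2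
      have a3 := Real.add_one_le_exp ((ε / 2) ^ 2)
      have a4 : ξ b ^ 2 ≤ 1 := by nlinarith
      have a5 : (ε / 2 * ξ b) ^ 2 ≤ (ε / 2) ^ 2 := by rw [mul_pow]; nlinarith [sq_nonneg (ε / 2)]
      linarith
    refine (sum_le_sum this).trans ?_
    rw [sum_add_distrib, ← mul_sum, h0]; simp
  have h2 : ∑ a ∈ Fintype.piFinset fun _ : Fin m => A, Real.exp (ε / 2 * ∑ j, ξ (a j)) ≤
      (A.card * Real.exp ((ε / 2) ^ 2)) ^ m := by
    simp only [mul_sum, Real.exp_sum]
    rw [← Finset.prod_univ_sum (fun _ : Fin m => A) (fun _ b => Real.exp (ε / 2 * ξ b))]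
    simp only [prod_const, card_univ, Fintype.card_fin]
    exact pow_le_pow_left₀ (sum_nonneg fun _ _ => (Real.exp_pos _).le) h1 m
  have h3 : (((Fintype.piFinset fun _ : Fin m => A).filter fun a => m * ε < ∑ j, ξ (a j)).card : ℝ) *
      Real.exp (ε / 2 * (m * ε)) ≤
      ∑ a ∈ Fintype.piFinset fun _ : Fin m => A, Real.exp (ε / 2 * ∑ j, ξ (a j)) := by
    rw [← nsmul_eq_mul]
    refine (card_nsmul_le_sum _ _ _ fun a ha => ?_).trans
      (sum_le_sum_of_subset_of_nonneg (filter_subset _ _) fun _ _ _ => (Real.exp_pos _).le)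
    have := (mem_filter.mp ha).2
    apply Real.exp_le_exp.mpr
    nlinarith
  have h4 := h3.trans h2
  rw [← le_div_iff₀ (Real.exp_pos _), mul_pow, ← Real.exp_nat_mul, mul_div_assoc,
    ← Real.exp_sub] at h4
  have e : (m : ℝ) * (ε / 2) ^ 2 - ε / 2 * (m * ε) = -(m * ε ^ 2 / 4) := by ring
  rwa [e, mul_comm ((A.card : ℝ) ^ m)] at h4

/-- Average of the indicator of `S` over `x - A`. -/
noncomputable def gA (S A : Finset G) (x : G) : ℝ := (∑ a ∈ A, ind S (x - a)) / A.card

/-- Empirical version of `gA`. -/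
noncomputable def gS {m : ℕ} (S : Finset G) (a : Fin m → G) (x : G) : ℝ :=
  (∑ j, ind S (x - a j)) / m

/-- Proportion of pairs with `a₁ - a₂ + y ∈ S`. -/
noncomputable def Phi (S A₁ A₂ : Finset G) (y : G) : ℝ := (∑ a ∈ A₁, gA S A₂ (a + y)) / A₁.card

lemma avg_mem {ι : Type} (s : Finset ι) (f : ι → ℝ) (h0 : ∀ i, 0 ≤ f i) (h1 : ∀ i, f i ≤ 1) :
    0 ≤ (∑ i ∈ s, f i) / s.card ∧ (∑ i ∈ s, f i) / s.card ≤ 1 := by
  refine ⟨div_nonneg (sum_nonneg fun i _ => h0 i) (by positivity), ?_⟩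
  apply div_le_one_of_le₀ _ (by positivity)
  simpa using sum_le_card_nsmul s f 1 fun i _ => h1 i

lemma gA_mem (S A : Finset G) (x : G) : 0 ≤ gA S A x ∧ gA S A x ≤ 1 :=
  avg_mem _ _ (fun _ => ind_nonneg _ _) fun _ => ind_le _ _

lemma gS_mem {m : ℕ} (S : Finset G) (a : Fin m → G) (x : G) : 0 ≤ gS S a x ∧ gS S a x ≤ 1 := by
  have := avg_mem (univ : Finset (Fin m)) (fun j => ind S (x - a j)) (fun _ => ind_nonneg _ _)
    fun _ => ind_le _ _
  simpa [gS] using this

lemma dev (S A : Finset G) (hA : A.Nonempty) (x : G) (m : ℕ) (hm : 0 < m) {ε : ℝ} (hε : 0 < ε)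
    (hε1 : ε ≤ 1) :
    (((Fintype.piFinset fun _ : Fin m => A).filter fun a => ε < |gS S a x - gA S A x|).card : ℝ) ≤
      2 * (Real.exp (-(m * ε ^ 2 / 4)) * (A.card : ℝ) ^ m) := by
  have hA0 : (0 : ℝ) < A.card := by exact_mod_cast hA.card_pos
  have hm0 : (0 : ℝ) < m := by exact_mod_cast hm
  let ξ : G → ℝ := fun b => ind S (x - b) - gA S A x
  have hξ : ∀ b, |ξ b| ≤ 1 := fun b => by
    have := gA_mem S A x
    have := ind_nonneg S (x - b)
    have := ind_le S (x - b)
    rw [abs_le]; constructor <;> simp only [ξ] <;> linarith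
  have h0 : ∑ b ∈ A, ξ b = 0 := by
    simp only [ξ, sum_sub_distrib, sum_const, nsmul_eq_mul, gA]
    field_simp; ring
  have k1 := hoeffding A ξ hξ h0 m hε hε1
  have k2 := hoeffding A (fun b => -ξ b) (fun b => by rw [abs_neg]; exact hξ b)
    (by rw [sum_neg_distrib, h0, neg_zero]) m hε hε1
  have hsub : ((Fintype.piFinset fun _ : Fin m => A).filter fun a => ε < |gS S a x - gA S A x|) ⊆
      ((Fintype.piFinset fun _ : Fin m => A).filter fun a => m * ε < ∑ j, ξ (a j)) ∪
      ((Fintype.piFinset fun _ : Fin m => A).filter fun a => m * ε < ∑ j, -ξ (a j)) := by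
    intro a ha
    obtain ⟨ha1, ha2⟩ := mem_filter.mp ha
    have e : ∑ j, ξ (a j) = m * (gS S a x - gA S A x) := by
      simp only [ξ, sum_sub_distrib, sum_const, nsmul_eq_mul, gS, card_univ, Fintype.card_fin]
      field_simp
    rw [mem_union, mem_filter, mem_filter, sum_neg_distrib, e]
    rcases lt_abs.mp ha2 with h | h
    · exact Or.inl ⟨ha1, by nlinarith⟩
    · exact Or.inr ⟨ha1, by nlinarith⟩
  have := (card_le_card hsub).trans (card_union_le _ _)
  have h5 := (Nat.cast_le (α := ℝ)).mpr this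
  push_cast at h5
  linarith

/-- Croot-Sisask. -/
lemma croot_sisask (S A₁ A₂ X D W : Finset G) (h1 : A₁.Nonempty) (h2 : A₂.Nonempty)
    (hD : D.Nonempty) {K ε : ℝ} (m : ℕ) (hm : 0 < m) (hε : 0 < ε) (hε1 : ε ≤ 1)
    (hX : ∀ s ∈ S, ∀ a ∈ A₂, s + a ∈ X) (hXK : (X.card : ℝ) ≤ K * A₁.card)
    (hW : ∀ a ∈ A₂, ∀ t ∈ D, a + t ∈ W) (hWK : (W.card : ℝ) ≤ K * A₂.card)
    (hmK : 4 * K * Real.exp (-(m * ε ^ 2 / 4)) ≤ ε) :
    ∃ T ⊆ D, (D.card : ℝ) ≤ 2 * K ^ m * T.card ∧
      ∀ y, ∀ t ∈ T, ∀ t' ∈ T, |Phi S A₁ A₂ (y + (t - t')) - Phi S A₁ A₂ y| ≤ 4 * ε := by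
  have hA1 : (0 : ℝ) < A₁.card := by exact_mod_cast h1.card_pos
  have hA2 : (0 : ℝ) < A₂.card := by exact_mod_cast h2.card_pos
  set Ω : Finset (Fin m → G) := Fintype.piFinset fun _ : Fin m => A₂ with hΩ
  have hΩc : (Ω.card : ℝ) = (A₂.card : ℝ) ^ m := by simp [hΩ]
  let Bad : (Fin m → G) → Finset G := fun a => X.filter fun x => ε < |gS S a x - gA S A₂ x|
  have hsum : ∑ a ∈ Ω, ((Bad a).card : ℝ) ≤ ε * A₁.card / 2 * (A₂.card : ℝ) ^ m := by
    have e : ∑ a ∈ Ω, ((Bad a).card : ℝ) =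
        ∑ x ∈ X, ((Ω.filter fun a => ε < |gS S a x - gA S A₂ x|).card : ℝ) := by
      simp only [Bad, card_filter]
      push_cast
      exact sum_comm
    rw [e]
    refine (sum_le_card_nsmul _ _ _ fun x _ => dev S A₂ h2 x m hm hε hε1).trans ?_
    rw [nsmul_eq_mul]
    have hE := Real.exp_pos (-(m * ε ^ 2 / 4))
    generalize Real.exp (-(m * ε ^ 2 / 4)) = E at *
    have : X.card * (2 * E) ≤ ε * A₁.card / 2 := by nlinarith
    calc _ = X.card * (2 * E) * (A₂.card : ℝ) ^ m := by ring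
      _ ≤ _ := by gcongr
  let L : Finset (Fin m → G) := Ω.filter fun a => ((Bad a).card : ℝ) ≤ ε * A₁.card
  have hL : (A₂.card : ℝ) ^ m ≤ 2 * L.card := by
    have a1 := card_filter_add_card_filter_not (s := Ω)
      (fun a => ((Bad a).card : ℝ) ≤ ε * A₁.card)
    have a2 : ((Ω.filter fun a => ¬ ((Bad a).card : ℝ) ≤ ε * A₁.card).card : ℝ) * (ε * A₁.card) ≤
        ∑ a ∈ Ω, ((Bad a).card : ℝ) := by
      rw [← nsmul_eq_mul]
      exact (card_nsmul_le_sum _ _ _ fun a ha => (not_le.mp (mem_filter.mp ha).2).le).trans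
        (sum_le_sum_of_subset_of_nonneg (filter_subset _ _) fun _ _ _ => by positivity)
    have a3 := (Nat.cast_inj (R := ℝ)).mpr a1
    push_cast at a3
    rw [hΩc] at a3
    have a4 : ((Ω.filter fun a => ¬ ((Bad a).card : ℝ) ≤ ε * A₁.card).card : ℝ) ≤
        (A₂.card : ℝ) ^ m / 2 := by
      have hp : 0 < ε * A₁.card := by positivity
      apply le_of_mul_le_mul_right _ hp
      linarith
    simp only [L]
    linarith
  let Wm : Finset (Fin m → G) := Fintype.piFinset fun _ : Fin m => W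
  have hWm : (Wm.card : ℝ) = (W.card : ℝ) ^ m := by simp [Wm]
  have hWne : W.Nonempty := by
    obtain ⟨a, ha⟩ := h2
    obtain ⟨t, ht⟩ := hD
    exact ⟨_, hW a ha t ht⟩
  have hW0 : (0 : ℝ) < W.card := by exact_mod_cast hWne.card_pos
  obtain ⟨b, -, hb⟩ := Finset.exists_le_card_fiber_of_nsmul_le_card_of_maps_to (M := ℝ)
    (s := L ×ˢ D) (t := Wm) (f := fun p j => p.1 j + p.2)
    (b := ((L ×ˢ D).card : ℝ) / Wm.card) (by
      intro p hp
      obtain ⟨hp1, hp2⟩ := mem_product.mp hp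
      rw [Fintype.mem_piFinset]
      intro j
      exact hW _ (Fintype.mem_piFinset.mp (mem_filter.mp hp1).1 j) _ hp2)
    (by simpa [Wm] using fun _ => hWne) (by
      rw [nsmul_eq_mul, mul_div_cancel₀ _ (by rw [hWm]; positivity)])
  let T : Finset G := D.filter fun t => (fun j => b j - t) ∈ L
  have hT : ((L ×ˢ D).filter fun p => (fun j => p.1 j + p.2) = b).card ≤ T.card := by
    apply card_le_card_of_injOn (fun p => p.2)
    · intro p hp
      obtain ⟨hp1, hp2⟩ := mem_filter.mp hp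
      obtain ⟨hp3, hp4⟩ := mem_product.mp hp1
      refine mem_filter.mpr ⟨hp4, ?_⟩
      convert hp3 using 1
      ext j; rw [← hp2]; simp
    · intro p hp p' hp' h
      have e1 := (mem_filter.mp hp).2
      have e2 := (mem_filter.mp hp').2
      simp only at h
      refine Prod.ext ?_ h
      ext j
      have := congrFun (e1.trans e2.symm) j
      rw [h] at this
      simpa using this
  refine ⟨T, filter_subset _ _, ?_, ?_⟩
  · have c1 : ((L ×ˢ D).card : ℝ) / Wm.card ≤ T.card := hb.trans (by exact_mod_cast hT)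
    rw [hWm, div_le_iff₀ (by positivity), card_product] at c1
    push_cast at c1
    have c2 : (W.card : ℝ) ^ m ≤ K ^ m * (A₂.card : ℝ) ^ m := by
      rw [← mul_pow]; gcongr
    have hp : (0 : ℝ) < (A₂.card : ℝ) ^ m := by positivity
    apply le_of_mul_le_mul_right _ hp
    have hD0 : (0 : ℝ) ≤ D.card := by positivity
    have hT0 : (0 : ℝ) ≤ T.card := by positivity
    nlinarith [mul_le_mul_of_nonneg_left c2 hT0, mul_le_mul_of_nonneg_left hL hD0]
  · have key : ∀ y, ∀ t ∈ T,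
        |Phi S A₁ A₂ (y - t) - (∑ a ∈ A₁, gS S b (a + y)) / A₁.card| ≤ 2 * ε := by
      intro y t ht
      obtain ⟨ha1, ha2⟩ := mem_filter.mp (mem_filter.mp ht).2
      set a : Fin m → G := fun j => b j - t with ha
      have e : ∀ x, gS S b (x + y) = gS S a (x + (y - t)) := by
        intro x; unfold gS; congr 1
        refine sum_congr rfl fun j _ => ?_
        congr 1; simp only [ha]; abel
      have pt : ∀ x, |gA S A₂ x - gS S a x| ≤ ε + ind (Bad a) x := by
        intro x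
        have g1 := gA_mem S A₂ x
        have g2 := gS_mem S a x
        by_cases hx : x ∈ Bad a
        · simp only [ind, if_pos hx]; rw [abs_le]; constructor <;> linarith
        · simp only [ind, if_neg hx, add_zero]
          by_cases hxX : x ∈ X
          · rw [abs_sub_comm]
            exact not_lt.mp fun h => hx (mem_filter.mpr ⟨hxX, h⟩)
          · have z : ∀ c ∈ A₂, ind S (x - c) = 0 := fun c hc => by
              unfold ind
              rw [if_neg]
              intro h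
              exact hxX (by simpa using hX _ h c hc)
            have z1 : gA S A₂ x = 0 := by unfold gA; rw [sum_eq_zero z, zero_div]
            have z2 : gS S a x = 0 := by
              unfold gS
              rw [sum_eq_zero fun j _ => z _ (Fintype.mem_piFinset.mp ha1 j), zero_div]
            rw [z1, z2]; simpa using hε.le
      unfold Phi
      rw [← sub_div, abs_div, abs_of_pos hA1, div_le_iff₀ hA1, ← sum_sub_distrib]
      simp only [e]
      refine (abs_sum_le_sum_abs _ _).trans ((sum_le_sum fun x _ => pt _).trans ?_)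
      rw [sum_add_distrib, sum_const, nsmul_eq_mul]
      have : ∑ x ∈ A₁, ind (Bad a) (x + (y - t)) ≤ (Bad a).card := by
        rw [← sum_ind, ← Equiv.sum_comp (Equiv.addRight (y - t)) (ind (Bad a))]
        exact sum_le_sum_of_subset_of_nonneg (subset_univ _) fun _ _ _ => ind_nonneg _ _
      linarith
    intro y t ht t' ht'
    have k1 := key (y + t) t ht
    have k2 := key (y + t) t' ht'
    rw [add_sub_cancel_right] at k1
    rw [add_sub_assoc] at k2
    rw [abs_le] at *
    constructor <;> linarith [k1.1, k1.2, k2.1, k2.2]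

end Pool.Agent.Lib.MP_574c26_nt.KM
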