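import Pool.Agent.Lib.MP_574c26_nt.KM3

/-!
A local Chang lemma by entropy descent.
-/

set_option autoImplicit false
set_option linter.unusedSectionVars false
set_option linter.unusedVariables false

open Finset

namespace Pool.Agent.Lib.MP_574c26_nt.KM

variable {G : Type} [AddCommGroup G] [Fintype G] [DecidableEq G]

/-- Exponents of generalised Riesz products with `j` factors over a Lipschitz weight. -/
def Rz (b : G → ℝ) (j : ℕ) (φ : G → ℝ) : Prop :=
  ∃ μ : Sem G, Dim μ (2 * j) ∧ (∀ x, μ.f x ≤ 2) ∧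
    ∀ x y, |φ (x + y) - φ x| ≤ b y + j / 8 * μ.f y

lemma Rz.succ {b : G → ℝ} {j : ℕ} {φ : G → ℝ} (h : Rz b j φ) (χ : AddChar G ℂ) (ω : ℂ)
    (hω : ‖ω‖ ≤ 1) : Rz b (j + 1) fun x => φ x + (ω * χ x).re / 8 := by
  obtain ⟨μ, h1, h2, h4⟩ := h
  refine ⟨μ.sup (Sem.chord χ), h1.sup (dim_chord χ), fun x => max_le (h2 x) (chord_le χ x),
    fun x y => ?_⟩
  have a : |(ω * χ (x + y)).re - (ω * χ x).re| ≤ (Sem.chord χ).f y := by
    rw [← Complex.sub_re]
    refine (Complex.abs_re_le_norm _).trans ?_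
    have : ω * χ (x + y) - ω * χ x = ω * χ x * (χ y - 1) := by
      rw [AddChar.map_add_eq_mul]; ring
    rw [this, norm_mul, norm_mul, AddChar.norm_apply, mul_one]
    exact mul_le_of_le_one_left (norm_nonneg _) hω
  have b := abs_le.mp (h4 x y)
  have a' := abs_le.mp a
  have c1 : μ.f y ≤ (μ.sup (Sem.chord χ)).f y := le_max_left _ _
  have c2 : (Sem.chord χ).f y ≤ (μ.sup (Sem.chord χ)).f y := le_max_right _ _
  have c3 : (j : ℝ) / 8 * μ.f y ≤ j / 8 * (μ.sup (Sem.chord χ)).f y := by gcongr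
  push_cast
  rw [abs_le]; constructor <;> linarith [a'.1, a'.2, b.1, b.2]

lemma descent (D T : Finset G) (hTD : T ⊆ D) (hT : T.Nonempty) (n : ℕ) (b φ₀ : G → ℝ)
    (hb : ∀ x y, |φ₀ (x + y) - φ₀ x| ≤ b y) (h0 : ∀ t ∈ T, φ₀ t = 0) {M : ℝ}
    (hM : ∑ x ∈ D, Real.exp (φ₀ x) ≤ M) (hn : M < Real.exp (n / 64) * T.card) :
    ∃ φ : G → ℝ, Rz b n φ ∧ ∀ (χ : AddChar G ℂ) (ω : ℂ), ‖ω‖ ≤ 1 →
      ((∑ t ∈ T, (ω * χ t).re) / T.card - 1 / 4) * ∑ x ∈ D, Real.exp (φ x) ≤
        ∑ x ∈ D, Real.exp (φ x) * (ω * χ x).re := by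
  have hT0 : (0 : ℝ) < T.card := by exact_mod_cast hT.card_pos
  have key : ∀ j : ℕ, (∃ φ : G → ℝ, Rz b j φ ∧ ∀ (χ : AddChar G ℂ) (ω : ℂ), ‖ω‖ ≤ 1 →
      ((∑ t ∈ T, (ω * χ t).re) / T.card - 1 / 4) * ∑ x ∈ D, Real.exp (φ x) ≤
        ∑ x ∈ D, Real.exp (φ x) * (ω * χ x).re) ∨
      ∃ φ : G → ℝ, Rz b j φ ∧
        ∑ x ∈ D, Real.exp (φ x) ≤ M * Real.exp ((∑ t ∈ T, φ t) / T.card - j / 64) := by
    intro j
    induction j with
    | zero =>
      exact Or.inr ⟨φ₀, ⟨Sem.triv, dim_triv, fun _ => by simp [Sem.triv], by simpa using hb⟩,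
        by simpa [sum_eq_zero h0] using hM⟩
    | succ j ih =>
      rcases ih with ⟨φ, h1, h2⟩ | ⟨φ, h1, h2⟩
      · exact Or.inl ⟨φ, by simpa using h1.succ 0 0 (by simp), h2⟩
      by_cases hf : ∀ (χ : AddChar G ℂ) (ω : ℂ), ‖ω‖ ≤ 1 →
          ((∑ t ∈ T, (ω * χ t).re) / T.card - 1 / 4) * ∑ x ∈ D, Real.exp (φ x) ≤
            ∑ x ∈ D, Real.exp (φ x) * (ω * χ x).re
      · exact Or.inl ⟨φ, by simpa using h1.succ 0 0 (by simp), hf⟩
      push Not at hf
      obtain ⟨χ, ω, hω, hlt⟩ := hf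
      refine Or.inr ⟨_, h1.succ χ ω hω, ?_⟩
      set a : ℝ := (∑ t ∈ T, (ω * χ t).re) / T.card with ha
      have hZ : 0 ≤ ∑ x ∈ D, Real.exp (φ x) := sum_nonneg fun _ _ => (Real.exp_pos _).le
      have b1 : ∀ x ∈ D, Real.exp (φ x + (ω * χ x).re / 8) ≤
          Real.exp (φ x) * (1 + 1 / 64) + Real.exp (φ x) * (ω * χ x).re / 8 := by
        intro x _
        have a0 : |(ω * χ x).re| ≤ 1 := by
          refine (Complex.abs_re_le_norm _).trans ?_
          rw [norm_mul, AddChar.norm_apply, mul_one]; exact hω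
        have a1 := abs_le.mp a0
        generalize (ω * χ x).re = u at *
        have a2 := (abs_le.mp (Real.abs_exp_sub_one_sub_id_le (x := u / 8)
          (by rw [abs_le]; constructor <;> linarith [a1.1, a1.2]))).2
        have a3 : Real.exp (u / 8) ≤ 1 + 1 / 64 + u / 8 := by nlinarith [a1.1, a1.2]
        rw [Real.exp_add]
        nlinarith [Real.exp_pos (φ x)]
      have b2 := sum_le_sum b1
      rw [sum_add_distrib, ← sum_mul, ← sum_div] at b2
      have b3 : 1 + 1 / 64 + (a - 1 / 4) / 8 ≤ Real.exp (a / 8 - 1 / 64) := by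
        have := Real.add_one_le_exp (a / 8 - 1 / 64); linarith
      have e : (∑ t ∈ T, (φ t + (ω * χ t).re / 8)) / T.card - ((j + 1 : ℕ) : ℝ) / 64 =
          ((∑ t ∈ T, φ t) / T.card - j / 64) + (a / 8 - 1 / 64) := by
        rw [sum_add_distrib, ← sum_div, ha]; push_cast; ring
      rw [e, Real.exp_add, ← mul_assoc]
      calc _ ≤ (∑ x ∈ D, Real.exp (φ x)) * (1 + 1 / 64 + (a - 1 / 4) / 8) := by linarith
        _ ≤ (∑ x ∈ D, Real.exp (φ x)) * Real.exp (a / 8 - 1 / 64) := by gcongr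
        _ ≤ _ := by gcongr
  rcases key n with h | ⟨φ, -, h⟩
  · exact h
  exfalso
  set a : ℝ := (∑ t ∈ T, φ t) / T.card with ha
  have c1 : ∀ t ∈ T, Real.exp a * (φ t - a + 1) ≤ Real.exp (φ t) := by
    intro t _
    have : Real.exp (φ t) = Real.exp a * Real.exp (φ t - a) := by rw [← Real.exp_add]; simp
    rw [this]
    exact mul_le_mul_of_nonneg_left (Real.add_one_le_exp _) (Real.exp_pos _).le
  have c2 := (sum_le_sum c1).trans
    (sum_le_sum_of_subset_of_nonneg hTD fun _ _ _ => (Real.exp_pos _).le)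
  have c3 : ∑ t ∈ T, Real.exp a * (φ t - a + 1) = Real.exp a * T.card := by
    rw [← mul_sum, sum_add_distrib, sum_sub_distrib]
    simp only [sum_const, nsmul_eq_mul, mul_one]
    rw [ha]; field_simp; ring
  rw [c3] at c2
  have c4 := c2.trans h
  rw [Real.exp_sub, ← mul_div_assoc, le_div_iff₀ (Real.exp_pos _)] at c4
  nlinarith [Real.exp_pos a]

/-- Normalised character sum. -/
noncomputable def hat (T : Finset G) (χ : AddChar G ℂ) : ℂ := (∑ t ∈ T, χ t) / T.card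

lemma mass {ν : Sem G} {d : ℕ} {r ρ η Λ : ℝ} (hd : Dim ν d) (hG : Good ν r ρ η) (hr : 0 < r)
    (hρ : 0 < ρ) (hρ1 : ρ ≤ 1) (hη : 0 ≤ η) (hη1 : η ≤ 1) (hΛ : 5 * d + 1 ≤ Λ) :
    ∑ x, Real.exp (-(Λ / (ρ * r) * max (ν.f x - r) 0)) ≤ 4 * (ball ν r).card := by
  have d0 : (0 : ℝ) ≤ d := by positivity
  let c : G → ℕ := fun x => ⌊max (ν.f x - r) 0 / (ρ * r)⌋₊
  let I : ℕ := univ.sup c + 1
  have pt : ∀ x, Real.exp (-(Λ / (ρ * r) * max (ν.f x - r) 0)) ≤
      ∑ i ∈ range I, Real.exp (-(Λ * i)) * ind (ball ν (r * (1 + (i + 1) * ρ))) x := by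
    intro x
    have c1 : (c x : ℝ) ≤ max (ν.f x - r) 0 / (ρ * r) := Nat.floor_le (by positivity)
    have c2 : max (ν.f x - r) 0 / (ρ * r) < c x + 1 := Nat.lt_floor_add_one _
    refine le_trans ?_ (single_le_sum
      (f := fun i : ℕ => Real.exp (-(Λ * i)) * ind (ball ν (r * (1 + (i + 1) * ρ))) x)
      (fun i _ => mul_nonneg (Real.exp_pos _).le (ind_nonneg _ _))
      (mem_range.mpr (Nat.lt_add_one_iff.mpr (le_sup (f := c) (mem_univ x)))))
    have e : ind (ball ν (r * (1 + (c x + 1) * ρ))) x = 1 := by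
      apply if_pos
      rw [div_lt_iff₀ (by positivity)] at c2
      have := le_max_left (ν.f x - r) 0
      rw [mem_ball]; linarith
    simp only [e, mul_one]
    apply Real.exp_le_exp.mpr
    rw [div_mul_eq_mul_div, mul_div_assoc, neg_le_neg_iff]
    gcongr; linarith
  refine (sum_le_sum fun x _ => pt x).trans ?_
  rw [sum_comm]
  simp only [← mul_sum, sum_ind]
  have tm : ∀ i ∈ range I, Real.exp (-(Λ * i)) * ((ball ν (r * (1 + (i + 1) * ρ))).card : ℝ) ≤
      (1 / 2) ^ i * (2 * (ball ν r).card) := by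
    intro i _
    have b0 := ball_pos ν hr.le
    rcases Nat.eq_zero_or_pos i with rfl | hi
    · simpa using hG.plus hr.le hρ.le hη hη1 le_rfl
    have i1 : (1 : ℝ) ≤ i := by exact_mod_cast hi
    have a1 := hd.card_le (R := r * (1 + (i + 1) * ρ)) hr
      (le_mul_of_one_le_right hr.le (by nlinarith))
    have a2 : 12 * (r * (1 + (i + 1) * ρ)) / r ≤ Real.exp (5 * i) := by
      have e1 : 12 * (r * (1 + (i + 1) * ρ)) / r = 12 * (1 + (i + 1) * ρ) := by field_simp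
      have e2 : (36 : ℝ) ≤ Real.exp 4 := by
        have h1 : (2.7 : ℝ) ≤ Real.exp 1 := by have := Real.exp_one_gt_d9; linarith
        have h2 : Real.exp 4 = Real.exp 1 ^ 4 := by rw [← Real.exp_nat_mul]; norm_num
        rw [h2]
        calc (36 : ℝ) ≤ 2.7 ^ 4 := by norm_num
          _ ≤ _ := by gcongr
      have e3 : Real.exp 4 * Real.exp i ≤ Real.exp (5 * i) := by
        rw [← Real.exp_add]; apply Real.exp_le_exp.mpr; linarith
      have e4 := Real.add_one_le_exp (i : ℝ)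
      rw [e1]
      nlinarith
    have a3 : Real.exp (-(Λ * i)) * Real.exp (5 * i) ^ d ≤ (1 / 2) ^ i := by
      rw [← Real.exp_nat_mul, ← Real.exp_add]
      calc _ ≤ Real.exp (i * (-1)) := by apply Real.exp_le_exp.mpr; nlinarith
        _ = Real.exp (-1) ^ i := Real.exp_nat_mul _ _
        _ ≤ _ := by gcongr; exact Real.exp_neg_one_lt_half.le
    calc _ ≤ Real.exp (-(Λ * i)) * (Real.exp (5 * i) ^ d * (ball ν r).card) := by
          gcongr
          exact a1.trans (by gcongr)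
      _ ≤ (1 / 2) ^ i * (ball ν r).card := by rw [← mul_assoc]; gcongr
      _ ≤ _ := by gcongr; linarith
  refine (sum_le_sum tm).trans ?_
  rw [← sum_mul]
  have := sum_geometric_two_le I
  have b0 := ball_pos ν hr.le
  nlinarith

lemma chang {ν : Sem G} {d : ℕ} {r ρ η Λ : ℝ} (hd : Dim ν d) (hG : Good ν r ρ η) (hr : 0 < r)
    (hρ : 0 < ρ) (hρ1 : ρ ≤ 1) (hη : 0 ≤ η) (hη1 : η ≤ 1) (hΛ : 5 * d + 1 ≤ Λ)
    (T : Finset G) (hTD : T ⊆ ball ν r) (hT : T.Nonempty) (n : ℕ)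
    (hn : 4 * ((ball ν r).card : ℝ) < Real.exp (n / 64) * T.card) :
    ∃ μ : Sem G, Dim μ (2 * n) ∧ (∀ x, μ.f x ≤ 2) ∧ ∀ χ : AddChar G ℂ, 1 / 2 ≤ ‖hat T χ‖ →
      ∀ (y : G) (σ : ℝ), ν.f y ≤ σ * ρ * r → μ.f y ≤ σ → (8 * Λ + n) * σ ≤ 8 →
        ‖χ y - 1‖ ≤ (8 * Λ + n) * σ := by
  have d0 : (0 : ℝ) ≤ d := by positivity
  have Λ0 : 0 ≤ Λ := by linarith
  obtain ⟨φ, ⟨μ, h1, h2, h4⟩, h5⟩ := descent univ T (subset_univ _) hT n
    (fun y => Λ / (ρ * r) * ν.f y) (fun x => -(Λ / (ρ * r) * max (ν.f x - r) 0)) (fun x y => by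
      rw [neg_sub_neg, ← mul_sub, abs_mul, abs_of_nonneg (by positivity)]
      gcongr
      refine (abs_max_sub_max_le_abs _ _ _).trans ?_
      have a1 := ν.add x y
      have a2 := ν.sub (x + y) y
      rw [add_sub_cancel_right] at a2
      rw [abs_le]; constructor <;> linarith)
    (fun t ht => by
      have := mem_ball.mp (hTD ht)
      rw [max_eq_right (by linarith)]; simp)
    (mass hd hG hr hρ hρ1 hη hη1 hΛ) hn
  refine ⟨μ, h1, h2, fun χ hχ y σ hy hμ hσ => ?_⟩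
  have hT0 : (0 : ℝ) < T.card := by exact_mod_cast hT.card_pos
  obtain ⟨ω, hω, hω'⟩ := Complex.exists_norm_eq_mul_self (hat T χ)
  have a1 := h5 χ ω hω.le
  have a2 : (∑ t ∈ T, (ω * χ t).re) / T.card = ‖hat T χ‖ := by
    have := congrArg Complex.re hω'
    rw [Complex.ofReal_re] at this
    rw [this, hat, ← mul_div_assoc, mul_sum, Complex.div_natCast_re, Complex.re_sum]
  rw [a2] at a1
  set Z := ∑ x, Real.exp (φ x) with hZ
  set F : G → ℂ := fun x => (Real.exp (φ x) : ℂ) * χ x with hF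
  have hZ0 : 0 < Z := sum_pos (fun _ _ => Real.exp_pos _) univ_nonempty
  have a3 : Z / 4 ≤ ‖∑ x, F x‖ := by
    have : ∑ x, Real.exp (φ x) * (ω * χ x).re = (ω * ∑ x, F x).re := by
      rw [mul_sum, Complex.re_sum]
      refine sum_congr rfl fun x _ => ?_
      rw [← Complex.re_ofReal_mul]; congr 1; simp only [hF]; ring
    rw [this] at a1
    have b := (Complex.re_le_norm (ω * ∑ x, F x))
    rw [norm_mul, hω, one_mul] at b
    nlinarith
  have a5 : ‖∑ x, (χ y * F x - F (x + y))‖ ≤ (8 * Λ + n) * σ / 4 * Z := by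
    rw [hZ, mul_sum]
    refine (norm_sum_le _ _).trans (sum_le_sum fun x _ => ?_)
    have e : χ y * F x - F (x + y) =
        -((Real.exp (φ x) * (Real.exp (φ (x + y) - φ x) - 1) : ℝ) * χ (x + y)) := by
      simp only [hF]
      rw [mul_sub, ← Real.exp_add, AddChar.map_add_eq_mul]
      simp only [add_sub_cancel, mul_one, Complex.ofReal_sub]
      ring
    have u1 : |φ (x + y) - φ x| ≤ (8 * Λ + n) * σ / 8 := by
      refine (h4 x y).trans ?_
      have : (n : ℝ) / 8 * μ.f y ≤ n / 8 * σ := by gcongr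
      have : Λ / (ρ * r) * ν.f y ≤ Λ * σ := by
        calc _ ≤ Λ / (ρ * r) * (σ * ρ * r) := by gcongr
          _ = _ := by field_simp
      linarith
    have u2 := Real.abs_exp_sub_one_le (u1.trans (by linarith))
    rw [e, norm_neg, norm_mul, AddChar.norm_apply, mul_one, Complex.norm_real, Real.norm_eq_abs,
      abs_mul, abs_of_pos (Real.exp_pos _), mul_comm]
    gcongr
    linarith
  have a6 : (χ y - 1) * ∑ x, F x = ∑ x, (χ y * F x - F (x + y)) := by
    have := Equiv.sum_comp (Equiv.addRight y) F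
    simp only [Equiv.coe_addRight] at this
    rw [sum_sub_distrib, ← mul_sum, this]; ring
  rw [← a6, norm_mul] at a5
  apply le_of_mul_le_mul_right _ (show 0 < Z / 4 by positivity)
  nlinarith [mul_le_mul_of_nonneg_left a3 (norm_nonneg (χ y - 1))]

end Pool.Agent.Lib.MP_574c26_nt.KM
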