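import Pool.Agent.Lib.MP_574c26_nt.KM4

/-!
Fourier bootstrapping: a Bohr set of uniform almost periods of a threefold convolution.
-/

set_option autoImplicit false
set_option linter.unusedSectionVars false
set_option linter.unusedVariables false

open Finset

namespace Pool.Agent.Lib.MP_574c26_nt.KM

variable {G : Type} [AddCommGroup G] [Fintype G] [DecidableEq G]

lemma sum_neg_conj (A : Finset G) (χ : AddChar G ℂ) :
    ∑ a ∈ A, χ (-a) = (starRingEnd ℂ) (∑ a ∈ A, χ a) := by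
  simp only [map_sum, AddChar.map_neg_eq_conj]

lemma parseval (A : Finset G) :
    ∑ χ : AddChar G ℂ, ‖∑ a ∈ A, χ a‖ ^ 2 = Fintype.card G * A.card := by
  have h : ∑ χ : AddChar G ℂ, ((‖∑ a ∈ A, χ a‖ ^ 2 : ℝ) : ℂ) = Fintype.card G * A.card := by
    have e : ∀ χ : AddChar G ℂ, ((‖∑ a ∈ A, χ a‖ ^ 2 : ℝ) : ℂ) = ∑ a ∈ A, ∑ b ∈ A, χ (a - b) := by
      intro χ
      rw [Complex.ofReal_pow, ← Complex.mul_conj', ← sum_neg_conj, sum_mul_sum]
      simp only [sub_eq_add_neg, AddChar.map_add_eq_mul]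
    simp only [e]
    rw [sum_comm]
    have : ∀ a ∈ A, ∑ χ : AddChar G ℂ, ∑ b ∈ A, χ (a - b) = Fintype.card G := by
      intro a ha
      rw [sum_comm]
      simp only [AddChar.sum_apply_eq_ite, sub_eq_zero]
      rw [sum_ite_eq, if_pos ha]
    rw [sum_congr rfl this, sum_const, nsmul_eq_mul, mul_comm]
  exact_mod_cast h

lemma ind_fourier (S : Finset G) (x : G) :
    (ind S x : ℂ) = ∑ χ : AddChar G ℂ, (∑ s ∈ S, χ (-s)) / Fintype.card G * χ x := by
  have hN : (Fintype.card G : ℂ) ≠ 0 := by exact_mod_cast Fintype.card_ne_zero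
  have e : ∀ χ : AddChar G ℂ, (∑ s ∈ S, χ (-s)) / Fintype.card G * χ x =
      (∑ s ∈ S, χ (x - s)) / Fintype.card G := by
    intro χ
    rw [div_mul_eq_mul_div, sum_mul]
    congr 1
    refine sum_congr rfl fun s _ => ?_
    rw [sub_eq_neg_add, AddChar.map_add_eq_mul]
  simp only [e]
  rw [← sum_div, sum_comm]
  simp only [AddChar.sum_apply_eq_ite, sub_eq_zero]
  rw [sum_ite_eq]
  unfold ind
  split_ifs <;> simp [hN]

lemma norm_hat_le (T : Finset G) (χ : AddChar G ℂ) : ‖hat T χ‖ ≤ 1 := by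
  unfold hat
  rw [norm_div, Complex.norm_natCast]
  apply div_le_one_of_le₀ _ (by positivity)
  refine (norm_sum_le _ _).trans ?_
  simp [AddChar.norm_apply]

lemma dc_fourier (A : Finset G) (w : G) :
    (dc (ind A) w : ℂ) =
      ∑ χ : AddChar G ℂ, ((‖∑ a ∈ A, χ a‖ ^ 2 / Fintype.card G : ℝ) : ℂ) * χ w := by
  unfold dc
  push_cast
  have e : ∀ z, (ind A z : ℂ) * ind A (z + w) = ∑ χ : AddChar G ℂ,
      (∑ s ∈ A, χ (-s)) / Fintype.card G * χ w * (if z ∈ A then χ z else 0) := by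
    intro z
    rw [ind_fourier A (z + w), mul_sum]
    refine sum_congr rfl fun χ _ => ?_
    rw [AddChar.map_add_eq_mul]
    unfold ind
    split_ifs <;> simp
    ring
  simp only [e]
  rw [sum_comm]
  refine sum_congr rfl fun χ _ => ?_
  rw [← mul_sum, sum_ite_mem, univ_inter, ← Complex.mul_conj', sum_neg_conj]; ring

/-- Average of `F` over `y + A₁ - A₂`. -/
noncomputable def av (A₁ A₂ : Finset G) (F : G → ℝ) (y : G) : ℝ :=
  (∑ a ∈ A₁, ∑ b ∈ A₂, F (y + (a - b))) / (A₁.card * A₂.card)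

lemma av_four (A₁ A₂ : Finset G) (F : G → ℝ) (c : AddChar G ℂ → ℂ)
    (h : ∀ y, (F y : ℂ) = ∑ χ : AddChar G ℂ, c χ * χ y) (y : G) :
    (av A₁ A₂ F y : ℂ) =
      ∑ χ : AddChar G ℂ, c χ * (hat A₁ χ * (starRingEnd ℂ) (hat A₂ χ)) * χ y := by
  unfold av
  push_cast
  simp only [h]
  simp only [sum_comm (s := A₂) (t := (univ : Finset (AddChar G ℂ)))]
  rw [sum_comm, sum_div]
  refine sum_congr rfl fun χ _ => ?_
  have : ∑ a ∈ A₁, ∑ b ∈ A₂, c χ * χ (y + (a - b)) =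
      c χ * ((∑ a ∈ A₁, χ a) * (∑ b ∈ A₂, χ (-b))) * χ y := by
    rw [sum_mul_sum, mul_sum, sum_mul]
    refine sum_congr rfl fun a _ => ?_
    rw [mul_sum, sum_mul]
    refine sum_congr rfl fun b _ => ?_
    rw [sub_eq_add_neg, AddChar.map_add_eq_mul, AddChar.map_add_eq_mul]; ring
  rw [this, hat, hat, map_div₀, ← sum_neg_conj, map_natCast]; ring

lemma le_av {A₁ A₂ : Finset G} (h1 : A₁.Nonempty) (h2 : A₂.Nonempty) {F : G → ℝ} {y : G} {M : ℝ}
    (h : ∀ a ∈ A₁, ∀ b ∈ A₂, M ≤ F (y + (a - b))) : M ≤ av A₁ A₂ F y := by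
  have a1 : (0 : ℝ) < A₁.card := by exact_mod_cast h1.card_pos
  have a2 : (0 : ℝ) < A₂.card := by exact_mod_cast h2.card_pos
  unfold av
  rw [le_div_iff₀ (by positivity)]
  refine le_trans (le_of_eq ?_) (sum_le_sum fun a ha => sum_le_sum fun b hb => h a ha b hb)
  simp only [sum_const, nsmul_eq_mul]; ring

lemma av_sum {A₁ A₂ : Finset G} (h1 : A₁.Nonempty) (h2 : A₂.Nonempty) {F : G → ℝ} (Y : Finset G)
    {M : ℝ} (h : ∀ x, ∑ y ∈ Y, F (x + y) ≤ M) (x : G) : ∑ y ∈ Y, av A₁ A₂ F (x + y) ≤ M := by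
  have a1 : (0 : ℝ) < A₁.card := by exact_mod_cast h1.card_pos
  have a2 : (0 : ℝ) < A₂.card := by exact_mod_cast h2.card_pos
  unfold av
  rw [← sum_div, div_le_iff₀ (by positivity), sum_comm]
  simp only [sum_comm (s := Y)]
  refine le_trans (sum_le_sum fun a ha => sum_le_sum fun b hb => (?_ : _ ≤ M)) (le_of_eq ?_)
  · simpa only [add_right_comm x] using h (x + (a - b))
  · simp only [sum_const, nsmul_eq_mul]; ring

lemma Phi_eq (S A₁ A₂ : Finset G) (y : G) : Phi S A₁ A₂ y = av A₁ A₂ (ind S) y := by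
  unfold Phi gA av
  rw [← sum_div, div_div, mul_comm]
  congr 1
  refine sum_congr rfl fun a _ => sum_congr rfl fun b _ => ?_
  congr 1; abel

/-- Almost periodicity relative to a gauge, with bootstrapping against a majorant. -/
theorem almost_periodic {ν : Sem G} {d : ℕ} {r ρ η σ K ε Λ : ℝ} (hd : Dim ν d)
    (hG : Good ν r ρ η) (hr : 0 < r) (hρ : 0 < ρ) (hρ1 : ρ ≤ 1) (hη : 0 ≤ η) (hη1 : η ≤ 1)
    (hΛ : 5 * d + 1 ≤ Λ) (S A₁ A₂ X W : Finset G) (h1 : A₁.Nonempty) (h2 : A₂.Nonempty)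
    (k m n : ℕ) (hm : 0 < m) (hε : 0 < ε) (hε1 : ε ≤ 1) (hσ0 : 0 ≤ σ)
    (hX : ∀ s ∈ S, ∀ a ∈ A₂, s + a ∈ X) (hXK : (X.card : ℝ) ≤ K * A₁.card)
    (hW : ∀ a ∈ A₂, ∀ t ∈ ball ν r, a + t ∈ W) (hWK : (W.card : ℝ) ≤ K * A₂.card)
    (hmK : 4 * K * Real.exp (-(m * ε ^ 2 / 4)) ≤ ε)
    (hn : 8 * K ^ m < Real.exp (n / 64)) (hσ : (8 * Λ + n) * σ ≤ 8)
    (H : G → ℝ) (c : AddChar G ℂ → ℂ) (hH : ∀ y, (H y : ℂ) = ∑ χ : AddChar G ℂ, c χ * χ y)
    {lam L : ℝ} (hl : 0 ≤ lam) (hc : ∑ χ : AddChar G ℂ, ‖c χ‖ ≤ L)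
    (hle : ∀ y, lam * av A₁ A₂ (ind S) y ≤ H y) :
    ∃ μ : Sem G, Dim μ (2 * n) ∧ (∀ x, μ.f x ≤ 2) ∧ ∀ (Y : Finset G) (M : ℝ),
      (∀ y ∈ Y, ν.f y ≤ σ * ρ * r ∧ μ.f y ≤ σ) → (∀ x, ∑ y ∈ Y, H (x + y) ≤ M) →
      (lam * (av A₁ A₂ (ind S) 0 - 4 * k * ε) - L * ((8 * Λ + n) * σ + 2 / 4 ^ k)) * Y.card ≤ M := by
  obtain ⟨T, hTD, hT1, hT2⟩ := croot_sisask S A₁ A₂ X (ball ν r) W h1 h2 (ball_nonempty ν hr.le) m
    hm hε hε1 hX hXK hW hWK hmK
  simp only [Phi_eq] at hT2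
  have hT : T.Nonempty := by
    rw [nonempty_iff_ne_empty]
    rintro rfl
    have := ball_pos ν hr.le
    simp only [card_empty, Nat.cast_zero, mul_zero] at hT1
    linarith
  have hT0 : (0 : ℝ) < T.card := by exact_mod_cast hT.card_pos
  obtain ⟨μ, m1, m2, m3⟩ := chang hd hG hr hρ hρ1 hη hη1 hΛ T hTD hT n (by
    have := mul_lt_mul_of_pos_right hn hT0
    linarith)
  refine ⟨μ, m1, m2, fun Y M hY hM => ?_⟩
  have s1 : ∀ j : ℕ, ∀ y, lam * (av A₁ A₂ (ind S) y - 4 * j * ε) ≤ (av T T)^[j] H y := by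
    intro j
    induction j with
    | zero => simpa using hle
    | succ j ih =>
      intro y
      rw [Function.iterate_succ_apply']
      refine le_av hT hT fun t ht t' ht' => le_trans ?_ (ih _)
      have := (abs_le.mp (hT2 y t ht t' ht')).1
      gcongr ?_ * ?_
      push_cast; linarith
  have s2 : ∀ j : ℕ, ∀ y, (((av T T)^[j] H y : ℝ) : ℂ) =
      ∑ χ : AddChar G ℂ, c χ * ((‖hat T χ‖ ^ 2 : ℝ) : ℂ) ^ j * χ y := by
    intro j
    induction j with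
    | zero => simpa using hH
    | succ j ih =>
      intro y
      rw [Function.iterate_succ_apply', av_four T T _ _ ih]
      refine sum_congr rfl fun χ _ => ?_
      rw [Complex.mul_conj', Complex.ofReal_pow]; ring
  have s3 : ∀ j : ℕ, ∀ x, ∑ y ∈ Y, (av T T)^[j] H (x + y) ≤ M := by
    intro j
    induction j with
    | zero => simpa using hM
    | succ j ih =>
      intro x
      simp only [Function.iterate_succ_apply']
      exact av_sum hT hT Y ih x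
  have Λ0 : 0 ≤ Λ := le_trans (by positivity) hΛ
  set E := (8 * Λ + n) * σ + 2 / 4 ^ k with hE
  have hE1 : 0 ≤ (8 * Λ + n) * σ := by positivity
  have hE2 : (0 : ℝ) ≤ 2 / 4 ^ k := by positivity
  have s4 : ∀ y ∈ Y, |(av T T)^[k] H y - (av T T)^[k] H 0| ≤ L * E := by
    intro y hy
    rw [← Real.norm_eq_abs, ← Complex.norm_real, Complex.ofReal_sub, s2, s2, ← sum_sub_distrib]
    refine (norm_sum_le _ _).trans ((sum_le_sum (g := fun χ => ‖c χ‖ * E)
      fun χ _ => ?_).trans ?_)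
    · rw [← mul_sub, AddChar.map_zero_eq_one, mul_assoc, norm_mul, norm_mul, norm_pow,
        Complex.norm_real, Real.norm_eq_abs, abs_of_nonneg (by positivity)]
      gcongr
      by_cases hχ : 1 / 2 ≤ ‖hat T χ‖
      · have b1 := m3 χ hχ y σ (hY y hy).1 (hY y hy).2 hσ
        have b2 : (‖hat T χ‖ ^ 2) ^ k ≤ 1 :=
          pow_le_one₀ (by positivity) (pow_le_one₀ (norm_nonneg _) (norm_hat_le T χ))
        nlinarith [norm_nonneg (χ y - 1)]
      · have b1 : ‖χ y - 1‖ ≤ 2 := chord_le χ y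
        have b2 : (‖hat T χ‖ ^ 2) ^ k ≤ (1 / 4) ^ k := by
          gcongr
          nlinarith [norm_nonneg (hat T χ)]
        have b3 : (‖hat T χ‖ ^ 2) ^ k * ‖χ y - 1‖ ≤ (1 / 4) ^ k * 2 := by gcongr
        have b4 : (1 / 4 : ℝ) ^ k * 2 = 2 / 4 ^ k := by rw [one_div_pow]; ring
        linarith
    · rw [← sum_mul]
      exact mul_le_mul_of_nonneg_right hc (by linarith)
  have s5 := s3 k 0
  simp only [zero_add] at s5
  refine le_trans ?_ s5
  rw [mul_comm, ← nsmul_eq_mul]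
  refine card_nsmul_le_sum _ _ _ fun y hy => ?_
  have := (abs_le.mp (s4 y hy)).1
  have := s1 k 0
  linarith

end Pool.Agent.Lib.MP_574c26_nt.KM
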