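import Pool.Agent.Lib.MP_574c26_nt.KM5

/-!
From few solutions to a large moment of the difference convolution.
-/

set_option autoImplicit false
set_option linter.unusedSectionVars false
set_option linter.unusedVariables false

open Finset

namespace Pool.Agent.Lib.MP_574c26_nt.KM

variable {G : Type} [AddCommGroup G] [Fintype G] [DecidableEq G]

lemma pair_cnt {ν : Sem G} {r ρ η : ℝ} (hG : Good ν r ρ η) (hr : 0 ≤ r) (hρ : 0 ≤ ρ) (hη : 0 ≤ η)
    (X : Finset G) (hX : X ⊆ ball ν r) (τ : G → G)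
    (hτ : ∀ x ∈ ball ν (r * (1 - ρ)), τ x ∈ ball ν r) :
    X.card - η * (ball ν r).card ≤ ∑ z, ind X z * ind (ball ν r) (τ z) ∧
      ∑ z, ind X z * ind (ball ν r) (τ z) ≤ X.card := by
  constructor
  · have h1 := hG.rim hr hρ hη
    have h2 : ∀ z, ind X z - ind (ball ν r \ ball ν (r * (1 - ρ))) z ≤
        ind X z * ind (ball ν r) (τ z) := by
      intro z
      by_cases hz : z ∈ X
      · by_cases hz' : z ∈ ball ν (r * (1 - ρ))
        · have := ind_nonneg (ball ν r \ ball ν (r * (1 - ρ))) z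
          have e : ind (ball ν r) (τ z) = 1 := if_pos (hτ z hz')
          rw [e]; linarith
        · have e : ind (ball ν r \ ball ν (r * (1 - ρ))) z = 1 := if_pos (mem_sdiff.mpr ⟨hX hz, hz'⟩)
          have := mul_nonneg (ind_nonneg X z) (ind_nonneg (ball ν r) (τ z))
          have := ind_le X z
          linarith
      · have e : ind X z = 0 := if_neg hz
        have := ind_nonneg (ball ν r \ ball ν (r * (1 - ρ))) z
        rw [e]; linarith
    have h3 := sum_le_sum (s := univ) fun z _ => h2 z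
    rw [sum_sub_distrib, sum_ind, sum_ind] at h3
    linarith
  · rw [← sum_ind]
    exact sum_le_sum fun z _ => mul_le_of_le_one_right (ind_nonneg _ _) (ind_le _ _)

/-- Balanced function. -/
noncomputable def bal (A B : Finset G) (x : G) : ℝ := ind A x / A.card - ind B x / B.card

lemma pair_approx {ν : Sem G} {r ρ η : ℝ} (hG : Good ν r ρ η) (hr : 0 ≤ r) (hρ : 0 ≤ ρ)
    (hη : 0 ≤ η) (A : Finset G) (hA : A ⊆ ball ν r) (hA0 : A.Nonempty) (σ : G ≃ G)
    (hσ : ∀ x ∈ ball ν (r * (1 - ρ)), σ x ∈ ball ν r)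
    (hσ' : ∀ x ∈ ball ν (r * (1 - ρ)), σ.symm x ∈ ball ν r) :
    |(ball ν r).card * ∑ z, bal A (ball ν r) z * bal A (ball ν r) (σ z) + 1 -
      (ball ν r).card / (A.card : ℝ) ^ 2 * ∑ z, ind A z * ind A (σ z)| ≤
      2 * η * (ball ν r).card / A.card := by
  have a0 : (0 : ℝ) < A.card := by exact_mod_cast hA0.card_pos
  have b0 := ball_pos ν hr
  have ab : (A.card : ℝ) ≤ (ball ν r).card := by exact_mod_cast card_le_card hA
  have h1 := pair_cnt hG hr hρ hη A hA σ hσ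
  have h2 := pair_cnt hG hr hρ hη A hA σ.symm hσ'
  have h3 := pair_cnt hG hr hρ hη _ (Subset.refl _) σ hσ
  have e2 : ∑ z, ind A z * ind (ball ν r) (σ.symm z) = ∑ z, ind (ball ν r) z * ind A (σ z) := by
    rw [← Equiv.sum_comp σ]; simp only [Equiv.symm_apply_apply, mul_comm]
  rw [e2] at h2
  set B := ball ν r
  have e : ∑ z, bal A B z * bal A B (σ z) = (∑ z, ind A z * ind A (σ z)) / (A.card : ℝ) ^ 2 -
      (∑ z, ind A z * ind B (σ z)) / (A.card * B.card) -
      (∑ z, ind B z * ind A (σ z)) / (A.card * B.card) +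
      (∑ z, ind B z * ind B (σ z)) / (B.card : ℝ) ^ 2 := by
    simp only [sum_div, ← sum_sub_distrib, ← sum_add_distrib]
    refine sum_congr rfl fun z _ => ?_
    unfold bal; field_simp; ring
  rw [e]
  generalize ∑ z, ind A z * ind A (σ z) = P₀ at *
  generalize ∑ z, ind A z * ind B (σ z) = P₁ at *
  generalize ∑ z, ind B z * ind A (σ z) = P₂ at *
  generalize ∑ z, ind B z * ind B (σ z) = P₃ at *
  generalize (A.card : ℝ) = a at *
  generalize (B.card : ℝ) = b at *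
  have e3 : b * (P₀ / a ^ 2 - P₁ / (a * b) - P₂ / (a * b) + P₃ / b ^ 2) + 1 - b / a ^ 2 * P₀ =
      ((a - P₁) + (a - P₂) - (b - P₃) * (a / b)) / a := by field_simp; ring
  rw [e3, abs_div, abs_of_pos a0]
  gcongr
  have c1 : a / b ≤ 1 := div_le_one_of_le₀ ab b0.le
  have c2 : 0 ≤ a / b := by positivity
  have c3 : (b - P₃) * (a / b) ≤ η * b := by nlinarith [h3.1, h3.2]
  have c4 : 0 ≤ (b - P₃) * (a / b) := mul_nonneg (by linarith [h3.2]) c2
  have c5 : 0 ≤ η * b := by positivity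
  rw [abs_le]; constructor <;> linarith [h1.1, h1.2, h2.1, h2.2]

lemma pow_trick {h g δ : ℝ} {q : ℕ} (hq : Even q) (hh : 0 ≤ h) (hδ : 0 ≤ δ) (h1 : |g - h| ≤ δ)
    (h2 : (1 + δ) ^ q ≤ 2) : g ^ q ≤ 2 * h ^ q + 2 := by
  have a : |g| ≤ h + δ := by rw [abs_le] at *; constructor <;> linarith [h1.1, h1.2]
  rw [← hq.pow_abs]
  have p0 : 0 ≤ h ^ q := by positivity
  rcases le_total 1 h with b | b
  · calc |g| ^ q ≤ ((1 + δ) * h) ^ q := by gcongr; nlinarith
      _ = (1 + δ) ^ q * h ^ q := mul_pow _ _ _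
      _ ≤ _ := by nlinarith
  · calc |g| ^ q ≤ (1 + δ) ^ q := by gcongr; linarith
      _ ≤ _ := by linarith

lemma swap3 {α β : Type} (s : Finset α) (t : Finset β) (F : α → β → α → ℝ) :
    ∑ a ∈ s, ∑ b ∈ t, ∑ c ∈ s, F a b c = ∑ c ∈ s, ∑ b ∈ t, ∑ a ∈ s, F a b c := by
  rw [sum_comm]
  conv_rhs => rw [sum_comm]
  exact sum_congr rfl fun b _ => sum_comm

lemma moment {ν ν' : Sem G} {r₁ r₂ r₃ r₄ ρ η : ℝ} (hG : Good ν r₁ ρ η) (hr : 0 ≤ r₁) (hρ : 0 ≤ ρ)
    (hη : 0 ≤ η) (hνν : ∀ y, ν.f y ≤ 2 * ν'.f y) (h3 : 0 ≤ r₃) (h4 : 0 ≤ r₄)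
    (k2 : 2 * r₂ ≤ ρ * r₁) (k3 : 2 * (r₃ + r₄) ≤ ρ * r₂) (k4 : 4 * (r₃ + r₄) ≤ ρ * r₁)
    (A C : Finset G) (hA : A ⊆ ball ν r₁) (hA0 : A.Nonempty) (hC : C ⊆ ball ν' r₂)
    (hC1 : ∀ y ∈ C, cv (ind A) y ≤ 1) (p : ℕ) (hp : Even p) (hp2 : 2 ≤ p) (h2 : 0 ≤ r₂)
    (hC2 : ((ball ν' (r₂ * (1 + ρ))).card : ℝ) ≤ 4 ^ p * C.card)
    (hA2 : 4 * ((ball ν r₁).card : ℝ) ≤ (A.card : ℝ) ^ 2)
    (hδ : 2 * η * (ball ν r₁).card / A.card * (17 * p) ≤ 1 / 2) :
    ∃ s, 2 ^ p / 4 * ((ball ν' r₃).card * (ball ν' r₄).card : ℝ) ≤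
      ∑ a ∈ ball ν' r₃, ∑ b ∈ ball ν' r₄,
        ((ball ν r₁).card / (A.card : ℝ) ^ 2 * dc (ind A) (a + s - b)) ^ (17 * p) := by
  have a0 : (0 : ℝ) < A.card := by exact_mod_cast hA0.card_pos
  have b0 := ball_pos ν hr
  set B := ball ν r₁ with hB
  set β : ℝ := (B.card : ℝ) with hβ
  set δ : ℝ := 2 * η * β / A.card with hδd
  have hδ0 : 0 ≤ δ := by positivity
  have hp' : (2 : ℝ) ≤ p := by exact_mod_cast hp2
  have hδ1 : δ ≤ 1 / 4 := by nlinarith
  have hδ2 : (1 + δ) ^ (17 * p) ≤ 2 := by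
    calc (1 + δ) ^ (17 * p) ≤ Real.exp δ ^ (17 * p) := by
          gcongr; linarith [Real.add_one_le_exp δ]
      _ = Real.exp ((17 * p : ℕ) * δ) := (Real.exp_nat_mul _ _).symm
      _ ≤ Real.exp (1 / 2) := by apply Real.exp_le_exp.mpr; push_cast; linarith
      _ ≤ 2 := by
          have := (abs_le.mp (Real.abs_exp_sub_one_sub_id_le (x := 1 / 2)
            (by rw [abs_le]; constructor <;> norm_num))).2
          linarith
  set f := bal A B with hf
  have s1 : ∀ y ∈ C, (1 / 2 : ℝ) ^ p ≤ (β * cv f y) ^ p := by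
    intro y hy
    have hy1 : ν.f y ≤ ρ * r₁ := by have := hνν y; have := mem_ball.mp (hC hy); linarith
    have hm : ∀ x ∈ ball ν (r₁ * (1 - ρ)), y - x ∈ ball ν r₁ := fun x hx => by
      have := ν.sub y x; rw [mem_ball] at *; nlinarith
    have := pair_approx hG hr hρ hη A hA hA0 (Equiv.subLeft y) hm (fun x hx => by
      simpa [sub_eq_neg_add] using hm x hx)
    simp only [Equiv.subLeft_apply] at this
    have c1 : β / (A.card : ℝ) ^ 2 * cv (ind A) y ≤ 1 / 4 := by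
      have : β / (A.card : ℝ) ^ 2 ≤ 1 / 4 := by rw [div_le_iff₀ (by positivity)]; linarith
      have := mul_le_of_le_one_right (show 0 ≤ β / (A.card : ℝ) ^ 2 by positivity) (hC1 y hy)
      linarith
    have c2 : β * cv f y ≤ -(1 / 2) := by
      have := (abs_le.mp this).2
      unfold cv at *
      linarith
    rw [← hp.neg_pow (β * cv f y)]
    gcongr; linarith
  let D := ball ν' r₃ ×ˢ ball ν' r₄
  let u : G × G → G := fun i => i.1 + i.2
  have hw : ∀ i ∈ D, ∀ j ∈ D, ν'.f (u i - u j) ≤ 2 * (r₃ + r₄) := by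
    intro i hi j hj
    obtain ⟨i1, i2⟩ := mem_product.mp hi
    obtain ⟨j1, j2⟩ := mem_product.mp hj
    have := ν'.sub (u i) (u j)
    have := ν'.add i.1 i.2
    have := ν'.add j.1 j.2
    rw [mem_ball] at *
    simp only [u] at *
    linarith
  have hDc : (D.card : ℝ) = (ball ν' r₃).card * (ball ν' r₄).card := by simp [D]
  have hD0 : (0 : ℝ) < D.card := by rw [hDc]; exact mul_pos (ball_pos _ h3) (ball_pos _ h4)
  have s2 : ∃ t, (1 / 8 : ℝ) ^ p * (D.card * D.card) ≤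
      ∑ i ∈ D, ∑ j ∈ D, (β * cv f (t + (u i - u j))) ^ p := by
    have hne := ball_nonempty ν' (show 0 ≤ r₂ * (1 + ρ) by positivity)
    have t1 : ∀ i ∈ D, ∀ j ∈ D, (1 / 8 : ℝ) ^ p * (ball ν' (r₂ * (1 + ρ))).card ≤
        ∑ t ∈ ball ν' (r₂ * (1 + ρ)), (β * cv f (t + (u i - u j))) ^ p := by
      intro i hi j hj
      calc (1 / 8 : ℝ) ^ p * (ball ν' (r₂ * (1 + ρ))).card ≤ (1 / 8 : ℝ) ^ p * (4 ^ p * C.card) := by
            gcongr
        _ = C.card • (1 / 2 : ℝ) ^ p := by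
            rw [← mul_assoc, ← mul_pow, nsmul_eq_mul, mul_comm]; norm_num
        _ ≤ ∑ y ∈ C, (β * cv f y) ^ p := card_nsmul_le_sum _ _ _ s1
        _ = ∑ t ∈ C.image (· - (u i - u j)), (β * cv f (t + (u i - u j))) ^ p := by
            rw [sum_image fun a _ b _ h => by simpa using h]
            simp only [sub_add_cancel]
        _ ≤ _ := by
            refine sum_le_sum_of_subset_of_nonneg ?_ fun _ _ _ => hp.pow_nonneg _
            intro t ht
            obtain ⟨y, hy, rfl⟩ := mem_image.mp ht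
            have := ν'.sub y (u i - u j)
            have := hw i hi j hj
            have := mem_ball.mp (hC hy)
            rw [mem_ball]; nlinarith
    obtain ⟨t, -, ht⟩ := exists_le_of_sum_le (f := fun _ => (1 / 8 : ℝ) ^ p * (D.card * D.card))
      (g := fun t => ∑ i ∈ D, ∑ j ∈ D, (β * cv f (t + (u i - u j))) ^ p) hne (by
        rw [sum_comm]
        simp only [sum_comm (s := ball ν' (r₂ * (1 + ρ))) (t := D)]
        refine le_trans (le_of_eq ?_) (sum_le_sum fun i hi => sum_le_sum fun j hj => t1 i hi j hj)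
        simp only [sum_const, nsmul_eq_mul]; ring)
    exact ⟨t, ht⟩
  obtain ⟨t, s2⟩ := s2
  have s3 : (1 / 8 : ℝ) ^ p * (D.card * D.card) ≤ ∑ i ∈ D, ∑ j ∈ D, (β * dc f (u i - u j)) ^ p := by
    refine s2.trans ?_
    simp only [mul_pow, ← mul_sum]
    exact mul_le_mul_of_nonneg_left (cv_le_dc D u f t p) (by positivity)
  have s4 := unbalance D (fun i j => β * dc f (u i - u j)) p (fun j => by
    simp only [mul_pow, ← mul_sum]
    exact mul_nonneg (by positivity) (dc_nonneg D u f j))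
  have s5 : ∑ i ∈ D, ∑ j ∈ D, (β * dc f (u i - u j) + 1) ^ (17 * p) ≤
      ∑ i ∈ D, ∑ j ∈ D, (2 * (β / (A.card : ℝ) ^ 2 * dc (ind A) (u i - u j)) ^ (17 * p) + 2) := by
    refine sum_le_sum fun i hi => sum_le_sum fun j hj => ?_
    have hy1 : ν.f (u i - u j) ≤ ρ * r₁ := by have := hνν (u i - u j); have := hw i hi j hj; linarith
    have := pair_approx hG hr hρ hη A hA hA0 (Equiv.addRight (u i - u j)) (fun x hx => by
      have := ν.add x (u i - u j); rw [mem_ball] at *; simp only [Equiv.coe_addRight]; nlinarith)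
      (fun x hx => by
        have := ν.sub x (u i - u j); rw [mem_ball] at *
        simp only [Equiv.addRight_symm, Equiv.coe_addRight, ← sub_eq_add_neg]; nlinarith)
    simp only [Equiv.coe_addRight] at this
    exact pow_trick (hp.mul_left 17) (mul_nonneg (by positivity)
      (sum_nonneg fun z _ => mul_nonneg (ind_nonneg _ _) (ind_nonneg _ _))) hδ0 this hδ2
  simp only [sum_add_distrib, ← mul_sum, sum_const, nsmul_eq_mul] at s5
  have s6 : 2 ^ p / 4 * (D.card * D.card : ℝ) ≤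
      ∑ i ∈ D, ∑ j ∈ D, (β / (A.card : ℝ) ^ 2 * dc (ind A) (u i - u j)) ^ (17 * p) := by
    have e : (16 : ℝ) ^ p * (1 / 8) ^ p = 2 ^ p := by rw [← mul_pow]; norm_num
    have e2 : (4 : ℝ) ≤ 2 ^ p := by
      calc (4 : ℝ) = 2 ^ 2 := by norm_num
        _ ≤ _ := pow_le_pow_right₀ (by norm_num) hp2
    have := mul_le_mul_of_nonneg_left s3 (show (0 : ℝ) ≤ 16 ^ p by positivity)
    rw [← mul_assoc, e] at this
    nlinarith [mul_pos hD0 hD0]
  have hDne : D.Nonempty := (ball_nonempty _ h3).product (ball_nonempty _ h4)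
  obtain ⟨c, -, hc⟩ := exists_le_of_sum_le (f := fun _ => 2 ^ p / 4 * (D.card : ℝ))
    (g := fun c => ∑ i ∈ D,
      (β / (A.card : ℝ) ^ 2 * dc (ind A) (i.1 + (c.2 - c.1) - i.2)) ^ (17 * p)) hDne (by
      rw [sum_const, nsmul_eq_mul]
      refine le_trans (le_of_eq (by ring)) (s6.trans (le_of_eq ?_))
      simp only [D, sum_product, u]
      rw [swap3]
      refine sum_congr rfl fun a' _ => sum_congr rfl fun b _ => sum_congr rfl fun a _ =>
        sum_congr rfl fun b' _ => ?_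
      congr 3; abel)
  refine ⟨c.2 - c.1, ?_⟩
  rw [hDc, sum_product] at hc
  exact hc

end Pool.Agent.Lib.MP_574c26_nt.KM
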