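import Pool.Agent.Lib.MP_574c26_nt.KM6

/-!
The density increment step.
-/

set_option autoImplicit false
set_option linter.unusedSectionVars false
set_option linter.unusedVariables false

open Finset

namespace Pool.Agent.Lib.MP_574c26_nt.KM

variable {G : Type} [AddCommGroup G] [Fintype G] [DecidableEq G]

/-- Admissible parameters. -/
structure Ok (p k m n D : ℕ) (η ρ σ K ε : ℝ) : Prop where
  pe : Even p
  p32 : 32 ≤ p
  ρ0 : 0 < ρ
  hρ : ρ * (64 * (D + 1)) ≤ η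
  hη : η * 2 ^ (p + 2) * (17 * p) ≤ 1 / 2
  K0 : 0 < K
  hK : 2 * ((2 : ℝ) ^ (2 * p + 3)) ^ (17 * p) ≤ K
  m0 : 0 < m
  ε0 : 0 < ε
  ε1 : ε ≤ 1
  hm : 4 * K * Real.exp (-(m * ε ^ 2 / 4)) ≤ ε
  hn : 8 * K ^ m < Real.exp (n / 64)
  σ0 : 0 < σ
  σ1 : σ ≤ 1
  err : 5 * k * ε + 2 * 2 ^ p * ((8 * (5 * D + 1) + n) * σ + 2 / 4 ^ k) ≤ 1 / 1000

section
variable {p k m n D : ℕ} {η ρ σ K ε : ℝ}

lemma Ok.η0 (h : Ok p k m n D η ρ σ K ε) : 0 < η :=
  lt_of_lt_of_le (by have := h.ρ0; positivity) h.hρ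

lemma Ok.ηs (h : Ok p k m n D η ρ σ K ε) : 4000 * η * 2 ^ p ≤ 1 := by
  have h1 := h.hη
  have h2 : (32 : ℝ) ≤ p := by exact_mod_cast h.p32
  have h3 : 0 < η * 2 ^ p := by have := h.η0; positivity
  rw [pow_add] at h1
  nlinarith

lemma Ok.η1 (h : Ok p k m n D η ρ σ K ε) : η ≤ 1 := by
  have h1 := h.ηs
  have h2 : (1 : ℝ) ≤ 2 ^ p := one_le_pow₀ (by norm_num)
  nlinarith [h.η0]

lemma Ok.ρ1 (h : Ok p k m n D η ρ σ K ε) : ρ ≤ 1 / 64 := by
  have h1 := h.hρ
  have h2 : (0 : ℝ) ≤ D := by positivity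
  nlinarith [h.η1, h.ρ0]

lemma Ok.next (h : Ok p k m n D η ρ σ K ε) {ν : Sem G} {d : ℕ} (hd : Dim ν d) (hdD : d ≤ D)
    {r : ℝ} (hr : 0 < r) : ∃ s, 0 < s ∧ ρ * r / 8 ≤ s ∧ s ≤ ρ * r / 4 ∧ Good ν s ρ η := by
  have := h.ρ0
  obtain ⟨s, h1, h2, h3⟩ := exists_good (hd.mono hdD) h.ρ0 h.η1 h.hρ
    (r := ρ * r / 4) (by positivity)
  exact ⟨s, lt_of_lt_of_le (by positivity) h1, by linarith, h2, h3⟩

set_option maxHeartbeats 2000000 in
lemma increment (h : Ok p k m n D η ρ σ K ε) {ν ν' : Sem G} {r₁ r₂ r₃ r₄ r₅ : ℝ} (hd : Dim ν' D)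
    (hνν : ∀ y, ν.f y ≤ 2 * ν'.f y) (p1 : 0 < r₁) (p2 : 0 < r₂) (p3 : 0 < r₃) (p4 : 0 < r₄)
    (p5 : 0 < r₅) (k2 : r₂ ≤ ρ * r₁ / 4) (k3 : r₃ ≤ ρ * r₂ / 4) (k4 : r₄ ≤ ρ * r₃ / 4)
    (k5 : r₅ ≤ ρ * r₄ / 4) (g1 : Good ν r₁ ρ η) (g2 : Good ν' r₂ ρ η) (g3 : Good ν' r₃ ρ η)
    (g4 : Good ν' r₄ ρ η) (g5 : Good ν' r₅ ρ η) (A C : Finset G) (hA : A ⊆ ball ν r₁)
    (hC : C ⊆ ball ν' r₂) (hC1 : ∀ y ∈ C, cv (ind A) y ≤ 1)
    (hA1 : ((ball ν r₁).card : ℝ) ≤ 2 * 2 ^ p * A.card)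
    (hC2 : ((ball ν' r₂).card : ℝ) ≤ 2 * 2 ^ p * C.card)
    (hbig : 16 * 4 ^ p ≤ ((ball ν r₁).card : ℝ)) :
    ∃ μ : Sem G, Dim μ (2 * n) ∧ (∀ x, μ.f x ≤ 2) ∧ ∀ Y : Finset G,
      (∀ y ∈ Y, ν'.f y ≤ σ * ρ * r₅ ∧ μ.f y ≤ σ) →
      ∃ x, 1.017 * (A.card / (ball ν r₁).card) * Y.card ≤ ∑ y ∈ Y, ind A (x + y) := by
  have ρ0 := h.ρ0
  have ρ1 := h.ρ1
  have η0 := h.η0
  have η1 := h.η1
  have b0 := ball_pos ν p1.le
  have hp : (32 : ℝ) ≤ p := by exact_mod_cast h.p32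
  have t0 : (0 : ℝ) < 2 ^ p := by positivity
  have a0 : (0 : ℝ) < A.card := by nlinarith
  have hA0 : A.Nonempty := by rw [← card_pos]; exact_mod_cast a0
  have l2 : r₂ ≤ r₁ / 4 := by nlinarith
  have l3 : r₃ ≤ r₂ / 4 := by nlinarith
  have l4 : r₄ ≤ r₃ / 4 := by nlinarith
  have l5 : r₅ ≤ r₄ / 4 := by nlinarith
  have e4 : (4 : ℝ) ^ p = 2 ^ p * 2 ^ p := by rw [← mul_pow]; norm_num
  have t4 : (8 : ℝ) < 2 ^ p := by
    calc (8 : ℝ) < 2 ^ 4 := by norm_num
      _ ≤ _ := pow_le_pow_right₀ (by norm_num) (by have := h.p32; omega)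
  set β : ℝ := ((ball ν r₁).card : ℝ) with hβ
  set a : ℝ := (A.card : ℝ) with ha
  have hA2 : 4 * β ≤ a ^ 2 := by
    have : β * β ≤ (2 * 2 ^ p * a) * (2 * 2 ^ p * a) := by gcongr
    have : (16 * (2 ^ p * 2 ^ p)) * β ≤ β * β := by rw [← e4]; gcongr
    have h3 : (4 * (2 ^ p * 2 ^ p)) * (4 * β) ≤ (4 * (2 ^ p * 2 ^ p)) * a ^ 2 := by nlinarith
    exact le_of_mul_le_mul_left h3 (by positivity)
  obtain ⟨s, hs⟩ := moment g1 p1.le ρ0.le η0.le hνν p3.le p4.le (r₂ := r₂) (by nlinarith)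
    (by nlinarith) (by nlinarith) A C hA hA0 hC hC1 p h.pe (by have := h.p32; omega) p2.le (by
      have := g2.plus p2.le ρ0.le η0.le η1 le_rfl
      have c0 : (0 : ℝ) ≤ C.card := by positivity
      rw [e4]; nlinarith [mul_nonneg c0 t0.le]) hA2 (by
      have h1 := h.hη
      have : 2 * η * β / a ≤ η * 2 ^ (p + 2) := by
        rw [div_le_iff₀ a0, pow_add]; nlinarith
      nlinarith)
  have B3 := ball_pos ν' p3.le
  have B4 := ball_pos ν' p4.le
  set b₃ : ℝ := ((ball ν' r₃).card : ℝ) with hb₃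
  set b₄ : ℝ := ((ball ν' r₄).card : ℝ) with hb₄
  set c : ℝ := β / a ^ 2 with hc
  have c0 : 0 < c := by positivity
  have K0 := h.K0
  have cq : 0 < c ^ (17 * p) := by positivity
  obtain ⟨A₁, i1, A₂, i2, j1, j2⟩ := sift A (ball ν' r₃) (ball ν' r₄) (ball ν (r₁ * (1 + ρ))) s
    (17 * p) (fun w => 1.02 < c * dc (ind A) (w + s)) (M := 2 ^ p / 4 * (b₃ * b₄) / c ^ (17 * p))
    (δ := 1 / 1000) (c := 2 * (b₃ * b₄) / K) (by norm_num) (by positivity) (by positivity)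
    (fun x hx y hy => by
      have := ν.sub x y
      have := hνν y
      have := mem_ball.mp (hA hx)
      rw [mem_ball] at *
      nlinarith)
    (by
      rw [div_le_iff₀ cq]
      simp only [mul_pow, ← mul_sum] at hs
      rwa [mul_comm (c ^ (17 * p))] at hs)
    (by
      rw [← mul_div_assoc, le_div_iff₀ cq, sum_mul]
      have u : ∀ x ∈ ball ν' r₃, (∑ y ∈ ball ν' r₄, (if 1.02 < c * dc (ind A) (x - y + s) then 0 else 1) *
          dc (ind A) (x + s - y) ^ (17 * p)) * c ^ (17 * p) ≤ b₄ * (3 / 2) ^ p := by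
        intro x _
        rw [sum_mul, hb₄, ← nsmul_eq_mul]
        refine sum_le_card_nsmul _ _ _ fun y _ => ?_
        split_ifs with hxy
        · simp only [zero_mul]; positivity
        · rw [one_mul, ← mul_pow, mul_comm _ c, add_sub_right_comm, pow_mul]
          have d0 : 0 ≤ c * dc (ind A) (x - y + s) := mul_nonneg c0.le
            (sum_nonneg fun z _ => mul_nonneg (ind_nonneg _ _) (ind_nonneg _ _))
          gcongr
          calc _ ≤ (1.02 : ℝ) ^ 17 := by gcongr; exact not_lt.mp hxy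
            _ ≤ _ := by norm_num
      refine (sum_le_card_nsmul _ _ _ u).trans ?_
      rw [nsmul_eq_mul, ← hb₃]
      have v : (3 / 2 : ℝ) ^ p * 8000 ≤ 2 ^ p := by
        have : (2 : ℝ) ^ p = (3 / 2) ^ p * (4 / 3) ^ p := by rw [← mul_pow]; norm_num
        rw [this]
        gcongr
        calc (8000 : ℝ) ≤ (4 / 3) ^ 32 := by norm_num
          _ ≤ _ := pow_le_pow_right₀ (by norm_num) h.p32
      nlinarith [mul_pos B3 B4])
    (by
      have z1 : ((ball ν (r₁ * (1 + ρ))).card : ℝ) ≤ 2 * β := g1.plus p1.le ρ0.le η0.le η1 le_rfl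
      have z2 : ((ball ν (r₁ * (1 + ρ))).card : ℝ) * c ≤ 2 ^ (2 * p + 3) := by
        have : β ^ 2 ≤ (2 * 2 ^ p * a) ^ 2 := by gcongr
        rw [hc, ← mul_div_assoc, div_le_iff₀ (by positivity), pow_add, pow_mul']
        calc _ ≤ 2 * β * β := by gcongr
          _ = 2 * β ^ 2 := by ring
          _ ≤ 2 * (2 * 2 ^ p * a) ^ 2 := by gcongr
          _ = _ := by ring
      have z3 : ((ball ν (r₁ * (1 + ρ))).card : ℝ) ^ (17 * p) * c ^ (17 * p) ≤ K / 2 := by
        rw [← mul_pow]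
        have := h.hK
        have : (((ball ν (r₁ * (1 + ρ))).card : ℝ) * c) ^ (17 * p) ≤ (2 ^ (2 * p + 3)) ^ (17 * p) := by
          gcongr
        linarith
      rw [div_div, lt_div_iff₀ (by positivity), div_mul_eq_mul_div, div_mul_eq_mul_div,
        div_lt_iff₀ (by positivity)]
      have := mul_pos B3 B4
      nlinarith [mul_le_mul_of_nonneg_left z3 this.le, mul_pos this K0])
  have n1 : (A₁.card : ℝ) ≤ b₃ := by rw [hb₃]; exact_mod_cast card_le_card i1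
  have n2 : (A₂.card : ℝ) ≤ b₄ := by rw [hb₄]; exact_mod_cast card_le_card i2
  rw [div_le_iff₀ K0] at j1
  have q1 : (0 : ℝ) ≤ A₁.card := by positivity
  have q2 : (0 : ℝ) ≤ A₂.card := by positivity
  have o1 : 2 * b₃ ≤ K * A₁.card := by
    apply le_of_mul_le_mul_right _ B4
    nlinarith [mul_le_mul_of_nonneg_left n2 (mul_nonneg K0.le q1)]
  have o2 : 2 * b₄ ≤ K * A₂.card := by
    apply le_of_mul_le_mul_right _ B3
    nlinarith [mul_le_mul_of_nonneg_left n1 (mul_nonneg K0.le q2)]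
  have q1' : (0 : ℝ) < A₁.card := by nlinarith
  have q2' : (0 : ℝ) < A₂.card := by nlinarith
  let S := (ball ν' (r₃ + r₄)).filter fun w => 1.02 < c * dc (ind A) (w + s)
  have N1 : A₁.Nonempty := by rw [← card_pos]; exact_mod_cast q1'
  have N2 : A₂.Nonempty := by rw [← card_pos]; exact_mod_cast q2'
  have dc0 : ∀ w, 0 ≤ c * dc (ind A) w := fun w =>
    mul_nonneg c0.le (sum_nonneg fun z _ => mul_nonneg (ind_nonneg _ _) (ind_nonneg _ _))
  have hN : (0 : ℝ) < Fintype.card G := by exact_mod_cast Fintype.card_pos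
  have ca : c * a = β / a := by rw [hc]; field_simp
  have ca2 : c * a ≤ 2 * 2 ^ p := by rw [ca, div_le_iff₀ a0]; exact hA1
  have er := h.err
  have er1 : 0 ≤ (8 * (5 * D + 1) + n) * σ := by have := h.σ0; positivity
  have er2 : (0 : ℝ) ≤ 2 / 4 ^ k := by positivity
  have er3 : 0 ≤ k * ε := by have := h.ε0; positivity
  obtain ⟨μ, m1, m2, m3⟩ := almost_periodic hd g5 p5 ρ0 (by linarith) η0.le η1 le_rfl S A₁ A₂
    (ball ν' (r₃ + 2 * r₄)) (ball ν' (r₄ + r₅)) N1 N2 k m n h.m0 h.ε0 h.ε1 h.σ0.le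
    (fun x hx y hy => by
      have := ν'.add x y
      have := mem_ball.mp (mem_filter.mp hx).1
      have := mem_ball.mp (i2 hy)
      rw [mem_ball]; linarith)
    ((g3.plus p3.le ρ0.le η0.le η1 (by linarith [mul_pos ρ0 p3])).trans o1)
    (fun x hx y hy => by
      have := ν'.add x y
      have := mem_ball.mp (i2 hx)
      rw [mem_ball] at *; linarith)
    ((g4.plus p4.le ρ0.le η0.le η1 (by linarith [mul_pos ρ0 p4])).trans o2) h.hm h.hn
    (by
      have := mul_le_mul_of_nonneg_right t4.le (add_nonneg er1 er2)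
      linarith)
    (av A₁ A₂ fun w => c * dc (ind A) (w + s)) _
    (av_four A₁ A₂ _ (fun χ => ((c * (‖∑ a ∈ A, χ a‖ ^ 2 / Fintype.card G) : ℝ) : ℂ) * χ s)
      (fun y => by
        rw [Complex.ofReal_mul, dc_fourier, mul_sum]
        refine sum_congr rfl fun χ _ => ?_
        rw [AddChar.map_add_eq_mul, Complex.ofReal_mul]; ring))
    (lam := 1.02) (L := 2 * 2 ^ p) (by norm_num)
    (by
      refine le_trans (sum_le_sum (g := fun χ => c * (‖∑ a ∈ A, χ a‖ ^ 2 / Fintype.card G))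
        fun χ _ => ?_) ?_
      · rw [norm_mul, norm_mul, norm_mul, AddChar.norm_apply, mul_one, Complex.norm_real,
          Real.norm_eq_abs, abs_of_nonneg (by positivity), Complex.norm_conj]
        exact mul_le_of_le_one_right (by positivity)
          (mul_le_one₀ (norm_hat_le _ _) (norm_nonneg _) (norm_hat_le _ _))
      · rw [← mul_sum, ← sum_div, parseval, mul_div_cancel_left₀ _ hN.ne']
        exact ca2)
    (fun y => by
      unfold av
      rw [← mul_div_assoc]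
      gcongr ?_ / _
      simp only [mul_sum (s := A₁), mul_sum (s := A₂)]
      refine sum_le_sum fun x _ => sum_le_sum fun z _ => ?_
      unfold ind
      split_ifs with hS
      · rw [mul_one]; exact (mem_filter.mp hS).2.le
      · rw [mul_zero]; exact dc0 _)
  refine ⟨μ, m1, m2, fun Y hY => ?_⟩
  have w0 : 1 - 1 / 1000 ≤ av A₁ A₂ (ind S) 0 := by
    rw [av, le_div_iff₀ (by positivity)]
    refine j2.trans (le_of_eq (sum_congr rfl fun x hx => sum_congr rfl fun z hz => ?_))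
    have := ν'.sub x z
    have := mem_ball.mp (i1 hx)
    have := mem_ball.mp (i2 hz)
    have : ν'.f (x - z) ≤ r₃ + r₄ := by linarith
    simp only [ind, S, mem_filter, mem_ball, zero_add, this, true_and]
  by_contra hcon
  push Not at hcon
  have Y0 : (0 : ℝ) < Y.card := by
    rcases Y.eq_empty_or_nonempty with rfl | hY0
    · simpa using hcon 0
    · exact_mod_cast hY0.card_pos
  have w1 := m3 Y (1.017 * Y.card) hY (av_sum N1 N2 Y fun x => by
    have e : ∀ y, dc (ind A) (x + y + s) = ∑ u ∈ A, ind A (u + (x + s) + y) := by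
      intro y
      unfold dc
      rw [← sum_filter_add_sum_filter_not univ (· ∈ A), filter_mem_eq_inter, univ_inter,
        sum_eq_zero (s := univ.filter (· ∉ A)) fun u hu => by
          simp only [ind, if_neg (mem_filter.mp hu).2, zero_mul], add_zero]
      refine sum_congr rfl fun u hu => ?_
      have : ind A u = 1 := if_pos hu
      rw [this, one_mul]; congr 1; abel
    simp only [e]
    rw [← mul_sum, sum_comm]
    have := sum_le_card_nsmul A _ _ fun u _ => (hcon (u + (x + s))).le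
    rw [nsmul_eq_mul, ← ha] at this
    refine (mul_le_mul_of_nonneg_left this c0.le).trans (le_of_eq ?_)
    rw [hc]; field_simp)
  have w2 := le_of_mul_le_mul_right w1 Y0
  linarith

end

end Pool.Agent.Lib.MP_574c26_nt.KM
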