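import Pool.Agent.Lib.MP_574c26_nt.KM7

/-!
Narrowing, one step of the iteration, and the iteration.
-/

set_option autoImplicit false
set_option linter.unusedSectionVars false
set_option linter.unusedVariables false

open Finset

namespace Pool.Agent.Lib.MP_574c26_nt.KM

variable {G : Type} [AddCommGroup G] [Fintype G] [DecidableEq G]

lemma avg_shift {ν : Sem G} {r ρ η s α : ℝ} (hG : Good ν r ρ η) (hr : 0 ≤ r) (hρ : 0 ≤ ρ)
    (hη : 0 ≤ η) (hs0 : 0 ≤ s) (hs : s ≤ ρ * r) (A : Finset G) (x : G)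
    (h : α * (ball ν r).card ≤ ∑ y ∈ ball ν r, ind A (x + y)) :
    (α - 2 * η) * (ball ν r).card ≤
      ∑ z ∈ ball ν r, (∑ y ∈ ball ν s, ind A (x + z + y)) / (ball ν s).card := by
  rw [← sum_div, le_div_iff₀ (ball_pos ν hs0), sum_comm, mul_comm, ← nsmul_eq_mul]
  refine card_nsmul_le_sum _ _ _ fun y hy => ?_
  have := hG.shift hr hρ hη ((mem_ball.mp hy).trans hs) (fun z => ind A (x + z)) (K := 1)
    (fun z => by rw [Real.norm_eq_abs, abs_of_nonneg (ind_nonneg _ _)]; exact ind_le _ _)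
  rw [Real.norm_eq_abs] at this
  have := (abs_le.mp this).1
  simp only [add_assoc]
  linarith

lemma narrow {ν : Sem G} {r ρ η s t α : ℝ} (hG : Good ν r ρ η) (hr : 0 ≤ r) (hρ : 0 ≤ ρ)
    (hη : 0 ≤ η) (hs0 : 0 ≤ s) (hs : s ≤ ρ * r) (ht0 : 0 ≤ t) (ht : t ≤ ρ * r) (A : Finset G) (x : G)
    (h : α * (ball ν r).card ≤ ∑ y ∈ ball ν r, ind A (x + y)) (hα : 4000 * η ≤ α) :
    ∃ x', 1.001 * α * (ball ν s).card ≤ ∑ y ∈ ball ν s, ind A (x' + y) ∨
      1.001 * α * (ball ν t).card ≤ ∑ y ∈ ball ν t, ind A (x' + y) ∨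
      (0.998 * α * (ball ν s).card ≤ ∑ y ∈ ball ν s, ind A (x' + y) ∧
        0.998 * α * (ball ν t).card ≤ ∑ y ∈ ball ν t, ind A (x' + y)) := by
  have h1 := avg_shift hG hr hρ hη hs0 hs A x h
  have h2 := avg_shift hG hr hρ hη ht0 ht A x h
  obtain ⟨z, -, hz⟩ := exists_le_of_sum_le (f := fun _ => 2 * (α - 2 * η))
    (g := fun z => (∑ y ∈ ball ν s, ind A (x + z + y)) / (ball ν s).card +
      (∑ y ∈ ball ν t, ind A (x + z + y)) / (ball ν t).card) (ball_nonempty ν hr) (by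
      rw [sum_add_distrib, sum_const, nsmul_eq_mul]; linarith)
  refine ⟨x + z, ?_⟩
  simp only [← le_div_iff₀ (ball_pos ν hs0), ← le_div_iff₀ (ball_pos ν ht0)]
  by_contra hcon
  push Not at hcon
  obtain ⟨c1, c2, c3⟩ := hcon
  have := c3 (by linarith)
  linarith

lemma sum_ind_filter (B A : Finset G) (x : G) :
    ∑ y ∈ B, ind A (x + y) = (B.filter fun y => x + y ∈ A).card := by
  simp [ind]

variable {p k m n D : ℕ} {η ρ σ K ε : ℝ}

lemma step (h : Ok p k m n D η ρ σ K ε) (hal : G ≃+ G) (hh : ∀ x, hal (x + x) = x)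
    (A₀ : Finset G) (hA₀ : ThreeAPFree (A₀ : Set G)) {ν : Sem G} {d : ℕ} {r Q α : ℝ} {x : G}
    (hd : Dim ν d) (hdD : d + 2 * n ≤ D) (hr : 0 < r) (hG : Good ν r ρ η) (hQ1 : 1 ≤ Q)
    (hQ : ∀ y, ν.f y ≤ Q * r) (hα : 1 ≤ α * 2 ^ p)
    (hden : α * (ball ν r).card ≤ ∑ y ∈ ball ν r, ind A₀ (x + y))
    (hN : 16 * 4 ^ p * (12 * (Q * ((8 / ρ) ^ 6 * (16 / σ)))) ^ D ≤ Fintype.card G) :
    ∃ (ν' : Sem G) (r' : ℝ) (x' : G), Dim ν' (d + 2 * n) ∧ 0 < r' ∧ Good ν' r' ρ η ∧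
      (∀ y, ν'.f y ≤ Q * ((8 / ρ) ^ 6 * (16 / σ)) * r') ∧
      1.001 * α * (ball ν' r').card ≤ ∑ y ∈ ball ν' r', ind A₀ (x' + y) := by
  have ρ0 := h.ρ0
  have ρ1 := h.ρ1
  have η0 := h.η0
  have σ0 := h.σ0
  have t0 : (0 : ℝ) < 2 ^ p := by positivity
  have α0 : 0 < α := by
    by_contra hc
    have := mul_nonpos_of_nonpos_of_nonneg (not_lt.mp hc) t0.le
    linarith
  have hdD' : d ≤ D := by omega
  have hd' := hd.comp hal
  obtain ⟨r₁, p1, u1, k1, g1⟩ := h.next hd hdD' hr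
  obtain ⟨r₂, p2, u2, k2, g2⟩ := h.next hd hdD' p1
  obtain ⟨r₃, p3, u3, k3, g3⟩ := h.next hd' hdD' p2
  obtain ⟨r₄, p4, u4, k4, g4⟩ := h.next hd' hdD' p3
  obtain ⟨r₅, p5, u5, k5, g5⟩ := h.next hd' hdD' p4
  have up : ∀ {a b : ℝ}, ρ * a / 8 ≤ b → a ≤ 8 / ρ * b := by
    intro a b hab
    rw [div_mul_eq_mul_div, le_div_iff₀ ρ0]; linarith
  have θ1 : 1 ≤ 8 / ρ := by rw [le_div_iff₀ ρ0]; linarith
  have θ2 : 1 ≤ 16 / σ := by rw [le_div_iff₀ σ0]; linarith [h.σ1]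
  generalize 8 / ρ = θ at *
  have pw : ∀ j : ℕ, j ≤ 6 → θ ^ j ≤ θ ^ 6 * (16 / σ) := fun j hj =>
    (pow_le_pow_right₀ θ1 hj).trans (le_mul_of_one_le_right (by positivity) θ2)
  have bd : ∀ (j : ℕ) (s : ℝ), j ≤ 6 → 0 < s → r ≤ θ ^ j * s → Q * r ≤ Q * (θ ^ 6 * (16 / σ)) * s := by
    intro j s hj hs hrs
    rw [mul_assoc]
    gcongr
    exact hrs.trans (by gcongr; exact pw j hj)
  have v1 : r ≤ θ ^ 1 * r₁ := by simpa using up u1
  have nx : ∀ {j : ℕ} {a b : ℝ}, r ≤ θ ^ j * a → ρ * a / 8 ≤ b → r ≤ θ ^ (j + 1) * b := by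
    intro j a b h1 h2
    rw [pow_succ, mul_assoc]
    exact h1.trans (by gcongr; exact up h2)
  have v2 := nx v1 u2
  have v5 := nx (nx (nx v2 u3) u4) u5
  have l1 : r₁ ≤ ρ * r := by nlinarith
  have l2 : r₂ ≤ ρ * r := by nlinarith
  obtain ⟨x', hx'⟩ := narrow hG hr.le ρ0.le η0.le p1.le l1 p2.le l2 A₀ x hden (by
    apply le_of_mul_le_mul_right _ t0
    linarith [h.ηs])
  rcases hx' with hx' | hx' | ⟨y1, y2⟩
  · exact ⟨ν, r₁, x', hd.mono (by omega), p1, g1,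
      fun y => (hQ y).trans (bd 1 r₁ (by norm_num) p1 v1), hx'⟩
  · exact ⟨ν, r₂, x', hd.mono (by omega), p2, g2,
      fun y => (hQ y).trans (bd 2 r₂ (by norm_num) p2 v2), hx'⟩
  rw [sum_ind_filter] at y1 y2
  have b1 := ball_pos ν p1.le
  have b2 := ball_pos ν p2.le
  have inj : Function.Injective fun c : G => c + c := fun a b hab => by
    rw [← hh a, ← hh b]; exact congrArg hal hab
  obtain ⟨μ, m1, m2, m3⟩ := increment h (ν := ν) (ν' := ν.comp hal) (hd'.mono hdD') (fun y => by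
      have e : y = hal y + hal y := hal.injective (hh _).symm
      have := ν.add (hal y) (hal y)
      rw [← e] at this
      show ν.f y ≤ 2 * ν.f (hal y)
      linarith) p1 p2 p3 p4 p5 k2 k3 k4 k5 g1 (g2.comp hal) g3 g4 g5
    ((ball ν r₁).filter fun y => x' + y ∈ A₀)
    (((ball ν r₂).filter fun y => x' + y ∈ A₀).image fun c => c + c) (filter_subset _ _)
    (fun y hy => by
      obtain ⟨c, hc, rfl⟩ := mem_image.mp hy
      rw [mem_ball]
      show ν.f (hal (c + c)) ≤ r₂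
      rw [hh]; exact mem_ball.mp (mem_filter.mp hc).1)
    (fun y hy => by
      obtain ⟨c, hc, rfl⟩ := mem_image.mp hy
      have : ∑ z, ind {c} z = 1 := by rw [sum_ind]; simp
      rw [← this]
      refine sum_le_sum fun z _ => ?_
      unfold ind
      split_ifs with a1 a2 a3 <;> try norm_num
      apply a3
      have := hA₀ (mem_filter.mp a1).2 (mem_filter.mp hc).2 (mem_filter.mp a2).2 (by abel)
      simpa using this)
    (by nlinarith [mul_le_mul_of_nonneg_left y1 t0.le])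
    (by
      rw [card_image_of_injective _ inj, card_ball_comp]
      nlinarith [mul_le_mul_of_nonneg_left y2 t0.le])
    (by
      have Θ1 : 1 ≤ Q * (θ ^ 6 * (16 / σ)) :=
        one_le_mul_of_one_le_of_one_le hQ1 (by simpa using pw 0 (by norm_num))
      have c1 := (hd.mono hdD').card_le (R := Q * (θ ^ 6 * (16 / σ)) * r₁) p1
        (le_mul_of_one_le_left p1.le Θ1)
      have c2 : ball ν (Q * (θ ^ 6 * (16 / σ)) * r₁) = univ :=
        eq_univ_of_forall fun y => mem_ball.mpr ((hQ y).trans (bd 1 r₁ (by norm_num) p1 v1))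
      rw [c2, card_univ, ← mul_assoc, mul_div_cancel_right₀ _ p1.ne', mul_comm] at c1
      exact le_of_mul_le_mul_right (hN.trans c1) (by positivity))
  have w0 : 0 < ρ * r₅ := by positivity
  have hd2 := hd'.sup (m1.smul w0)
  obtain ⟨r₆, p6, u6, k6, g6⟩ := h.next hd2 hdD (mul_pos σ0 p5)
  have l6 : r₆ ≤ σ * ρ * r₅ := by nlinarith [mul_pos σ0 w0]
  obtain ⟨x'', hx''⟩ := m3 (ball ((ν.comp hal).sup (μ.smul _ w0.le)) r₆) (fun y hy => by
    have := mem_ball.mp hy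
    refine ⟨((le_max_left _ _).trans this).trans l6, ?_⟩
    have a : ρ * r₅ * μ.f y ≤ σ * ρ * r₅ := ((le_max_right _ _).trans this).trans l6
    exact le_of_mul_le_mul_left (a.trans (le_of_eq (by ring))) w0)
  refine ⟨_, r₆, x' + x'', hd2, p6, g6, fun y => max_le ((hQ _).trans ?_) ?_, ?_⟩
  · have a : r₅ ≤ θ * (16 / σ) * r₆ := by
      have := up u6
      rw [mul_right_comm, ← mul_div_assoc, le_div_iff₀ σ0]
      nlinarith [mul_pos σ0 p5]
    rw [mul_assoc]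
    gcongr
    refine v5.trans ?_
    calc _ ≤ θ ^ (1 + 1 + 1 + 1 + 1) * (θ * (16 / σ) * r₆) := by gcongr
      _ = _ := by ring
  · show ρ * r₅ * μ.f y ≤ _
    calc ρ * r₅ * μ.f y ≤ 8 * r₆ / σ * 2 := by
          gcongr ?_ * ?_
          · exact μ.nonneg y
          · rw [le_div_iff₀ σ0]; linarith
          · exact m2 y
      _ = 1 * (1 * (16 / σ)) * r₆ := by ring
      _ ≤ _ := by gcongr; exact one_le_pow₀ θ1
  · refine le_trans ?_ (hx''.trans (sum_le_sum fun y _ => ?_))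
    · gcongr ?_ * _
      rw [← le_div_iff₀ b1] at y1
      linarith
    · unfold ind
      split_ifs with a1 a2 <;> try norm_num
      exact a2 (by rw [add_assoc]; exact (mem_filter.mp a1).2)

theorem iterate (h : Ok p k m n D η ρ σ K ε) (hal : G ≃+ G) (hh : ∀ x, hal (x + x) = x)
    (A₀ : Finset G) (hA₀ : ThreeAPFree (A₀ : Set G)) (hD : 2 * n * (1000 * p) ≤ D)
    (hN : 16 * 4 ^ p * (12 * ((8 / ρ) ^ 6 * (16 / σ)) ^ (1000 * p)) ^ D ≤ Fintype.card G) :
    (A₀.card : ℝ) * 2 ^ p < Fintype.card G := by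
  by_contra hcon
  push Not at hcon
  have θ1 : 1 ≤ 8 / ρ := by rw [le_div_iff₀ h.ρ0]; linarith [h.ρ1]
  have θ2 : 1 ≤ 16 / σ := by rw [le_div_iff₀ h.σ0]; linarith [h.σ1]
  have Θ1 : 1 ≤ (8 / ρ) ^ 6 * (16 / σ) := one_le_mul_of_one_le_of_one_le (one_le_pow₀ θ1) θ2
  have t0 : (0 : ℝ) < 2 ^ p := by positivity
  have key : ∀ j : ℕ, j ≤ 1000 * p → ∃ (ν : Sem G) (r : ℝ) (x : G), Dim ν (2 * n * j) ∧ 0 < r ∧
      Good ν r ρ η ∧ (∀ y, ν.f y ≤ ((8 / ρ) ^ 6 * (16 / σ)) ^ j * r) ∧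
      1.001 ^ j / 2 ^ p * ((ball ν r).card : ℝ) ≤ ∑ y ∈ ball ν r, ind A₀ (x + y) := by
    intro j
    induction j with
    | zero =>
      intro _
      have e : ∀ r : ℝ, 0 ≤ r → ball (Sem.triv : Sem G) r = univ := fun r hr =>
        eq_univ_of_forall fun y => mem_ball.mpr hr
      refine ⟨Sem.triv, 1, 0, dim_triv, one_pos, ?_, fun y => by simp [Sem.triv], ?_⟩
      · unfold Good
        rw [e _ (by linarith [h.ρ0]), e _ (by linarith [h.ρ1])]
        exact le_mul_of_one_le_left (by positivity) (by linarith [h.η0])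
      · rw [e _ zero_le_one]
        simp only [zero_add, sum_ind, pow_zero, card_univ]
        rw [div_mul_eq_mul_div, div_le_iff₀ t0]; linarith
    | succ j ih =>
      intro hj
      obtain ⟨ν, r, x, h1, h2, h3, h4, h5⟩ := ih (by omega)
      obtain ⟨ν', r', x', k1, k2, k3, k4, k5⟩ := step h hal hh A₀ hA₀ h1
        (le_trans (by rw [← mul_add_one]; exact Nat.mul_le_mul_left _ hj) hD) h2 h3
        (one_le_pow₀ Θ1) h4 (by
          rw [div_mul_cancel₀ _ t0.ne']; exact one_le_pow₀ (by norm_num)) h5 (by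
          refine le_trans ?_ hN
          rw [← pow_succ]
          gcongr)
      refine ⟨ν', r', x', by rwa [mul_add_one], k2, k3, by simpa only [pow_succ] using k4, ?_⟩
      convert k5 using 2
      ring
  obtain ⟨ν, r, x, -, h2, -, -, h5⟩ := key _ le_rfl
  have b := ball_pos ν h2.le
  have c : ∑ y ∈ ball ν r, ind A₀ (x + y) ≤ (ball ν r).card := by
    simpa using sum_le_card_nsmul _ _ 1 fun y _ => ind_le A₀ (x + y)
  have d : (2 : ℝ) ^ p < 1.001 ^ (1000 * p) := by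
    rw [pow_mul]
    apply pow_lt_pow_left₀ _ (by norm_num) (by have := h.p32; omega)
    have := one_add_mul_le_pow (a := (0.001 : ℝ)) (by norm_num) 500
    calc (2 : ℝ) < (1 + (500 : ℕ) * 0.001) ^ 2 := by norm_num
      _ ≤ ((1 + 0.001) ^ 500) ^ 2 := by gcongr
      _ = _ := by rw [← pow_mul]; norm_num
  rw [← one_lt_div t0] at d
  nlinarith

end Pool.Agent.Lib.MP_574c26_nt.KM
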