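import Pool.Agent.Lib.MP_574c26_nt.KM8

/-!
Choice of parameters: the quasi-polynomial bound for sets without three-term progressions.
-/

set_option autoImplicit false
set_option linter.unusedSectionVars false
set_option linter.unusedVariables false

open Finset

namespace Pool.Agent.Lib.MP_574c26_nt.KM

lemma two_pow_le_exp (j : ℕ) : (2 : ℝ) ^ j ≤ Real.exp j := by
  rw [← mul_one (j : ℝ), Real.exp_nat_mul]
  gcongr
  linarith [Real.add_one_le_exp (1 : ℝ)]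

lemma ok (p : ℕ) (he : Even p) (hp : 32 ≤ p) :
    Ok p p (10 ^ 11 * p ^ 4) (10 ^ 15 * p ^ 6) (2 * 10 ^ 18 * p ^ 7) (1 / 2 ^ (3 * p))
      (1 / 2 ^ (14 * p)) (1 / 2 ^ (12 * p)) (2 ^ (36 * p ^ 2)) (1 / (20000 * p)) := by
  have hp' : (32 : ℝ) ≤ p := by exact_mod_cast hp
  have t1 : (p : ℝ) ≤ 2 ^ p := by exact_mod_cast Nat.lt_two_pow_self.le
  have t2 : (2 : ℝ) ^ 32 ≤ 2 ^ p := pow_le_pow_right₀ (by norm_num) hp
  have p7 : (p : ℝ) ^ 7 ≤ (2 ^ p) ^ 7 := by gcongr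
  have p71 : (1 : ℝ) ≤ (p : ℝ) ^ 7 := one_le_pow₀ (by linarith)
  have p6 : (p : ℝ) ^ 6 ≤ (p : ℝ) ^ 7 := pow_le_pow_right₀ (by linarith) (by norm_num)
  have t3 : (10 : ℝ) ^ 28 ≤ (2 ^ p) ^ 3 := by
    calc (10 : ℝ) ^ 28 ≤ (2 ^ 32) ^ 3 := by norm_num
      _ ≤ _ := by gcongr
  refine ⟨he, hp, by positivity, ?_, ?_, by positivity, ?_, by positivity, by positivity, ?_, ?_, ?_,
    by positivity, ?_, ?_⟩
  · rw [pow_mul', pow_mul']
    push_cast
    generalize (2 : ℝ) ^ p = t at *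
    have t0 : 0 < t := by linarith
    rw [div_mul_eq_mul_div, div_le_div_iff₀ (by positivity) (by positivity)]
    calc _ ≤ 1 * (t ^ 3 * t ^ 7 * t) * t ^ 3 := by
          gcongr 1 * ?_ * _
          calc _ ≤ (10 : ℝ) ^ 28 * p ^ 7 * 1 := by nlinarith
            _ ≤ _ := by gcongr; linarith
      _ = _ := by ring
  · rw [pow_mul', pow_add]
    generalize (2 : ℝ) ^ p = t at *
    have t0 : 0 < t := by linarith
    rw [div_mul_eq_mul_div, div_mul_eq_mul_div, div_le_iff₀ (by positivity)]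
    have : t * (136 * p) ≤ t * (t * t) := by gcongr; linarith
    nlinarith
  · rw [← pow_mul, ← pow_succ']
    apply pow_le_pow_right₀ (by norm_num)
    nlinarith
  · rw [div_le_one (by positivity)]; linarith
  · have e : ((10 ^ 11 * p ^ 4 : ℕ) : ℝ) * (1 / (20000 * p)) ^ 2 / 4 = 62.5 * p ^ 2 := by
      push_cast; field_simp; norm_num
    rw [e, Real.exp_neg, ← div_eq_mul_inv, div_le_div_iff₀ (Real.exp_pos _) (by positivity), one_mul]
    have a1 := two_pow_le_exp (36 * p ^ 2)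
    have a2 := Real.add_one_le_exp ((p : ℝ) ^ 2)
    have a3 : (p : ℝ) ^ 2 + 1 ≤ Real.exp (p ^ 2) := a2
    have a4 : 80000 * (p : ℝ) ≤ Real.exp (p ^ 2) ^ 3 := by
      have : (32 : ℝ) ^ 5 ≤ (p : ℝ) ^ 5 := by gcongr
      calc 80000 * (p : ℝ) ≤ p ^ 5 * p := by gcongr; linarith
        _ = (p ^ 2) ^ 3 := by ring
        _ ≤ _ := by gcongr; linarith
    calc 4 * 2 ^ (36 * p ^ 2) * (20000 * (p : ℝ)) = 2 ^ (36 * p ^ 2) * (80000 * p) := by ring
      _ ≤ Real.exp ((36 * p ^ 2 : ℕ)) * Real.exp (p ^ 2) ^ 3 := by gcongr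
      _ ≤ _ := by
          rw [← Real.exp_nat_mul, ← Real.exp_add]
          apply Real.exp_le_exp.mpr
          push_cast; nlinarith
  · rw [← pow_mul, show (8 : ℝ) = 2 ^ 3 by norm_num, ← pow_add]
    refine (two_pow_le_exp _).trans_lt (Real.exp_lt_exp.mpr ?_)
    have : (1 : ℝ) ≤ (p : ℝ) ^ 6 := one_le_pow₀ (by linarith)
    push_cast
    nlinarith
  · exact div_le_one_of_le₀ (one_le_pow₀ (by norm_num)) (by positivity)
  · have e4 : (4 : ℝ) ^ p = 2 ^ p * 2 ^ p := by rw [← mul_pow]; norm_num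
    have e5 : 5 * (p : ℝ) * (1 / (20000 * p)) = 1 / 4000 := by field_simp; norm_num
    rw [e4, e5, pow_mul']
    push_cast
    generalize (2 : ℝ) ^ p = t at *
    have t0 : 0 < t := by linarith
    have a1 : 2 * t * (2 / (t * t)) ≤ 1 / 4000 := by
      rw [← mul_div_assoc, div_le_iff₀ (by positivity)]; nlinarith
    have a2 : 2 * t * ((8 * (5 * (2 * 10 ^ 18 * p ^ 7) + 1) + 10 ^ 15 * p ^ 6) * (1 / t ^ 12)) ≤
        1 / 4000 := by
      rw [mul_one_div, ← mul_div_assoc, div_le_iff₀ (by positivity)]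
      calc _ ≤ 2 * t * (10 ^ 21 * p ^ 7) := by gcongr; nlinarith
        _ = 1 / 4000 * (8 * 10 ^ 24 * p ^ 7 * t * 1) := by ring
        _ ≤ 1 / 4000 * (t ^ 3 * t ^ 7 * t * t) := by gcongr <;> linarith
        _ = _ := by ring
    rw [mul_add]
    linarith

theorem km {G : Type} [AddCommGroup G] [Fintype G] [DecidableEq G] (hal : G ≃+ G)
    (hh : ∀ x, hal (x + x) = x) (A : Finset G) (hA : ThreeAPFree (A : Set G)) (p : ℕ) (he : Even p)
    (hp : 32 ≤ p) (hN : (2 : ℝ) ^ (10 ^ 24 * p ^ 9) ≤ Fintype.card G) :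
    (A.card : ℝ) * 2 ^ p < Fintype.card G := by
  refine iterate (ok p he hp) hal hh A hA (le_of_eq (by ring)) (le_trans ?_ hN)
  have a1 : (8 / (1 / 2 ^ (14 * p)) : ℝ) ^ 6 * (16 / (1 / 2 ^ (12 * p))) ≤ 2 ^ (97 * p) := by
    have : (8 / (1 / 2 ^ (14 * p)) : ℝ) ^ 6 * (16 / (1 / 2 ^ (12 * p))) = 2 ^ (22 + 96 * p) := by
      field_simp; ring
    rw [this]
    exact pow_le_pow_right₀ (by norm_num) (by omega)
  calc _ ≤ 2 ^ 4 * (2 ^ 2) ^ p * (2 ^ 4 * ((2 : ℝ) ^ (97 * p)) ^ (1000 * p)) ^ (2 * 10 ^ 18 * p ^ 7) := by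
        gcongr <;> norm_num
    _ ≤ _ := by
        simp only [← pow_mul, ← pow_add]
        apply pow_le_pow_right₀ (by norm_num)
        have b1 : p ≤ p ^ 9 := Nat.le_self_pow (by norm_num) p
        have b2 : p ^ 7 ≤ p ^ 9 := Nat.pow_le_pow_right (by omega) (by norm_num)
        have b3 : (4 + 97 * p * (1000 * p)) * (2 * 10 ^ 18 * p ^ 7) =
            8 * 10 ^ 18 * p ^ 7 + 194 * 10 ^ 21 * p ^ 9 := by ring
        omega

/-- Integer form. -/
theorem km_nat (N : ℕ) (A : Finset ℕ) (hA : A ⊆ Icc 1 N) (h3 : ThreeAPFree (A : Set ℕ)) (p : ℕ)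
    (he : Even p) (hp : 32 ≤ p) (hN : (2 : ℝ) ^ (10 ^ 24 * p ^ 9) ≤ N) :
    (A.card : ℝ) * 2 ^ p ≤ 2 * N + 1 := by
  have hu : Nat.Coprime 2 (2 * N + 1) := by simp
  let u := ZMod.unitOfCoprime 2 hu
  have inj : ∀ a b : ℕ, a ≤ 2 * N → b ≤ 2 * N → (a : ZMod (2 * N + 1)) = b → a = b := by
    intro a b ha hb h
    rw [ZMod.natCast_eq_natCast_iff', Nat.mod_eq_of_lt (by omega), Nat.mod_eq_of_lt (by omega)] at h
    exact h
  have bd : ∀ a ∈ A, a ≤ N := fun a ha => (mem_Icc.mp (hA ha)).2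
  have := km (G := ZMod (2 * N + 1)) (AddAut.mulLeft u⁻¹) (fun x => by
      have : x + x = (u : ZMod (2 * N + 1)) * x := by simp [u, two_mul]
      rw [this]
      simp [AddAut.mulLeft, Units.smul_def]) (A.image (Nat.cast)) (by
      intro a ha b hb c hc h
      simp only [coe_image, Set.mem_image, mem_coe] at ha hb hc
      obtain ⟨a, ha, rfl⟩ := ha
      obtain ⟨b, hb, rfl⟩ := hb
      obtain ⟨c, hc, rfl⟩ := hc
      have := bd a ha
      have := bd b hb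
      have := bd c hc
      rw [h3 ha hb hc (inj (a + c) (b + b) (by omega) (by omega) (by push_cast; exact h))])
    p he hp (hN.trans (by rw [ZMod.card]; exact_mod_cast (by omega : N ≤ 2 * N + 1)))
  rw [card_image_of_injOn fun a ha b hb h =>
    inj a b (by have := bd a ha; omega) (by have := bd b hb; omega) h, ZMod.card] at this
  exact_mod_cast this.le

end Pool.Agent.Lib.MP_574c26_nt.KM
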